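import Pool.Agent.Gen.F5.X12DC13m5.S000
import Pool.Agent.Gen.F5.X12DC13m5.S001
import Pool.Agent.Gen.F5.X12DC13m5.S002
import Pool.Agent.Gen.F5.X12DC13m5.S003
import Pool.Agent.Gen.F5.X12DC13m5.S004
import Pool.Agent.Gen.F5.X12DC13m5.S005
import Pool.Agent.Gen.F5.X12DC13m5.S006

set_option autoImplicit false
set_option maxRecDepth 100000

namespace Pool.Agent.Gen.F5.X12DC13m5

open Pool.Agent.Helper72.F5

def n0 : Cl (O (nat_lit 5)) (R (nat_lit 102673))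
    (p (nat_lit 0x100004) (nat_lit 0) (p (nat_lit 0x89) (nat_lit 0) (p (nat_lit 0x109) (nat_lit 1) (p (nat_lit 0x111) (nat_lit 0) (p (nat_lit 0x41) (nat_lit 0) (p (nat_lit 0xb000c) (nat_lit 0) (p (nat_lit 0x200014) (nat_lit 0) (p (nat_lit 0x200004) (nat_lit 0) (p (nat_lit 0xd1) (nat_lit 1) (p (nat_lit 0x109) (nat_lit 1) (p (nat_lit 0x101) (nat_lit 0) (p (nat_lit 0x119) (nat_lit 0) (p (nat_lit 0xc9) (nat_lit 0) (p (nat_lit 0x89) (nat_lit 1) (p (nat_lit 0x41) (nat_lit 0) (p (nat_lit 0x1098a0b090a9a) (nat_lit 0) (p (nat_lit 0x9098a888a1a) (nat_lit 0) (p (nat_lit 0x108890a08079a) (nat_lit 0) (p (nat_lit 0x8088987871a) (nat_lit 0) (p (nat_lit 0x8000000000800078907088a) (nat_lit 0) (p (nat_lit 0x8000000000800070886860a) (nat_lit 0) (p (nat_lit 0x10708060782) (nat_lit 0) (p (nat_lit 0x687858702) (nat_lit 0) (p (nat_lit 0x10607050482) (nat_lit 0) (p (nat_lit 0x586848402) (nat_lit 0) (p (nat_lit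 0x16000c) (nat_lit 0) (p (nat_lit 0x50612) (nat_lit 0) (p (nat_lit 0x40592) (nat_lit 0) (p (nat_lit 0x40492) (nat_lit 0) (p (nat_lit 0x30412) (nat_lit 0) (p (nat_lit 0x30212) (nat_lit 0) (p (nat_lit 0x20192) (nat_lit 0) (p (nat_lit 0x20092) (nat_lit 0) (p (nat_lit 0x10012) (nat_lit 0) pn)))))))))))))))))))))))))))))))))) :=
  Cl.node (nat_lit 0x100014) (nat_lit 2) (by decide +kernel) (ClAll.succ (ClAll.succ ClAll.zero s71) s72)

def n1 : Cl (O (nat_lit 5)) (R (nat_lit 102673))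
    (p (nat_lit 0x100004) (nat_lit 0) (p (nat_lit 0x109) (nat_lit 0) (p (nat_lit 0x89) (nat_lit 1) (p (nat_lit 0x111) (nat_lit 1) (p (nat_lit 0x41) (nat_lit 0) (p (nat_lit 0xb000c) (nat_lit 0) (p (nat_lit 0x200014) (nat_lit 0) (p (nat_lit 0x200004) (nat_lit 0) (p (nat_lit 0xd1) (nat_lit 1) (p (nat_lit 0x109) (nat_lit 1) (p (nat_lit 0x101) (nat_lit 0) (p (nat_lit 0x119) (nat_lit 0) (p (nat_lit 0xc9) (nat_lit 0) (p (nat_lit 0x89) (nat_lit 1) (p (nat_lit 0x41) (nat_lit 0) (p (nat_lit 0x1098a0b090a9a) (nat_lit 0) (p (nat_lit 0x9098a888a1a) (nat_lit 0) (p (nat_lit 0x108890a08079a) (nat_lit 0) (p (nat_lit 0x8088987871a) (nat_lit 0) (p (nat_lit 0x8000000000800078907088a) (nat_lit 0) (p (nat_lit 0x8000000000800070886860a) (nat_lit 0) (p (nat_lit 0x10708060782) (nat_lit 0) (p (nat_lit 0x687858702) (nat_lit 0) (p (nat_lit 0x10607050482) (nat_lit 0) (p (nat_lit 0x586848402) (nat_lit 0) (p (nat_lit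 0x16000c) (nat_lit 0) (p (nat_lit 0x50612) (nat_lit 0) (p (nat_lit 0x40592) (nat_lit 0) (p (nat_lit 0x40492) (nat_lit 0) (p (nat_lit 0x30412) (nat_lit 0) (p (nat_lit 0x30212) (nat_lit 0) (p (nat_lit 0x20192) (nat_lit 0) (p (nat_lit 0x20092) (nat_lit 0) (p (nat_lit 0x10012) (nat_lit 0) pn)))))))))))))))))))))))))))))))))) :=
  Cl.node (nat_lit 0x100014) (nat_lit 2) (by decide +kernel) (ClAll.succ (ClAll.succ ClAll.zero s76) s77)

def n2 : Cl (O (nat_lit 5)) (R (nat_lit 102673))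
    (p (nat_lit 0x89) (nat_lit 0) (p (nat_lit 0x109) (nat_lit 1) (p (nat_lit 0x111) (nat_lit 0) (p (nat_lit 0x41) (nat_lit 0) (p (nat_lit 0xb000c) (nat_lit 0) (p (nat_lit 0x200014) (nat_lit 0) (p (nat_lit 0x200004) (nat_lit 0) (p (nat_lit 0xd1) (nat_lit 1) (p (nat_lit 0x109) (nat_lit 1) (p (nat_lit 0x101) (nat_lit 0) (p (nat_lit 0x119) (nat_lit 0) (p (nat_lit 0xc9) (nat_lit 0) (p (nat_lit 0x89) (nat_lit 1) (p (nat_lit 0x41) (nat_lit 0) (p (nat_lit 0x1098a0b090a9a) (nat_lit 0) (p (nat_lit 0x9098a888a1a) (nat_lit 0) (p (nat_lit 0x108890a08079a) (nat_lit 0) (p (nat_lit 0x8088987871a) (nat_lit 0) (p (nat_lit 0x8000000000800078907088a) (nat_lit 0) (p (nat_lit 0x8000000000800070886860a) (nat_lit 0) (p (nat_lit 0x10708060782) (nat_lit 0) (p (nat_lit 0x687858702) (nat_lit 0) (p (nat_lit 0x10607050482) (nat_lit 0) (p (nat_lit 0x586848402) (nat_lit 0) (p (nat_lit 0x16000c) (nat_lit 0) (p (nat_lit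 0x50612) (nat_lit 0) (p (nat_lit 0x40592) (nat_lit 0) (p (nat_lit 0x40492) (nat_lit 0) (p (nat_lit 0x30412) (nat_lit 0) (p (nat_lit 0x30212) (nat_lit 0) (p (nat_lit 0x20192) (nat_lit 0) (p (nat_lit 0x20092) (nat_lit 0) (p (nat_lit 0x10012) (nat_lit 0) pn))))))))))))))))))))))))))))))))) :=
  Cl.node (nat_lit 0x100004) (nat_lit 2) (by decide +kernel) (ClAll.succ (ClAll.succ ClAll.zero n0) s73)

def n3 : Cl (O (nat_lit 5)) (R (nat_lit 102673))
    (p (nat_lit 0x109) (nat_lit 0) (p (nat_lit 0x89) (nat_lit 1) (p (nat_lit 0x111) (nat_lit 1) (p (nat_lit 0x41) (nat_lit 0) (p (nat_lit 0xb000c) (nat_lit 0) (p (nat_lit 0x200014) (nat_lit 0) (p (nat_lit 0x200004) (nat_lit 0) (p (nat_lit 0xd1) (nat_lit 1) (p (nat_lit 0x109) (nat_lit 1) (p (nat_lit 0x101) (nat_lit 0) (p (nat_lit 0x119) (nat_lit 0) (p (nat_lit 0xc9) (nat_lit 0) (p (nat_lit 0x89) (nat_lit 1) (p (nat_lit 0x41) (nat_lit 0) (p (nat_lit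 0x1098a0b090a9a) (nat_lit 0) (p (nat_lit 0x9098a888a1a) (nat_lit 0) (p (nat_lit 0x108890a08079a) (nat_lit 0) (p (nat_lit 0x8088987871a) (nat_lit 0) (p (nat_lit 0x8000000000800078907088a) (nat_lit 0) (p (nat_lit 0x8000000000800070886860a) (nat_lit 0) (p (nat_lit 0x10708060782) (nat_lit 0) (p (nat_lit 0x687858702) (nat_lit 0) (p (nat_lit 0x10607050482) (nat_lit 0) (p (nat_lit 0x586848402) (nat_lit 0) (p (nat_lit 0x16000c) (nat_lit 0) (p (nat_lit 0x50612) (nat_lit 0) (p (nat_lit 0x40592) (nat_lit 0) (p (nat_lit 0x40492) (nat_lit 0) (p (nat_lit 0x30412) (nat_lit 0) (p (nat_lit 0x30212) (nat_lit 0) (p (nat_lit 0x20192) (nat_lit 0) (p (nat_lit 0x20092) (nat_lit 0) (p (nat_lit 0x10012) (nat_lit 0) pn))))))))))))))))))))))))))))))))) :=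
  Cl.node (nat_lit 0x100004) (nat_lit 2) (by decide +kernel) (ClAll.succ (ClAll.succ ClAll.zero n1) s78)

def n4 : Cl (O (nat_lit 5)) (R (nat_lit 102673))
    (p (nat_lit 0x109) (nat_lit 1) (p (nat_lit 0x111) (nat_lit 0) (p (nat_lit 0x41) (nat_lit 0) (p (nat_lit 0xb000c) (nat_lit 0) (p (nat_lit 0x200014) (nat_lit 0) (p (nat_lit 0x200004) (nat_lit 0) (p (nat_lit 0xd1) (nat_lit 1) (p (nat_lit 0x109) (nat_lit 1) (p (nat_lit 0x101) (nat_lit 0) (p (nat_lit 0x119) (nat_lit 0) (p (nat_lit 0xc9) (nat_lit 0) (p (nat_lit 0x89) (nat_lit 1) (p (nat_lit 0x41) (nat_lit 0) (p (nat_lit 0x1098a0b090a9a) (nat_lit 0) (p (nat_lit 0x9098a888a1a) (nat_lit 0) (p (nat_lit 0x108890a08079a) (nat_lit 0) (p (nat_lit 0x8088987871a) (nat_lit 0) (p (nat_lit 0x8000000000800078907088a) (nat_lit 0) (p (nat_lit 0x8000000000800070886860a) (nat_lit 0) (p (nat_lit 0x10708060782) (nat_lit 0) (p (nat_lit 0x687858702) (nat_lit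 0) (p (nat_lit 0x10607050482) (nat_lit 0) (p (nat_lit 0x586848402) (nat_lit 0) (p (nat_lit 0x16000c) (nat_lit 0) (p (nat_lit 0x50612) (nat_lit 0) (p (nat_lit 0x40592) (nat_lit 0) (p (nat_lit 0x40492) (nat_lit 0) (p (nat_lit 0x30412) (nat_lit 0) (p (nat_lit 0x30212) (nat_lit 0) (p (nat_lit 0x20192) (nat_lit 0) (p (nat_lit 0x20092) (nat_lit 0) (p (nat_lit 0x10012) (nat_lit 0) pn)))))))))))))))))))))))))))))))) :=
  Cl.node (nat_lit 0x89) (nat_lit 2) (by decide +kernel) (ClAll.succ (ClAll.succ ClAll.zero n2) s74)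

def n5 : Cl (O (nat_lit 5)) (R (nat_lit 102673))
    (p (nat_lit 0x89) (nat_lit 1) (p (nat_lit 0x111) (nat_lit 1) (p (nat_lit 0x41) (nat_lit 0) (p (nat_lit 0xb000c) (nat_lit 0) (p (nat_lit 0x200014) (nat_lit 0) (p (nat_lit 0x200004) (nat_lit 0) (p (nat_lit 0xd1) (nat_lit 1) (p (nat_lit 0x109) (nat_lit 1) (p (nat_lit 0x101) (nat_lit 0) (p (nat_lit 0x119) (nat_lit 0) (p (nat_lit 0xc9) (nat_lit 0) (p (nat_lit 0x89) (nat_lit 1) (p (nat_lit 0x41) (nat_lit 0) (p (nat_lit 0x1098a0b090a9a) (nat_lit 0) (p (nat_lit 0x9098a888a1a) (nat_lit 0) (p (nat_lit 0x108890a08079a) (nat_lit 0) (p (nat_lit 0x8088987871a) (nat_lit 0) (p (nat_lit 0x8000000000800078907088a) (nat_lit 0) (p (nat_lit 0x8000000000800070886860a) (nat_lit 0) (p (nat_lit 0x10708060782) (nat_lit 0) (p (nat_lit 0x687858702) (nat_lit 0) (p (nat_lit 0x10607050482) (nat_lit 0) (p (nat_lit 0x586848402) (nat_lit 0) (p (nat_lit 0x16000c)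 (nat_lit 0) (p (nat_lit 0x50612) (nat_lit 0) (p (nat_lit 0x40592) (nat_lit 0) (p (nat_lit 0x40492) (nat_lit 0) (p (nat_lit 0x30412) (nat_lit 0) (p (nat_lit 0x30212) (nat_lit 0) (p (nat_lit 0x20192) (nat_lit 0) (p (nat_lit 0x20092) (nat_lit 0) (p (nat_lit 0x10012) (nat_lit 0) pn)))))))))))))))))))))))))))))))) :=
  Cl.node (nat_lit 0x109) (nat_lit 2) (by decide +kernel) (ClAll.succ (ClAll.succ ClAll.zero n3) s79)

def n6 : Cl (O (nat_lit 5)) (R (nat_lit 102673))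
    (p (nat_lit 0x111) (nat_lit 0) (p (nat_lit 0x41) (nat_lit 0) (p (nat_lit 0xb000c) (nat_lit 0) (p (nat_lit 0x200014) (nat_lit 0) (p (nat_lit 0x200004) (nat_lit 0) (p (nat_lit 0xd1) (nat_lit 1) (p (nat_lit 0x109) (nat_lit 1) (p (nat_lit 0x101) (nat_lit 0) (p (nat_lit 0x119) (nat_lit 0) (p (nat_lit 0xc9) (nat_lit 0) (p (nat_lit 0x89) (nat_lit 1) (p (nat_lit 0x41) (nat_lit 0) (p (nat_lit 0x1098a0b090a9a) (nat_lit 0) (p (nat_lit 0x9098a888a1a) (nat_lit 0) (p (nat_lit 0x108890a08079a) (nat_lit 0) (p (nat_lit 0x8088987871a) (nat_lit 0) (p (nat_lit 0x8000000000800078907088a) (nat_lit 0) (p (nat_lit 0x8000000000800070886860a) (nat_lit 0) (p (nat_lit 0x10708060782) (nat_lit 0) (p (nat_lit 0x687858702) (nat_lit 0) (p (nat_lit 0x10607050482) (nat_lit 0) (p (nat_lit 0x586848402) (nat_lit 0) (p (nat_lit 0x16000c) (nat_lit 0) (p (nat_lit 0x50612) (nat_lit 0) (p (nat_lit 0x40592) (nat_lit 0) (p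 (nat_lit 0x40492) (nat_lit 0) (p (nat_lit 0x30412) (nat_lit 0) (p (nat_lit 0x30212) (nat_lit 0) (p (nat_lit 0x20192) (nat_lit 0) (p (nat_lit 0x20092) (nat_lit 0) (p (nat_lit 0x10012) (nat_lit 0) pn))))))))))))))))))))))))))))))) :=
  Cl.node (nat_lit 0x109) (nat_lit 2) (by decide +kernel) (ClAll.succ (ClAll.succ ClAll.zero s70) n4)

def n7 : Cl (O (nat_lit 5)) (R (nat_lit 102673))
    (p (nat_lit 0x111) (nat_lit 1) (p (nat_lit 0x41) (nat_lit 0) (p (nat_lit 0xb000c) (nat_lit 0) (p (nat_lit 0x200014) (nat_lit 0) (p (nat_lit 0x200004) (nat_lit 0) (p (nat_lit 0xd1) (nat_lit 1) (p (nat_lit 0x109) (nat_lit 1) (p (nat_lit 0x101) (nat_lit 0) (p (nat_lit 0x119) (nat_lit 0) (p (nat_lit 0xc9) (nat_lit 0) (p (nat_lit 0x89) (nat_lit 1) (p (nat_lit 0x41) (nat_lit 0) (p (nat_lit 0x1098a0b090a9a) (nat_lit 0) (p (nat_lit 0x9098a888a1a) (nat_lit 0) (p (nat_lit 0x108890a08079a) (nat_lit 0) (p (nat_lit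 0x8088987871a) (nat_lit 0) (p (nat_lit 0x8000000000800078907088a) (nat_lit 0) (p (nat_lit 0x8000000000800070886860a) (nat_lit 0) (p (nat_lit 0x10708060782) (nat_lit 0) (p (nat_lit 0x687858702) (nat_lit 0) (p (nat_lit 0x10607050482) (nat_lit 0) (p (nat_lit 0x586848402) (nat_lit 0) (p (nat_lit 0x16000c) (nat_lit 0) (p (nat_lit 0x50612) (nat_lit 0) (p (nat_lit 0x40592) (nat_lit 0) (p (nat_lit 0x40492) (nat_lit 0) (p (nat_lit 0x30412) (nat_lit 0) (p (nat_lit 0x30212) (nat_lit 0) (p (nat_lit 0x20192) (nat_lit 0) (p (nat_lit 0x20092) (nat_lit 0) (p (nat_lit 0x10012) (nat_lit 0) pn))))))))))))))))))))))))))))))) :=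
  Cl.node (nat_lit 0x89) (nat_lit 2) (by decide +kernel) (ClAll.succ (ClAll.succ ClAll.zero s75) n5)

def n8 : Cl (O (nat_lit 5)) (R (nat_lit 102673))
    (p (nat_lit 0x81) (nat_lit 0) (p (nat_lit 0x109) (nat_lit 1) (p (nat_lit 0xb000c) (nat_lit 0) (p (nat_lit 0x200014) (nat_lit 0) (p (nat_lit 0x200004) (nat_lit 0) (p (nat_lit 0xd1) (nat_lit 1) (p (nat_lit 0xc1) (nat_lit 0) (p (nat_lit 0x101) (nat_lit 1) (p (nat_lit 0x119) (nat_lit 0) (p (nat_lit 0xc9) (nat_lit 0) (p (nat_lit 0x89) (nat_lit 1) (p (nat_lit 0x41) (nat_lit 0) (p (nat_lit 0x1098a0b090a9a) (nat_lit 0) (p (nat_lit 0x9098a888a1a) (nat_lit 0) (p (nat_lit 0x108890a08079a) (nat_lit 0) (p (nat_lit 0x8088987871a) (nat_lit 0) (p (nat_lit 0x8000000000800078907088a) (nat_lit 0) (p (nat_lit 0x8000000000800070886860a) (nat_lit 0) (p (nat_lit 0x10708060782) (nat_lit 0) (p (nat_lit 0x687858702) (nat_lit 0) (p (nat_lit 0x10607050482)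 (nat_lit 0) (p (nat_lit 0x586848402) (nat_lit 0) (p (nat_lit 0x16000c) (nat_lit 0) (p (nat_lit 0x50612) (nat_lit 0) (p (nat_lit 0x40592) (nat_lit 0) (p (nat_lit 0x40492) (nat_lit 0) (p (nat_lit 0x30412) (nat_lit 0) (p (nat_lit 0x30212) (nat_lit 0) (p (nat_lit 0x20192) (nat_lit 0) (p (nat_lit 0x20092) (nat_lit 0) (p (nat_lit 0x10012) (nat_lit 0) pn))))))))))))))))))))))))))))))) :=
  Cl.node (nat_lit 0x89) (nat_lit 2) (by decide +kernel) (ClAll.succ (ClAll.succ ClAll.zero s89) s90)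

def n9 : Cl (O (nat_lit 5)) (R (nat_lit 102673))
    (p (nat_lit 0xb000c) (nat_lit 0) (p (nat_lit 0x111) (nat_lit 0) (p (nat_lit 0x200014) (nat_lit 0) (p (nat_lit 0x200004) (nat_lit 0) (p (nat_lit 0xc9) (nat_lit 1) (p (nat_lit 0x81) (nat_lit 0) (p (nat_lit 0x101) (nat_lit 1) (p (nat_lit 0x119) (nat_lit 0) (p (nat_lit 0xd1) (nat_lit 0) (p (nat_lit 0x89) (nat_lit 0) (p (nat_lit 0x41) (nat_lit 0) (p (nat_lit 0x1098a0b090a9a) (nat_lit 0) (p (nat_lit 0x9098a888a1a) (nat_lit 0) (p (nat_lit 0x108890a08079a) (nat_lit 0) (p (nat_lit 0x8088987871a) (nat_lit 0) (p (nat_lit 0x8000000000800078907088a) (nat_lit 0) (p (nat_lit 0x8000000000800070886860a) (nat_lit 0) (p (nat_lit 0x10708060782) (nat_lit 0) (p (nat_lit 0x687858702) (nat_lit 0) (p (nat_lit 0x10607050482) (nat_lit 0) (p (nat_lit 0x586848402) (nat_lit 0) (p (nat_lit 0x16000c) (nat_lit 0) (p (nat_lit 0x50612) (nat_lit 0) (p (nat_lit 0x40592)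 (nat_lit 0) (p (nat_lit 0x40492) (nat_lit 0) (p (nat_lit 0x30412) (nat_lit 0) (p (nat_lit 0x30212) (nat_lit 0) (p (nat_lit 0x20192) (nat_lit 0) (p (nat_lit 0x20092) (nat_lit 0) (p (nat_lit 0x10012) (nat_lit 0) pn)))))))))))))))))))))))))))))) :=
  Cl.node (nat_lit 0x109) (nat_lit 2) (by decide +kernel) (ClAll.succ (ClAll.succ ClAll.zero s7) s8)

def n10 : Cl (O (nat_lit 5)) (R (nat_lit 102673))
    (p (nat_lit 0xb000c) (nat_lit 0) (p (nat_lit 0x200014) (nat_lit 0) (p (nat_lit 0x200004) (nat_lit 0) (p (nat_lit 0xc9) (nat_lit 1) (p (nat_lit 0xc1) (nat_lit 0) (p (nat_lit 0x81) (nat_lit 1) (p (nat_lit 0x101) (nat_lit 1) (p (nat_lit 0x119) (nat_lit 0) (p (nat_lit 0xd1) (nat_lit 0) (p (nat_lit 0x89) (nat_lit 0) (p (nat_lit 0x41) (nat_lit 0) (p (nat_lit 0x1098a0b090a9a) (nat_lit 0) (p (nat_lit 0x9098a888a1a) (nat_lit 0) (p (nat_lit 0x108890a08079a) (nat_lit 0) (p (nat_lit 0x8088987871a) (nat_lit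 0) (p (nat_lit 0x8000000000800078907088a) (nat_lit 0) (p (nat_lit 0x8000000000800070886860a) (nat_lit 0) (p (nat_lit 0x10708060782) (nat_lit 0) (p (nat_lit 0x687858702) (nat_lit 0) (p (nat_lit 0x10607050482) (nat_lit 0) (p (nat_lit 0x586848402) (nat_lit 0) (p (nat_lit 0x16000c) (nat_lit 0) (p (nat_lit 0x50612) (nat_lit 0) (p (nat_lit 0x40592) (nat_lit 0) (p (nat_lit 0x40492) (nat_lit 0) (p (nat_lit 0x30412) (nat_lit 0) (p (nat_lit 0x30212) (nat_lit 0) (p (nat_lit 0x20192) (nat_lit 0) (p (nat_lit 0x20092) (nat_lit 0) (p (nat_lit 0x10012) (nat_lit 0) pn)))))))))))))))))))))))))))))) :=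
  Cl.node (nat_lit 0x109) (nat_lit 2) (by decide +kernel) (ClAll.succ (ClAll.succ ClAll.zero s14) s15)

def n11 : Cl (O (nat_lit 5)) (R (nat_lit 102673))
    (p (nat_lit 0xb000c) (nat_lit 0) (p (nat_lit 0x200014) (nat_lit 0) (p (nat_lit 0x200004) (nat_lit 0) (p (nat_lit 0x109) (nat_lit 1) (p (nat_lit 0x101) (nat_lit 0) (p (nat_lit 0x81) (nat_lit 1) (p (nat_lit 0xc1) (nat_lit 1) (p (nat_lit 0x119) (nat_lit 1) (p (nat_lit 0xd1) (nat_lit 0) (p (nat_lit 0x89) (nat_lit 0) (p (nat_lit 0x41) (nat_lit 0) (p (nat_lit 0x1098a0b090a9a) (nat_lit 0) (p (nat_lit 0x9098a888a1a) (nat_lit 0) (p (nat_lit 0x108890a08079a) (nat_lit 0) (p (nat_lit 0x8088987871a) (nat_lit 0) (p (nat_lit 0x8000000000800078907088a) (nat_lit 0) (p (nat_lit 0x8000000000800070886860a) (nat_lit 0) (p (nat_lit 0x10708060782) (nat_lit 0) (p (nat_lit 0x687858702) (nat_lit 0) (p (nat_lit 0x10607050482) (nat_lit 0) (p (nat_lit 0x586848402)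 (nat_lit 0) (p (nat_lit 0x16000c) (nat_lit 0) (p (nat_lit 0x50612) (nat_lit 0) (p (nat_lit 0x40592) (nat_lit 0) (p (nat_lit 0x40492) (nat_lit 0) (p (nat_lit 0x30412) (nat_lit 0) (p (nat_lit 0x30212) (nat_lit 0) (p (nat_lit 0x20192) (nat_lit 0) (p (nat_lit 0x20092) (nat_lit 0) (p (nat_lit 0x10012) (nat_lit 0) pn)))))))))))))))))))))))))))))) :=
  Cl.node (nat_lit 0xc9) (nat_lit 2) (by decide +kernel) (ClAll.succ (ClAll.succ ClAll.zero s29) s30)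

def n12 : Cl (O (nat_lit 5)) (R (nat_lit 102673))
    (p (nat_lit 0xb000c) (nat_lit 0) (p (nat_lit 0x119) (nat_lit 0) (p (nat_lit 0x200014) (nat_lit 0) (p (nat_lit 0x200004) (nat_lit 0) (p (nat_lit 0xc1) (nat_lit 0) (p (nat_lit 0x81) (nat_lit 1) (p (nat_lit 0x101) (nat_lit 1) (p (nat_lit 0x111) (nat_lit 0) (p (nat_lit 0xd1) (nat_lit 1) (p (nat_lit 0x89) (nat_lit 0) (p (nat_lit 0x41) (nat_lit 0) (p (nat_lit 0x1098a0b090a9a) (nat_lit 0) (p (nat_lit 0x9098a888a1a) (nat_lit 0) (p (nat_lit 0x108890a08079a) (nat_lit 0) (p (nat_lit 0x8088987871a) (nat_lit 0) (p (nat_lit 0x8000000000800078907088a) (nat_lit 0) (p (nat_lit 0x8000000000800070886860a) (nat_lit 0) (p (nat_lit 0x10708060782) (nat_lit 0) (p (nat_lit 0x687858702) (nat_lit 0) (p (nat_lit 0x10607050482) (nat_lit 0) (p (nat_lit 0x586848402) (nat_lit 0) (p (nat_lit 0x16000c) (nat_lit 0) (p (nat_lit 0x50612) (nat_lit 0) (p (nat_lit 0x40592)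 (nat_lit 0) (p (nat_lit 0x40492) (nat_lit 0) (p (nat_lit 0x30412) (nat_lit 0) (p (nat_lit 0x30212) (nat_lit 0) (p (nat_lit 0x20192) (nat_lit 0) (p (nat_lit 0x20092) (nat_lit 0) (p (nat_lit 0x10012) (nat_lit 0) pn)))))))))))))))))))))))))))))) :=
  Cl.node (nat_lit 0x109) (nat_lit 2) (by decide +kernel) (ClAll.succ (ClAll.succ ClAll.zero s45) s46)

def n13 : Cl (O (nat_lit 5)) (R (nat_lit 102673))
    (p (nat_lit 0xb000c) (nat_lit 0) (p (nat_lit 0x119) (nat_lit 1) (p (nat_lit 0x200014) (nat_lit 0) (p (nat_lit 0x200004) (nat_lit 0) (p (nat_lit 0xc1) (nat_lit 0) (p (nat_lit 0x81) (nat_lit 1) (p (nat_lit 0x101) (nat_lit 1) (p (nat_lit 0x111) (nat_lit 0) (p (nat_lit 0xd1) (nat_lit 1) (p (nat_lit 0x89) (nat_lit 0) (p (nat_lit 0x41) (nat_lit 0) (p (nat_lit 0x1098a0b090a9a) (nat_lit 0) (p (nat_lit 0x9098a888a1a) (nat_lit 0) (p (nat_lit 0x108890a08079a) (nat_lit 0) (p (nat_lit 0x8088987871a)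 (nat_lit 0) (p (nat_lit 0x8000000000800078907088a) (nat_lit 0) (p (nat_lit 0x8000000000800070886860a) (nat_lit 0) (p (nat_lit 0x10708060782) (nat_lit 0) (p (nat_lit 0x687858702) (nat_lit 0) (p (nat_lit 0x10607050482) (nat_lit 0) (p (nat_lit 0x586848402) (nat_lit 0) (p (nat_lit 0x16000c) (nat_lit 0) (p (nat_lit 0x50612) (nat_lit 0) (p (nat_lit 0x40592) (nat_lit 0) (p (nat_lit 0x40492) (nat_lit 0) (p (nat_lit 0x30412) (nat_lit 0) (p (nat_lit 0x30212) (nat_lit 0) (p (nat_lit 0x20192) (nat_lit 0) (p (nat_lit 0x20092) (nat_lit 0) (p (nat_lit 0x10012) (nat_lit 0) pn)))))))))))))))))))))))))))))) :=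
  Cl.node (nat_lit 0xc9) (nat_lit 2) (by decide +kernel) (ClAll.succ (ClAll.succ ClAll.zero s48) s49)

def n14 : Cl (O (nat_lit 5)) (R (nat_lit 102673))
    (p (nat_lit 0x41) (nat_lit 0) (p (nat_lit 0xb000c) (nat_lit 0) (p (nat_lit 0x200014) (nat_lit 0) (p (nat_lit 0x200004) (nat_lit 0) (p (nat_lit 0xd1) (nat_lit 1) (p (nat_lit 0x109) (nat_lit 1) (p (nat_lit 0x101) (nat_lit 0) (p (nat_lit 0x119) (nat_lit 0) (p (nat_lit 0xc9) (nat_lit 0) (p (nat_lit 0x89) (nat_lit 1) (p (nat_lit 0x41) (nat_lit 0) (p (nat_lit 0x1098a0b090a9a) (nat_lit 0) (p (nat_lit 0x9098a888a1a) (nat_lit 0) (p (nat_lit 0x108890a08079a) (nat_lit 0) (p (nat_lit 0x8088987871a) (nat_lit 0) (p (nat_lit 0x8000000000800078907088a) (nat_lit 0) (p (nat_lit 0x8000000000800070886860a) (nat_lit 0) (p (nat_lit 0x10708060782) (nat_lit 0) (p (nat_lit 0x687858702) (nat_lit 0) (p (nat_lit 0x10607050482) (nat_lit 0) (p (nat_lit 0x586848402)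 (nat_lit 0) (p (nat_lit 0x16000c) (nat_lit 0) (p (nat_lit 0x50612) (nat_lit 0) (p (nat_lit 0x40592) (nat_lit 0) (p (nat_lit 0x40492) (nat_lit 0) (p (nat_lit 0x30412) (nat_lit 0) (p (nat_lit 0x30212) (nat_lit 0) (p (nat_lit 0x20192) (nat_lit 0) (p (nat_lit 0x20092) (nat_lit 0) (p (nat_lit 0x10012) (nat_lit 0) pn)))))))))))))))))))))))))))))) :=
  Cl.node (nat_lit 0x111) (nat_lit 2) (by decide +kernel) (ClAll.succ (ClAll.succ ClAll.zero n6) n7)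

def n15 : Cl (O (nat_lit 5)) (R (nat_lit 102673))
    (p (nat_lit 0x109) (nat_lit 1) (p (nat_lit 0xb000c) (nat_lit 0) (p (nat_lit 0x200014) (nat_lit 0) (p (nat_lit 0x200004) (nat_lit 0) (p (nat_lit 0xd1) (nat_lit 1) (p (nat_lit 0xc1) (nat_lit 0) (p (nat_lit 0x101) (nat_lit 1) (p (nat_lit 0x119) (nat_lit 0) (p (nat_lit 0xc9) (nat_lit 0) (p (nat_lit 0x89) (nat_lit 1) (p (nat_lit 0x41) (nat_lit 0) (p (nat_lit 0x1098a0b090a9a) (nat_lit 0) (p (nat_lit 0x9098a888a1a) (nat_lit 0) (p (nat_lit 0x108890a08079a) (nat_lit 0) (p (nat_lit 0x8088987871a) (nat_lit 0) (p (nat_lit 0x8000000000800078907088a) (nat_lit 0) (p (nat_lit 0x8000000000800070886860a) (nat_lit 0) (p (nat_lit 0x10708060782) (nat_lit 0) (p (nat_lit 0x687858702) (nat_lit 0) (p (nat_lit 0x10607050482) (nat_lit 0) (p (nat_lit 0x586848402) (nat_lit 0) (p (nat_lit 0x16000c) (nat_lit 0) (p (nat_lit 0x50612) (nat_lit 0) (p (nat_lit 0x40592)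 (nat_lit 0) (p (nat_lit 0x40492) (nat_lit 0) (p (nat_lit 0x30412) (nat_lit 0) (p (nat_lit 0x30212) (nat_lit 0) (p (nat_lit 0x20192) (nat_lit 0) (p (nat_lit 0x20092) (nat_lit 0) (p (nat_lit 0x10012) (nat_lit 0) pn)))))))))))))))))))))))))))))) :=
  Cl.node (nat_lit 0x81) (nat_lit 2) (by decide +kernel) (ClAll.succ (ClAll.succ ClAll.zero n8) s91)

def n16 : Cl (O (nat_lit 5)) (R (nat_lit 102673))
    (p (nat_lit 0xd1) (nat_lit 1) (p (nat_lit 0xb000c) (nat_lit 0) (p (nat_lit 0x200014) (nat_lit 0) (p (nat_lit 0x200004) (nat_lit 0) (p (nat_lit 0x111) (nat_lit 1) (p (nat_lit 0x101) (nat_lit 0) (p (nat_lit 0xc1) (nat_lit 1) (p (nat_lit 0x119) (nat_lit 1) (p (nat_lit 0xc9) (nat_lit 0) (p (nat_lit 0x89) (nat_lit 1) (p (nat_lit 0x41) (nat_lit 0) (p (nat_lit 0x1098a0b090a9a) (nat_lit 0) (p (nat_lit 0x9098a888a1a) (nat_lit 0) (p (nat_lit 0x108890a08079a) (nat_lit 0) (p (nat_lit 0x8088987871a)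 (nat_lit 0) (p (nat_lit 0x8000000000800078907088a) (nat_lit 0) (p (nat_lit 0x8000000000800070886860a) (nat_lit 0) (p (nat_lit 0x10708060782) (nat_lit 0) (p (nat_lit 0x687858702) (nat_lit 0) (p (nat_lit 0x10607050482) (nat_lit 0) (p (nat_lit 0x586848402) (nat_lit 0) (p (nat_lit 0x16000c) (nat_lit 0) (p (nat_lit 0x50612) (nat_lit 0) (p (nat_lit 0x40592) (nat_lit 0) (p (nat_lit 0x40492) (nat_lit 0) (p (nat_lit 0x30412) (nat_lit 0) (p (nat_lit 0x30212) (nat_lit 0) (p (nat_lit 0x20192) (nat_lit 0) (p (nat_lit 0x20092) (nat_lit 0) (p (nat_lit 0x10012) (nat_lit 0) pn)))))))))))))))))))))))))))))) :=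
  Cl.node (nat_lit 0x81) (nat_lit 2) (by decide +kernel) (ClAll.succ (ClAll.succ ClAll.zero s108) s109)

def n17 : Cl (O (nat_lit 5)) (R (nat_lit 102673))
    (p (nat_lit 0x109) (nat_lit 0) (p (nat_lit 0xb000c) (nat_lit 0) (p (nat_lit 0x200014) (nat_lit 0) (p (nat_lit 0x200004) (nat_lit 0) (p (nat_lit 0x89) (nat_lit 1) (p (nat_lit 0xc1) (nat_lit 1) (p (nat_lit 0x101) (nat_lit 1) (p (nat_lit 0x119) (nat_lit 0) (p (nat_lit 0xd1) (nat_lit 0) (p (nat_lit 0x81) (nat_lit 0) (p (nat_lit 0x41) (nat_lit 1) (p (nat_lit 0x1098a0b090a9a) (nat_lit 0) (p (nat_lit 0x9098a888a1a) (nat_lit 0) (p (nat_lit 0x108890a08079a) (nat_lit 0) (p (nat_lit 0x8088987871a) (nat_lit 0) (p (nat_lit 0x8000000000800078907088a) (nat_lit 0) (p (nat_lit 0x8000000000800070886860a) (nat_lit 0) (p (nat_lit 0x10708060782) (nat_lit 0) (p (nat_lit 0x687858702) (nat_lit 0) (p (nat_lit 0x10607050482) (nat_lit 0) (p (nat_lit 0x586848402)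 (nat_lit 0) (p (nat_lit 0x16000c) (nat_lit 0) (p (nat_lit 0x50612) (nat_lit 0) (p (nat_lit 0x40592) (nat_lit 0) (p (nat_lit 0x40492) (nat_lit 0) (p (nat_lit 0x30412) (nat_lit 0) (p (nat_lit 0x30212) (nat_lit 0) (p (nat_lit 0x20192) (nat_lit 0) (p (nat_lit 0x20092) (nat_lit 0) (p (nat_lit 0x10012) (nat_lit 0) pn)))))))))))))))))))))))))))))) :=
  Cl.node (nat_lit 0x101) (nat_lit 2) (by decide +kernel) (ClAll.succ (ClAll.succ ClAll.zero s128) s129)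

def n18 : Cl (O (nat_lit 5)) (R (nat_lit 102673))
    (p (nat_lit 0x109) (nat_lit 1) (p (nat_lit 0xb000c) (nat_lit 0) (p (nat_lit 0x200014) (nat_lit 0) (p (nat_lit 0x200004) (nat_lit 0) (p (nat_lit 0x89) (nat_lit 1) (p (nat_lit 0xc1) (nat_lit 1) (p (nat_lit 0x101) (nat_lit 1) (p (nat_lit 0x119) (nat_lit 0) (p (nat_lit 0xd1) (nat_lit 0) (p (nat_lit 0x81) (nat_lit 0) (p (nat_lit 0x41) (nat_lit 1) (p (nat_lit 0x1098a0b090a9a) (nat_lit 0) (p (nat_lit 0x9098a888a1a) (nat_lit 0) (p (nat_lit 0x108890a08079a) (nat_lit 0) (p (nat_lit 0x8088987871a) (nat_lit 0) (p (nat_lit 0x8000000000800078907088a) (nat_lit 0) (p (nat_lit 0x8000000000800070886860a) (nat_lit 0) (p (nat_lit 0x10708060782) (nat_lit 0) (p (nat_lit 0x687858702) (nat_lit 0) (p (nat_lit 0x10607050482) (nat_lit 0) (p (nat_lit 0x586848402) (nat_lit 0) (p (nat_lit 0x16000c) (nat_lit 0) (p (nat_lit 0x50612) (nat_lit 0) (p (nat_lit 0x40592)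 (nat_lit 0) (p (nat_lit 0x40492) (nat_lit 0) (p (nat_lit 0x30412) (nat_lit 0) (p (nat_lit 0x30212) (nat_lit 0) (p (nat_lit 0x20192) (nat_lit 0) (p (nat_lit 0x20092) (nat_lit 0) (p (nat_lit 0x10012) (nat_lit 0) pn)))))))))))))))))))))))))))))) :=
  Cl.node (nat_lit 0x41) (nat_lit 2) (by decide +kernel) (ClAll.succ (ClAll.succ ClAll.zero s130) s131)

def n19 : Cl (O (nat_lit 5)) (R (nat_lit 102673))
    (p (nat_lit 0x119) (nat_lit 1) (p (nat_lit 0x200014) (nat_lit 0) (p (nat_lit 0x200004) (nat_lit 0) (p (nat_lit 0xc9) (nat_lit 0) (p (nat_lit 0x89) (nat_lit 1) (p (nat_lit 0x109) (nat_lit 1) (p (nat_lit 0x101) (nat_lit 0) (p (nat_lit 0x111) (nat_lit 0) (p (nat_lit 0xd1) (nat_lit 1) (p (nat_lit 0x81) (nat_lit 0) (p (nat_lit 0x41) (nat_lit 1) (p (nat_lit 0x1098a0b090a9a) (nat_lit 0) (p (nat_lit 0x9098a888a1a) (nat_lit 0) (p (nat_lit 0x108890a08079a) (nat_lit 0) (p (nat_lit 0x8088987871a)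 (nat_lit 0) (p (nat_lit 0x8000000000800078907088a) (nat_lit 0) (p (nat_lit 0x8000000000800070886860a) (nat_lit 0) (p (nat_lit 0x10708060782) (nat_lit 0) (p (nat_lit 0x687858702) (nat_lit 0) (p (nat_lit 0x10607050482) (nat_lit 0) (p (nat_lit 0x586848402) (nat_lit 0) (p (nat_lit 0x16000c) (nat_lit 0) (p (nat_lit 0x50612) (nat_lit 0) (p (nat_lit 0x40592) (nat_lit 0) (p (nat_lit 0x40492) (nat_lit 0) (p (nat_lit 0x30412) (nat_lit 0) (p (nat_lit 0x30212) (nat_lit 0) (p (nat_lit 0x20192) (nat_lit 0) (p (nat_lit 0x20092) (nat_lit 0) (p (nat_lit 0x10012) (nat_lit 0) pn)))))))))))))))))))))))))))))) :=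
  Cl.node (nat_lit 0xb000c) (nat_lit 2) (by decide +kernel) (ClAll.succ (ClAll.succ ClAll.zero s154) s155)

def n20 : Cl (O (nat_lit 5)) (R (nat_lit 102673))
    (p (nat_lit 0x119) (nat_lit 0) (p (nat_lit 0xb000c) (nat_lit 0) (p (nat_lit 0x200014) (nat_lit 0) (p (nat_lit 0x200004) (nat_lit 0) (p (nat_lit 0xc9) (nat_lit 0) (p (nat_lit 0x89) (nat_lit 1) (p (nat_lit 0x101) (nat_lit 1) (p (nat_lit 0x111) (nat_lit 0) (p (nat_lit 0xd1) (nat_lit 1) (p (nat_lit 0x81) (nat_lit 0) (p (nat_lit 0x41) (nat_lit 1) (p (nat_lit 0x1098a0b090a9a) (nat_lit 0) (p (nat_lit 0x9098a888a1a) (nat_lit 0) (p (nat_lit 0x108890a08079a) (nat_lit 0) (p (nat_lit 0x8088987871a) (nat_lit 0) (p (nat_lit 0x8000000000800078907088a) (nat_lit 0) (p (nat_lit 0x8000000000800070886860a) (nat_lit 0) (p (nat_lit 0x10708060782) (nat_lit 0) (p (nat_lit 0x687858702) (nat_lit 0) (p (nat_lit 0x10607050482) (nat_lit 0) (p (nat_lit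 0x586848402) (nat_lit 0) (p (nat_lit 0x16000c) (nat_lit 0) (p (nat_lit 0x50612) (nat_lit 0) (p (nat_lit 0x40592) (nat_lit 0) (p (nat_lit 0x40492) (nat_lit 0) (p (nat_lit 0x30412) (nat_lit 0) (p (nat_lit 0x30212) (nat_lit 0) (p (nat_lit 0x20192) (nat_lit 0) (p (nat_lit 0x20092) (nat_lit 0) (p (nat_lit 0x10012) (nat_lit 0) pn)))))))))))))))))))))))))))))) :=
  Cl.node (nat_lit 0x101) (nat_lit 2) (by decide +kernel) (ClAll.succ (ClAll.succ ClAll.zero s163) s164)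

def n21 : Cl (O (nat_lit 5)) (R (nat_lit 102673))
    (p (nat_lit 0x119) (nat_lit 1) (p (nat_lit 0xb000c) (nat_lit 0) (p (nat_lit 0x200014) (nat_lit 0) (p (nat_lit 0x200004) (nat_lit 0) (p (nat_lit 0xc9) (nat_lit 0) (p (nat_lit 0x89) (nat_lit 1) (p (nat_lit 0x101) (nat_lit 1) (p (nat_lit 0x111) (nat_lit 0) (p (nat_lit 0xd1) (nat_lit 1) (p (nat_lit 0x81) (nat_lit 0) (p (nat_lit 0x41) (nat_lit 1) (p (nat_lit 0x1098a0b090a9a) (nat_lit 0) (p (nat_lit 0x9098a888a1a) (nat_lit 0) (p (nat_lit 0x108890a08079a) (nat_lit 0) (p (nat_lit 0x8088987871a) (nat_lit 0) (p (nat_lit 0x8000000000800078907088a) (nat_lit 0) (p (nat_lit 0x8000000000800070886860a) (nat_lit 0) (p (nat_lit 0x10708060782) (nat_lit 0) (p (nat_lit 0x687858702) (nat_lit 0) (p (nat_lit 0x10607050482) (nat_lit 0) (p (nat_lit 0x586848402) (nat_lit 0) (p (nat_lit 0x16000c) (nat_lit 0) (p (nat_lit 0x50612) (nat_lit 0) (p (nat_lit 0x40592)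 (nat_lit 0) (p (nat_lit 0x40492) (nat_lit 0) (p (nat_lit 0x30412) (nat_lit 0) (p (nat_lit 0x30212) (nat_lit 0) (p (nat_lit 0x20192) (nat_lit 0) (p (nat_lit 0x20092) (nat_lit 0) (p (nat_lit 0x10012) (nat_lit 0) pn)))))))))))))))))))))))))))))) :=
  Cl.node (nat_lit 0xc1) (nat_lit 2) (by decide +kernel) (ClAll.succ (ClAll.succ ClAll.zero s165) s166)

def n22 : Cl (O (nat_lit 5)) (R (nat_lit 102673))
    (p (nat_lit 0x111) (nat_lit 0) (p (nat_lit 0x200014) (nat_lit 0) (p (nat_lit 0x200004) (nat_lit 0) (p (nat_lit 0xc9) (nat_lit 1) (p (nat_lit 0x81) (nat_lit 0) (p (nat_lit 0x101) (nat_lit 1) (p (nat_lit 0x119) (nat_lit 0) (p (nat_lit 0xd1) (nat_lit 0) (p (nat_lit 0x89) (nat_lit 0) (p (nat_lit 0x41) (nat_lit 0) (p (nat_lit 0x1098a0b090a9a) (nat_lit 0) (p (nat_lit 0x9098a888a1a) (nat_lit 0) (p (nat_lit 0x108890a08079a) (nat_lit 0) (p (nat_lit 0x8088987871a) (nat_lit 0) (p (nat_lit 0x8000000000800078907088a)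 (nat_lit 0) (p (nat_lit 0x8000000000800070886860a) (nat_lit 0) (p (nat_lit 0x10708060782) (nat_lit 0) (p (nat_lit 0x687858702) (nat_lit 0) (p (nat_lit 0x10607050482) (nat_lit 0) (p (nat_lit 0x586848402) (nat_lit 0) (p (nat_lit 0x16000c) (nat_lit 0) (p (nat_lit 0x50612) (nat_lit 0) (p (nat_lit 0x40592) (nat_lit 0) (p (nat_lit 0x40492) (nat_lit 0) (p (nat_lit 0x30412) (nat_lit 0) (p (nat_lit 0x30212) (nat_lit 0) (p (nat_lit 0x20192) (nat_lit 0) (p (nat_lit 0x20092) (nat_lit 0) (p (nat_lit 0x10012) (nat_lit 0) pn))))))))))))))))))))))))))))) :=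
  Cl.node (nat_lit 0xb000c) (nat_lit 2) (by decide +kernel) (ClAll.succ (ClAll.succ ClAll.zero n9) s9)

def n23 : Cl (O (nat_lit 5)) (R (nat_lit 102673))
    (p (nat_lit 0x200014) (nat_lit 0) (p (nat_lit 0x200004) (nat_lit 0) (p (nat_lit 0xc9) (nat_lit 1) (p (nat_lit 0xc1) (nat_lit 0) (p (nat_lit 0x81) (nat_lit 1) (p (nat_lit 0x101) (nat_lit 1) (p (nat_lit 0x119) (nat_lit 0) (p (nat_lit 0xd1) (nat_lit 0) (p (nat_lit 0x89) (nat_lit 0) (p (nat_lit 0x41) (nat_lit 0) (p (nat_lit 0x1098a0b090a9a) (nat_lit 0) (p (nat_lit 0x9098a888a1a) (nat_lit 0) (p (nat_lit 0x108890a08079a) (nat_lit 0) (p (nat_lit 0x8088987871a) (nat_lit 0) (p (nat_lit 0x8000000000800078907088a) (nat_lit 0) (p (nat_lit 0x8000000000800070886860a) (nat_lit 0) (p (nat_lit 0x10708060782) (nat_lit 0) (p (nat_lit 0x687858702) (nat_lit 0) (p (nat_lit 0x10607050482) (nat_lit 0) (p (nat_lit 0x586848402) (nat_lit 0) (p (nat_lit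 0x16000c) (nat_lit 0) (p (nat_lit 0x50612) (nat_lit 0) (p (nat_lit 0x40592) (nat_lit 0) (p (nat_lit 0x40492) (nat_lit 0) (p (nat_lit 0x30412) (nat_lit 0) (p (nat_lit 0x30212) (nat_lit 0) (p (nat_lit 0x20192) (nat_lit 0) (p (nat_lit 0x20092) (nat_lit 0) (p (nat_lit 0x10012) (nat_lit 0) pn))))))))))))))))))))))))))))) :=
  Cl.node (nat_lit 0xb000c) (nat_lit 2) (by decide +kernel) (ClAll.succ (ClAll.succ ClAll.zero n10) s16)

def n24 : Cl (O (nat_lit 5)) (R (nat_lit 102673))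
    (p (nat_lit 0x200014) (nat_lit 0) (p (nat_lit 0x200004) (nat_lit 0) (p (nat_lit 0x109) (nat_lit 1) (p (nat_lit 0x101) (nat_lit 0) (p (nat_lit 0x81) (nat_lit 1) (p (nat_lit 0xc1) (nat_lit 1) (p (nat_lit 0x119) (nat_lit 1) (p (nat_lit 0xd1) (nat_lit 0) (p (nat_lit 0x89) (nat_lit 0) (p (nat_lit 0x41) (nat_lit 0) (p (nat_lit 0x1098a0b090a9a) (nat_lit 0) (p (nat_lit 0x9098a888a1a) (nat_lit 0) (p (nat_lit 0x108890a08079a) (nat_lit 0) (p (nat_lit 0x8088987871a) (nat_lit 0) (p (nat_lit 0x8000000000800078907088a) (nat_lit 0) (p (nat_lit 0x8000000000800070886860a) (nat_lit 0) (p (nat_lit 0x10708060782) (nat_lit 0) (p (nat_lit 0x687858702) (nat_lit 0) (p (nat_lit 0x10607050482) (nat_lit 0) (p (nat_lit 0x586848402) (nat_lit 0) (p (nat_lit 0x16000c) (nat_lit 0) (p (nat_lit 0x50612) (nat_lit 0) (p (nat_lit 0x40592) (nat_lit 0) (p (nat_lit 0x40492) (nat_lit 0) (p (nat_lit 0x30412) (nat_lit 0)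 (p (nat_lit 0x30212) (nat_lit 0) (p (nat_lit 0x20192) (nat_lit 0) (p (nat_lit 0x20092) (nat_lit 0) (p (nat_lit 0x10012) (nat_lit 0) pn))))))))))))))))))))))))))))) :=
  Cl.node (nat_lit 0xb000c) (nat_lit 2) (by decide +kernel) (ClAll.succ (ClAll.succ ClAll.zero n11) s31)

def n25 : Cl (O (nat_lit 5)) (R (nat_lit 102673))
    (p (nat_lit 0x119) (nat_lit 0) (p (nat_lit 0x200014) (nat_lit 0) (p (nat_lit 0x200004) (nat_lit 0) (p (nat_lit 0xc1) (nat_lit 0) (p (nat_lit 0x81) (nat_lit 1) (p (nat_lit 0x101) (nat_lit 1) (p (nat_lit 0x111) (nat_lit 0) (p (nat_lit 0xd1) (nat_lit 1) (p (nat_lit 0x89) (nat_lit 0) (p (nat_lit 0x41) (nat_lit 0) (p (nat_lit 0x1098a0b090a9a) (nat_lit 0) (p (nat_lit 0x9098a888a1a) (nat_lit 0) (p (nat_lit 0x108890a08079a) (nat_lit 0) (p (nat_lit 0x8088987871a) (nat_lit 0) (p (nat_lit 0x8000000000800078907088a) (nat_lit 0) (p (nat_lit 0x8000000000800070886860a) (nat_lit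 0) (p (nat_lit 0x10708060782) (nat_lit 0) (p (nat_lit 0x687858702) (nat_lit 0) (p (nat_lit 0x10607050482) (nat_lit 0) (p (nat_lit 0x586848402) (nat_lit 0) (p (nat_lit 0x16000c) (nat_lit 0) (p (nat_lit 0x50612) (nat_lit 0) (p (nat_lit 0x40592) (nat_lit 0) (p (nat_lit 0x40492) (nat_lit 0) (p (nat_lit 0x30412) (nat_lit 0) (p (nat_lit 0x30212) (nat_lit 0) (p (nat_lit 0x20192) (nat_lit 0) (p (nat_lit 0x20092) (nat_lit 0) (p (nat_lit 0x10012) (nat_lit 0) pn))))))))))))))))))))))))))))) :=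
  Cl.node (nat_lit 0xb000c) (nat_lit 2) (by decide +kernel) (ClAll.succ (ClAll.succ ClAll.zero n12) s47)

def n26 : Cl (O (nat_lit 5)) (R (nat_lit 102673))
    (p (nat_lit 0x119) (nat_lit 1) (p (nat_lit 0x200014) (nat_lit 0) (p (nat_lit 0x200004) (nat_lit 0) (p (nat_lit 0xc1) (nat_lit 0) (p (nat_lit 0x81) (nat_lit 1) (p (nat_lit 0x101) (nat_lit 1) (p (nat_lit 0x111) (nat_lit 0) (p (nat_lit 0xd1) (nat_lit 1) (p (nat_lit 0x89) (nat_lit 0) (p (nat_lit 0x41) (nat_lit 0) (p (nat_lit 0x1098a0b090a9a) (nat_lit 0) (p (nat_lit 0x9098a888a1a) (nat_lit 0) (p (nat_lit 0x108890a08079a) (nat_lit 0) (p (nat_lit 0x8088987871a) (nat_lit 0) (p (nat_lit 0x8000000000800078907088a) (nat_lit 0) (p (nat_lit 0x8000000000800070886860a) (nat_lit 0) (p (nat_lit 0x10708060782) (nat_lit 0) (p (nat_lit 0x687858702) (nat_lit 0) (p (nat_lit 0x10607050482) (nat_lit 0) (p (nat_lit 0x586848402) (nat_lit 0) (p (nat_lit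 0x16000c) (nat_lit 0) (p (nat_lit 0x50612) (nat_lit 0) (p (nat_lit 0x40592) (nat_lit 0) (p (nat_lit 0x40492) (nat_lit 0) (p (nat_lit 0x30412) (nat_lit 0) (p (nat_lit 0x30212) (nat_lit 0) (p (nat_lit 0x20192) (nat_lit 0) (p (nat_lit 0x20092) (nat_lit 0) (p (nat_lit 0x10012) (nat_lit 0) pn))))))))))))))))))))))))))))) :=
  Cl.node (nat_lit 0xb000c) (nat_lit 2) (by decide +kernel) (ClAll.succ (ClAll.succ ClAll.zero n13) s50)

def n27 : Cl (O (nat_lit 5)) (R (nat_lit 102673))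
    (p (nat_lit 0xb000c) (nat_lit 0) (p (nat_lit 0x200014) (nat_lit 0) (p (nat_lit 0x200004) (nat_lit 0) (p (nat_lit 0xd1) (nat_lit 1) (p (nat_lit 0x109) (nat_lit 1) (p (nat_lit 0x101) (nat_lit 0) (p (nat_lit 0x119) (nat_lit 0) (p (nat_lit 0xc9) (nat_lit 0) (p (nat_lit 0x89) (nat_lit 1) (p (nat_lit 0x41) (nat_lit 0) (p (nat_lit 0x1098a0b090a9a) (nat_lit 0) (p (nat_lit 0x9098a888a1a) (nat_lit 0) (p (nat_lit 0x108890a08079a) (nat_lit 0) (p (nat_lit 0x8088987871a) (nat_lit 0) (p (nat_lit 0x8000000000800078907088a) (nat_lit 0) (p (nat_lit 0x8000000000800070886860a) (nat_lit 0) (p (nat_lit 0x10708060782) (nat_lit 0) (p (nat_lit 0x687858702) (nat_lit 0) (p (nat_lit 0x10607050482) (nat_lit 0) (p (nat_lit 0x586848402) (nat_lit 0) (p (nat_lit 0x16000c) (nat_lit 0) (p (nat_lit 0x50612) (nat_lit 0) (p (nat_lit 0x40592) (nat_lit 0) (p (nat_lit 0x40492) (nat_lit 0) (p (nat_lit 0x30412) (nat_lit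 0) (p (nat_lit 0x30212) (nat_lit 0) (p (nat_lit 0x20192) (nat_lit 0) (p (nat_lit 0x20092) (nat_lit 0) (p (nat_lit 0x10012) (nat_lit 0) pn))))))))))))))))))))))))))))) :=
  Cl.node (nat_lit 0x41) (nat_lit 2) (by decide +kernel) (ClAll.succ (ClAll.succ ClAll.zero n14) s80)

def n28 : Cl (O (nat_lit 5)) (R (nat_lit 102673))
    (p (nat_lit 0xb000c) (nat_lit 0) (p (nat_lit 0x200014) (nat_lit 0) (p (nat_lit 0x200004) (nat_lit 0) (p (nat_lit 0xd1) (nat_lit 1) (p (nat_lit 0xc1) (nat_lit 0) (p (nat_lit 0x101) (nat_lit 1) (p (nat_lit 0x119) (nat_lit 0) (p (nat_lit 0xc9) (nat_lit 0) (p (nat_lit 0x89) (nat_lit 1) (p (nat_lit 0x41) (nat_lit 0) (p (nat_lit 0x1098a0b090a9a) (nat_lit 0) (p (nat_lit 0x9098a888a1a) (nat_lit 0) (p (nat_lit 0x108890a08079a) (nat_lit 0) (p (nat_lit 0x8088987871a) (nat_lit 0) (p (nat_lit 0x8000000000800078907088a) (nat_lit 0) (p (nat_lit 0x8000000000800070886860a) (nat_lit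 0) (p (nat_lit 0x10708060782) (nat_lit 0) (p (nat_lit 0x687858702) (nat_lit 0) (p (nat_lit 0x10607050482) (nat_lit 0) (p (nat_lit 0x586848402) (nat_lit 0) (p (nat_lit 0x16000c) (nat_lit 0) (p (nat_lit 0x50612) (nat_lit 0) (p (nat_lit 0x40592) (nat_lit 0) (p (nat_lit 0x40492) (nat_lit 0) (p (nat_lit 0x30412) (nat_lit 0) (p (nat_lit 0x30212) (nat_lit 0) (p (nat_lit 0x20192) (nat_lit 0) (p (nat_lit 0x20092) (nat_lit 0) (p (nat_lit 0x10012) (nat_lit 0) pn))))))))))))))))))))))))))))) :=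
  Cl.node (nat_lit 0x109) (nat_lit 2) (by decide +kernel) (ClAll.succ (ClAll.succ ClAll.zero s88) n15)

def n29 : Cl (O (nat_lit 5)) (R (nat_lit 102673))
    (p (nat_lit 0xb000c) (nat_lit 0) (p (nat_lit 0x200014) (nat_lit 0) (p (nat_lit 0x200004) (nat_lit 0) (p (nat_lit 0x111) (nat_lit 0) (p (nat_lit 0x101) (nat_lit 0) (p (nat_lit 0xc1) (nat_lit 1) (p (nat_lit 0x119) (nat_lit 1) (p (nat_lit 0xc9) (nat_lit 0) (p (nat_lit 0x89) (nat_lit 1) (p (nat_lit 0x41) (nat_lit 0) (p (nat_lit 0x1098a0b090a9a) (nat_lit 0) (p (nat_lit 0x9098a888a1a) (nat_lit 0) (p (nat_lit 0x108890a08079a) (nat_lit 0) (p (nat_lit 0x8088987871a) (nat_lit 0) (p (nat_lit 0x8000000000800078907088a) (nat_lit 0) (p (nat_lit 0x8000000000800070886860a) (nat_lit 0) (p (nat_lit 0x10708060782) (nat_lit 0) (p (nat_lit 0x687858702) (nat_lit 0) (p (nat_lit 0x10607050482) (nat_lit 0) (p (nat_lit 0x586848402) (nat_lit 0) (p (nat_lit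 0x16000c) (nat_lit 0) (p (nat_lit 0x50612) (nat_lit 0) (p (nat_lit 0x40592) (nat_lit 0) (p (nat_lit 0x40492) (nat_lit 0) (p (nat_lit 0x30412) (nat_lit 0) (p (nat_lit 0x30212) (nat_lit 0) (p (nat_lit 0x20192) (nat_lit 0) (p (nat_lit 0x20092) (nat_lit 0) (p (nat_lit 0x10012) (nat_lit 0) pn))))))))))))))))))))))))))))) :=
  Cl.node (nat_lit 0x109) (nat_lit 2) (by decide +kernel) (ClAll.succ (ClAll.succ ClAll.zero s102) s103)

def n30 : Cl (O (nat_lit 5)) (R (nat_lit 102673))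
    (p (nat_lit 0xb000c) (nat_lit 0) (p (nat_lit 0x200014) (nat_lit 0) (p (nat_lit 0x200004) (nat_lit 0) (p (nat_lit 0x111) (nat_lit 1) (p (nat_lit 0x101) (nat_lit 0) (p (nat_lit 0xc1) (nat_lit 1) (p (nat_lit 0x119) (nat_lit 1) (p (nat_lit 0xc9) (nat_lit 0) (p (nat_lit 0x89) (nat_lit 1) (p (nat_lit 0x41) (nat_lit 0) (p (nat_lit 0x1098a0b090a9a) (nat_lit 0) (p (nat_lit 0x9098a888a1a) (nat_lit 0) (p (nat_lit 0x108890a08079a) (nat_lit 0) (p (nat_lit 0x8088987871a) (nat_lit 0) (p (nat_lit 0x8000000000800078907088a) (nat_lit 0) (p (nat_lit 0x8000000000800070886860a) (nat_lit 0) (p (nat_lit 0x10708060782) (nat_lit 0) (p (nat_lit 0x687858702) (nat_lit 0) (p (nat_lit 0x10607050482) (nat_lit 0) (p (nat_lit 0x586848402) (nat_lit 0) (p (nat_lit 0x16000c) (nat_lit 0) (p (nat_lit 0x50612) (nat_lit 0) (p (nat_lit 0x40592) (nat_lit 0) (p (nat_lit 0x40492) (nat_lit 0) (p (nat_lit 0x30412) (nat_lit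 0) (p (nat_lit 0x30212) (nat_lit 0) (p (nat_lit 0x20192) (nat_lit 0) (p (nat_lit 0x20092) (nat_lit 0) (p (nat_lit 0x10012) (nat_lit 0) pn))))))))))))))))))))))))))))) :=
  Cl.node (nat_lit 0xd1) (nat_lit 2) (by decide +kernel) (ClAll.succ (ClAll.succ ClAll.zero s107) n16)

def n31 : Cl (O (nat_lit 5)) (R (nat_lit 102673))
    (p (nat_lit 0xb000c) (nat_lit 0) (p (nat_lit 0x200014) (nat_lit 0) (p (nat_lit 0x200004) (nat_lit 0) (p (nat_lit 0x89) (nat_lit 1) (p (nat_lit 0xc1) (nat_lit 1) (p (nat_lit 0x101) (nat_lit 1) (p (nat_lit 0x119) (nat_lit 0) (p (nat_lit 0xd1) (nat_lit 0) (p (nat_lit 0x81) (nat_lit 0) (p (nat_lit 0x41) (nat_lit 1) (p (nat_lit 0x1098a0b090a9a) (nat_lit 0) (p (nat_lit 0x9098a888a1a) (nat_lit 0) (p (nat_lit 0x108890a08079a) (nat_lit 0) (p (nat_lit 0x8088987871a) (nat_lit 0) (p (nat_lit 0x8000000000800078907088a) (nat_lit 0) (p (nat_lit 0x8000000000800070886860a) (nat_lit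 0) (p (nat_lit 0x10708060782) (nat_lit 0) (p (nat_lit 0x687858702) (nat_lit 0) (p (nat_lit 0x10607050482) (nat_lit 0) (p (nat_lit 0x586848402) (nat_lit 0) (p (nat_lit 0x16000c) (nat_lit 0) (p (nat_lit 0x50612) (nat_lit 0) (p (nat_lit 0x40592) (nat_lit 0) (p (nat_lit 0x40492) (nat_lit 0) (p (nat_lit 0x30412) (nat_lit 0) (p (nat_lit 0x30212) (nat_lit 0) (p (nat_lit 0x20192) (nat_lit 0) (p (nat_lit 0x20092) (nat_lit 0) (p (nat_lit 0x10012) (nat_lit 0) pn))))))))))))))))))))))))))))) :=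
  Cl.node (nat_lit 0x109) (nat_lit 2) (by decide +kernel) (ClAll.succ (ClAll.succ ClAll.zero n17) n18)

def n32 : Cl (O (nat_lit 5)) (R (nat_lit 102673))
    (p (nat_lit 0x200014) (nat_lit 0) (p (nat_lit 0x200004) (nat_lit 0) (p (nat_lit 0x109) (nat_lit 0) (p (nat_lit 0x89) (nat_lit 1) (p (nat_lit 0xc9) (nat_lit 1) (p (nat_lit 0xc1) (nat_lit 0) (p (nat_lit 0x119) (nat_lit 1) (p (nat_lit 0xd1) (nat_lit 0) (p (nat_lit 0x81) (nat_lit 0) (p (nat_lit 0x41) (nat_lit 1) (p (nat_lit 0x1098a0b090a9a) (nat_lit 0) (p (nat_lit 0x9098a888a1a) (nat_lit 0) (p (nat_lit 0x108890a08079a) (nat_lit 0) (p (nat_lit 0x8088987871a) (nat_lit 0) (p (nat_lit 0x8000000000800078907088a) (nat_lit 0) (p (nat_lit 0x8000000000800070886860a) (nat_lit 0) (p (nat_lit 0x10708060782) (nat_lit 0) (p (nat_lit 0x687858702) (nat_lit 0) (p (nat_lit 0x10607050482) (nat_lit 0) (p (nat_lit 0x586848402) (nat_lit 0) (p (nat_lit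 0x16000c) (nat_lit 0) (p (nat_lit 0x50612) (nat_lit 0) (p (nat_lit 0x40592) (nat_lit 0) (p (nat_lit 0x40492) (nat_lit 0) (p (nat_lit 0x30412) (nat_lit 0) (p (nat_lit 0x30212) (nat_lit 0) (p (nat_lit 0x20192) (nat_lit 0) (p (nat_lit 0x20092) (nat_lit 0) (p (nat_lit 0x10012) (nat_lit 0) pn))))))))))))))))))))))))))))) :=
  Cl.node (nat_lit 0xb000c) (nat_lit 2) (by decide +kernel) (ClAll.succ (ClAll.succ ClAll.zero s137) s138)

def n33 : Cl (O (nat_lit 5)) (R (nat_lit 102673))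
    (p (nat_lit 0xb000c) (nat_lit 0) (p (nat_lit 0x200014) (nat_lit 0) (p (nat_lit 0x200004) (nat_lit 0) (p (nat_lit 0x89) (nat_lit 1) (p (nat_lit 0x101) (nat_lit 1) (p (nat_lit 0xc1) (nat_lit 1) (p (nat_lit 0x119) (nat_lit 1) (p (nat_lit 0xd1) (nat_lit 0) (p (nat_lit 0x81) (nat_lit 0) (p (nat_lit 0x41) (nat_lit 1) (p (nat_lit 0x1098a0b090a9a) (nat_lit 0) (p (nat_lit 0x9098a888a1a) (nat_lit 0) (p (nat_lit 0x108890a08079a) (nat_lit 0) (p (nat_lit 0x8088987871a) (nat_lit 0) (p (nat_lit 0x8000000000800078907088a) (nat_lit 0) (p (nat_lit 0x8000000000800070886860a) (nat_lit 0) (p (nat_lit 0x10708060782) (nat_lit 0) (p (nat_lit 0x687858702) (nat_lit 0) (p (nat_lit 0x10607050482) (nat_lit 0) (p (nat_lit 0x586848402) (nat_lit 0) (p (nat_lit 0x16000c) (nat_lit 0) (p (nat_lit 0x50612) (nat_lit 0) (p (nat_lit 0x40592) (nat_lit 0) (p (nat_lit 0x40492) (nat_lit 0) (p (nat_lit 0x30412) (nat_lit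 0) (p (nat_lit 0x30212) (nat_lit 0) (p (nat_lit 0x20192) (nat_lit 0) (p (nat_lit 0x20092) (nat_lit 0) (p (nat_lit 0x10012) (nat_lit 0) pn))))))))))))))))))))))))))))) :=
  Cl.node (nat_lit 0xc9) (nat_lit 2) (by decide +kernel) (ClAll.succ (ClAll.succ ClAll.zero s146) s147)

def n34 : Cl (O (nat_lit 5)) (R (nat_lit 102673))
    (p (nat_lit 0x200014) (nat_lit 0) (p (nat_lit 0x200004) (nat_lit 0) (p (nat_lit 0xc9) (nat_lit 0) (p (nat_lit 0x89) (nat_lit 1) (p (nat_lit 0x109) (nat_lit 1) (p (nat_lit 0x101) (nat_lit 0) (p (nat_lit 0x111) (nat_lit 0) (p (nat_lit 0xd1) (nat_lit 1) (p (nat_lit 0x81) (nat_lit 0) (p (nat_lit 0x41) (nat_lit 1) (p (nat_lit 0x1098a0b090a9a) (nat_lit 0) (p (nat_lit 0x9098a888a1a) (nat_lit 0) (p (nat_lit 0x108890a08079a) (nat_lit 0) (p (nat_lit 0x8088987871a) (nat_lit 0) (p (nat_lit 0x8000000000800078907088a) (nat_lit 0) (p (nat_lit 0x8000000000800070886860a) (nat_lit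 0) (p (nat_lit 0x10708060782) (nat_lit 0) (p (nat_lit 0x687858702) (nat_lit 0) (p (nat_lit 0x10607050482) (nat_lit 0) (p (nat_lit 0x586848402) (nat_lit 0) (p (nat_lit 0x16000c) (nat_lit 0) (p (nat_lit 0x50612) (nat_lit 0) (p (nat_lit 0x40592) (nat_lit 0) (p (nat_lit 0x40492) (nat_lit 0) (p (nat_lit 0x30412) (nat_lit 0) (p (nat_lit 0x30212) (nat_lit 0) (p (nat_lit 0x20192) (nat_lit 0) (p (nat_lit 0x20092) (nat_lit 0) (p (nat_lit 0x10012) (nat_lit 0) pn))))))))))))))))))))))))))))) :=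
  Cl.node (nat_lit 0x119) (nat_lit 2) (by decide +kernel) (ClAll.succ (ClAll.succ ClAll.zero s153) n19)

def n35 : Cl (O (nat_lit 5)) (R (nat_lit 102673))
    (p (nat_lit 0xb000c) (nat_lit 0) (p (nat_lit 0x200014) (nat_lit 0) (p (nat_lit 0x200004) (nat_lit 0) (p (nat_lit 0xc9) (nat_lit 0) (p (nat_lit 0x89) (nat_lit 1) (p (nat_lit 0x101) (nat_lit 1) (p (nat_lit 0x111) (nat_lit 0) (p (nat_lit 0xd1) (nat_lit 1) (p (nat_lit 0x81) (nat_lit 0) (p (nat_lit 0x41) (nat_lit 1) (p (nat_lit 0x1098a0b090a9a) (nat_lit 0) (p (nat_lit 0x9098a888a1a) (nat_lit 0) (p (nat_lit 0x108890a08079a) (nat_lit 0) (p (nat_lit 0x8088987871a) (nat_lit 0) (p (nat_lit 0x8000000000800078907088a) (nat_lit 0) (p (nat_lit 0x8000000000800070886860a) (nat_lit 0) (p (nat_lit 0x10708060782) (nat_lit 0) (p (nat_lit 0x687858702) (nat_lit 0) (p (nat_lit 0x10607050482) (nat_lit 0) (p (nat_lit 0x586848402) (nat_lit 0) (p (nat_lit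 0x16000c) (nat_lit 0) (p (nat_lit 0x50612) (nat_lit 0) (p (nat_lit 0x40592) (nat_lit 0) (p (nat_lit 0x40492) (nat_lit 0) (p (nat_lit 0x30412) (nat_lit 0) (p (nat_lit 0x30212) (nat_lit 0) (p (nat_lit 0x20192) (nat_lit 0) (p (nat_lit 0x20092) (nat_lit 0) (p (nat_lit 0x10012) (nat_lit 0) pn))))))))))))))))))))))))))))) :=
  Cl.node (nat_lit 0x119) (nat_lit 2) (by decide +kernel) (ClAll.succ (ClAll.succ ClAll.zero n20) n21)

def n36 : Cl (O (nat_lit 5)) (R (nat_lit 102673))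
    (p (nat_lit 0x200014) (nat_lit 0) (p (nat_lit 0x200004) (nat_lit 0) (p (nat_lit 0xc9) (nat_lit 1) (p (nat_lit 0x109) (nat_lit 1) (p (nat_lit 0x101) (nat_lit 0) (p (nat_lit 0x119) (nat_lit 0) (p (nat_lit 0xd1) (nat_lit 0) (p (nat_lit 0x89) (nat_lit 0) (p (nat_lit 0x41) (nat_lit 0) (p (nat_lit 0x1098a0b090a9a) (nat_lit 0) (p (nat_lit 0x9098a888a1a) (nat_lit 0) (p (nat_lit 0x108890a08079a) (nat_lit 0) (p (nat_lit 0x8088987871a) (nat_lit 0) (p (nat_lit 0x8000000000800078907088a) (nat_lit 0) (p (nat_lit 0x8000000000800070886860a) (nat_lit 0) (p (nat_lit 0x10708060782) (nat_lit 0) (p (nat_lit 0x687858702) (nat_lit 0) (p (nat_lit 0x10607050482) (nat_lit 0) (p (nat_lit 0x586848402) (nat_lit 0) (p (nat_lit 0x16000c) (nat_lit 0) (p (nat_lit 0x50612) (nat_lit 0) (p (nat_lit 0x40592) (nat_lit 0) (p (nat_lit 0x40492) (nat_lit 0) (p (nat_lit 0x30412) (nat_lit 0) (p (nat_lit 0x30212) (nat_lit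 0) (p (nat_lit 0x20192) (nat_lit 0) (p (nat_lit 0x20092) (nat_lit 0) (p (nat_lit 0x10012) (nat_lit 0) pn)))))))))))))))))))))))))))) :=
  Cl.node (nat_lit 0x81) (nat_lit 2) (by decide +kernel) (ClAll.succ (ClAll.succ ClAll.zero s2) s3)

def n37 : Cl (O (nat_lit 5)) (R (nat_lit 102673))
    (p (nat_lit 0x200014) (nat_lit 0) (p (nat_lit 0x200004) (nat_lit 0) (p (nat_lit 0xc9) (nat_lit 1) (p (nat_lit 0x81) (nat_lit 0) (p (nat_lit 0x101) (nat_lit 1) (p (nat_lit 0x119) (nat_lit 0) (p (nat_lit 0xd1) (nat_lit 0) (p (nat_lit 0x89) (nat_lit 0) (p (nat_lit 0x41) (nat_lit 0) (p (nat_lit 0x1098a0b090a9a) (nat_lit 0) (p (nat_lit 0x9098a888a1a) (nat_lit 0) (p (nat_lit 0x108890a08079a) (nat_lit 0) (p (nat_lit 0x8088987871a) (nat_lit 0) (p (nat_lit 0x8000000000800078907088a) (nat_lit 0) (p (nat_lit 0x8000000000800070886860a) (nat_lit 0) (p (nat_lit 0x10708060782) (nat_lit 0) (p (nat_lit 0x687858702)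 (nat_lit 0) (p (nat_lit 0x10607050482) (nat_lit 0) (p (nat_lit 0x586848402) (nat_lit 0) (p (nat_lit 0x16000c) (nat_lit 0) (p (nat_lit 0x50612) (nat_lit 0) (p (nat_lit 0x40592) (nat_lit 0) (p (nat_lit 0x40492) (nat_lit 0) (p (nat_lit 0x30412) (nat_lit 0) (p (nat_lit 0x30212) (nat_lit 0) (p (nat_lit 0x20192) (nat_lit 0) (p (nat_lit 0x20092) (nat_lit 0) (p (nat_lit 0x10012) (nat_lit 0) pn)))))))))))))))))))))))))))) :=
  Cl.node (nat_lit 0x111) (nat_lit 2) (by decide +kernel) (ClAll.succ (ClAll.succ ClAll.zero n22) s10)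

def n38 : Cl (O (nat_lit 5)) (R (nat_lit 102673))
    (p (nat_lit 0x200004) (nat_lit 0) (p (nat_lit 0xc9) (nat_lit 1) (p (nat_lit 0xc1) (nat_lit 0) (p (nat_lit 0x81) (nat_lit 1) (p (nat_lit 0x101) (nat_lit 1) (p (nat_lit 0x119) (nat_lit 0) (p (nat_lit 0xd1) (nat_lit 0) (p (nat_lit 0x89) (nat_lit 0) (p (nat_lit 0x41) (nat_lit 0) (p (nat_lit 0x1098a0b090a9a) (nat_lit 0) (p (nat_lit 0x9098a888a1a) (nat_lit 0) (p (nat_lit 0x108890a08079a) (nat_lit 0) (p (nat_lit 0x8088987871a) (nat_lit 0) (p (nat_lit 0x8000000000800078907088a) (nat_lit 0) (p (nat_lit 0x8000000000800070886860a) (nat_lit 0) (p (nat_lit 0x10708060782) (nat_lit 0) (p (nat_lit 0x687858702) (nat_lit 0) (p (nat_lit 0x10607050482) (nat_lit 0) (p (nat_lit 0x586848402) (nat_lit 0) (p (nat_lit 0x16000c) (nat_lit 0) (p (nat_lit 0x50612) (nat_lit 0) (p (nat_lit 0x40592) (nat_lit 0) (p (nat_lit 0x40492) (nat_lit 0) (p (nat_lit 0x30412)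 (nat_lit 0) (p (nat_lit 0x30212) (nat_lit 0) (p (nat_lit 0x20192) (nat_lit 0) (p (nat_lit 0x20092) (nat_lit 0) (p (nat_lit 0x10012) (nat_lit 0) pn)))))))))))))))))))))))))))) :=
  Cl.node (nat_lit 0x200014) (nat_lit 2) (by decide +kernel) (ClAll.succ (ClAll.succ ClAll.zero n23) s17)

def n39 : Cl (O (nat_lit 5)) (R (nat_lit 102673))
    (p (nat_lit 0x200004) (nat_lit 0) (p (nat_lit 0x109) (nat_lit 1) (p (nat_lit 0x101) (nat_lit 0) (p (nat_lit 0x81) (nat_lit 1) (p (nat_lit 0xc1) (nat_lit 1) (p (nat_lit 0x119) (nat_lit 1) (p (nat_lit 0xd1) (nat_lit 0) (p (nat_lit 0x89) (nat_lit 0) (p (nat_lit 0x41) (nat_lit 0) (p (nat_lit 0x1098a0b090a9a) (nat_lit 0) (p (nat_lit 0x9098a888a1a) (nat_lit 0) (p (nat_lit 0x108890a08079a) (nat_lit 0) (p (nat_lit 0x8088987871a) (nat_lit 0) (p (nat_lit 0x8000000000800078907088a) (nat_lit 0) (p (nat_lit 0x8000000000800070886860a) (nat_lit 0) (p (nat_lit 0x10708060782)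 (nat_lit 0) (p (nat_lit 0x687858702) (nat_lit 0) (p (nat_lit 0x10607050482) (nat_lit 0) (p (nat_lit 0x586848402) (nat_lit 0) (p (nat_lit 0x16000c) (nat_lit 0) (p (nat_lit 0x50612) (nat_lit 0) (p (nat_lit 0x40592) (nat_lit 0) (p (nat_lit 0x40492) (nat_lit 0) (p (nat_lit 0x30412) (nat_lit 0) (p (nat_lit 0x30212) (nat_lit 0) (p (nat_lit 0x20192) (nat_lit 0) (p (nat_lit 0x20092) (nat_lit 0) (p (nat_lit 0x10012) (nat_lit 0) pn)))))))))))))))))))))))))))) :=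
  Cl.node (nat_lit 0x200014) (nat_lit 2) (by decide +kernel) (ClAll.succ (ClAll.succ ClAll.zero n24) s32)

def n40 : Cl (O (nat_lit 5)) (R (nat_lit 102673))
    (p (nat_lit 0xc1) (nat_lit 1) (p (nat_lit 0x200014) (nat_lit 0) (p (nat_lit 0x200004) (nat_lit 0) (p (nat_lit 0x109) (nat_lit 1) (p (nat_lit 0x101) (nat_lit 0) (p (nat_lit 0x111) (nat_lit 0) (p (nat_lit 0xd1) (nat_lit 1) (p (nat_lit 0x89) (nat_lit 0) (p (nat_lit 0x41) (nat_lit 0) (p (nat_lit 0x1098a0b090a9a) (nat_lit 0) (p (nat_lit 0x9098a888a1a) (nat_lit 0) (p (nat_lit 0x108890a08079a) (nat_lit 0) (p (nat_lit 0x8088987871a) (nat_lit 0) (p (nat_lit 0x8000000000800078907088a) (nat_lit 0) (p (nat_lit 0x8000000000800070886860a) (nat_lit 0) (p (nat_lit 0x10708060782) (nat_lit 0) (p (nat_lit 0x687858702) (nat_lit 0) (p (nat_lit 0x10607050482) (nat_lit 0) (p (nat_lit 0x586848402) (nat_lit 0) (p (nat_lit 0x16000c) (nat_lit 0) (p (nat_lit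 0x50612) (nat_lit 0) (p (nat_lit 0x40592) (nat_lit 0) (p (nat_lit 0x40492) (nat_lit 0) (p (nat_lit 0x30412) (nat_lit 0) (p (nat_lit 0x30212) (nat_lit 0) (p (nat_lit 0x20192) (nat_lit 0) (p (nat_lit 0x20092) (nat_lit 0) (p (nat_lit 0x10012) (nat_lit 0) pn)))))))))))))))))))))))))))) :=
  Cl.node (nat_lit 0xb000c) (nat_lit 2) (by decide +kernel) (ClAll.succ (ClAll.succ ClAll.zero s37) s38)

def n41 : Cl (O (nat_lit 5)) (R (nat_lit 102673))
    (p (nat_lit 0x200014) (nat_lit 0) (p (nat_lit 0x200004) (nat_lit 0) (p (nat_lit 0xc1) (nat_lit 0) (p (nat_lit 0x81) (nat_lit 1) (p (nat_lit 0x101) (nat_lit 1) (p (nat_lit 0x111) (nat_lit 0) (p (nat_lit 0xd1) (nat_lit 1) (p (nat_lit 0x89) (nat_lit 0) (p (nat_lit 0x41) (nat_lit 0) (p (nat_lit 0x1098a0b090a9a) (nat_lit 0) (p (nat_lit 0x9098a888a1a) (nat_lit 0) (p (nat_lit 0x108890a08079a) (nat_lit 0) (p (nat_lit 0x8088987871a) (nat_lit 0) (p (nat_lit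 0x8000000000800078907088a) (nat_lit 0) (p (nat_lit 0x8000000000800070886860a) (nat_lit 0) (p (nat_lit 0x10708060782) (nat_lit 0) (p (nat_lit 0x687858702) (nat_lit 0) (p (nat_lit 0x10607050482) (nat_lit 0) (p (nat_lit 0x586848402) (nat_lit 0) (p (nat_lit 0x16000c) (nat_lit 0) (p (nat_lit 0x50612) (nat_lit 0) (p (nat_lit 0x40592) (nat_lit 0) (p (nat_lit 0x40492) (nat_lit 0) (p (nat_lit 0x30412) (nat_lit 0) (p (nat_lit 0x30212) (nat_lit 0) (p (nat_lit 0x20192) (nat_lit 0) (p (nat_lit 0x20092) (nat_lit 0) (p (nat_lit 0x10012) (nat_lit 0) pn)))))))))))))))))))))))))))) :=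
  Cl.node (nat_lit 0x119) (nat_lit 2) (by decide +kernel) (ClAll.succ (ClAll.succ ClAll.zero n25) n26)

def n42 : Cl (O (nat_lit 5)) (R (nat_lit 102673))
    (p (nat_lit 0x200014) (nat_lit 0) (p (nat_lit 0x200004) (nat_lit 0) (p (nat_lit 0x101) (nat_lit 0) (p (nat_lit 0xc1) (nat_lit 1) (p (nat_lit 0x81) (nat_lit 1) (p (nat_lit 0x111) (nat_lit 1) (p (nat_lit 0xd1) (nat_lit 1) (p (nat_lit 0x89) (nat_lit 0) (p (nat_lit 0x41) (nat_lit 0) (p (nat_lit 0x1098a0b090a9a) (nat_lit 0) (p (nat_lit 0x9098a888a1a) (nat_lit 0) (p (nat_lit 0x108890a08079a) (nat_lit 0) (p (nat_lit 0x8088987871a) (nat_lit 0) (p (nat_lit 0x8000000000800078907088a) (nat_lit 0) (p (nat_lit 0x8000000000800070886860a) (nat_lit 0) (p (nat_lit 0x10708060782) (nat_lit 0) (p (nat_lit 0x687858702) (nat_lit 0) (p (nat_lit 0x10607050482) (nat_lit 0) (p (nat_lit 0x586848402) (nat_lit 0) (p (nat_lit 0x16000c) (nat_lit 0) (p (nat_lit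 0x50612) (nat_lit 0) (p (nat_lit 0x40592) (nat_lit 0) (p (nat_lit 0x40492) (nat_lit 0) (p (nat_lit 0x30412) (nat_lit 0) (p (nat_lit 0x30212) (nat_lit 0) (p (nat_lit 0x20192) (nat_lit 0) (p (nat_lit 0x20092) (nat_lit 0) (p (nat_lit 0x10012) (nat_lit 0) pn)))))))))))))))))))))))))))) :=
  Cl.node (nat_lit 0xb000c) (nat_lit 2) (by decide +kernel) (ClAll.succ (ClAll.succ ClAll.zero s56) s57)

def n43 : Cl (O (nat_lit 5)) (R (nat_lit 102673))
    (p (nat_lit 0x200004) (nat_lit 0) (p (nat_lit 0xd1) (nat_lit 1) (p (nat_lit 0x111) (nat_lit 1) (p (nat_lit 0x109) (nat_lit 0) (p (nat_lit 0x101) (nat_lit 0) (p (nat_lit 0x119) (nat_lit 0) (p (nat_lit 0xc9) (nat_lit 0) (p (nat_lit 0x89) (nat_lit 1) (p (nat_lit 0x41) (nat_lit 0) (p (nat_lit 0x1098a0b090a9a) (nat_lit 0) (p (nat_lit 0x9098a888a1a) (nat_lit 0) (p (nat_lit 0x108890a08079a) (nat_lit 0) (p (nat_lit 0x8088987871a) (nat_lit 0) (p (nat_lit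 0x8000000000800078907088a) (nat_lit 0) (p (nat_lit 0x8000000000800070886860a) (nat_lit 0) (p (nat_lit 0x10708060782) (nat_lit 0) (p (nat_lit 0x687858702) (nat_lit 0) (p (nat_lit 0x10607050482) (nat_lit 0) (p (nat_lit 0x586848402) (nat_lit 0) (p (nat_lit 0x16000c) (nat_lit 0) (p (nat_lit 0x50612) (nat_lit 0) (p (nat_lit 0x40592) (nat_lit 0) (p (nat_lit 0x40492) (nat_lit 0) (p (nat_lit 0x30412) (nat_lit 0) (p (nat_lit 0x30212) (nat_lit 0) (p (nat_lit 0x20192) (nat_lit 0) (p (nat_lit 0x20092) (nat_lit 0) (p (nat_lit 0x10012) (nat_lit 0) pn)))))))))))))))))))))))))))) :=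
  Cl.node (nat_lit 0x200014) (nat_lit 2) (by decide +kernel) (ClAll.succ (ClAll.succ ClAll.zero s63) s64)

def n44 : Cl (O (nat_lit 5)) (R (nat_lit 102673))
    (p (nat_lit 0x200014) (nat_lit 0) (p (nat_lit 0x200004) (nat_lit 0) (p (nat_lit 0xd1) (nat_lit 0) (p (nat_lit 0x109) (nat_lit 1) (p (nat_lit 0x101) (nat_lit 0) (p (nat_lit 0x119) (nat_lit 0) (p (nat_lit 0xc9) (nat_lit 0) (p (nat_lit 0x89) (nat_lit 1) (p (nat_lit 0x41) (nat_lit 0) (p (nat_lit 0x1098a0b090a9a) (nat_lit 0) (p (nat_lit 0x9098a888a1a) (nat_lit 0) (p (nat_lit 0x108890a08079a) (nat_lit 0) (p (nat_lit 0x8088987871a) (nat_lit 0) (p (nat_lit 0x8000000000800078907088a) (nat_lit 0) (p (nat_lit 0x8000000000800070886860a) (nat_lit 0) (p (nat_lit 0x10708060782) (nat_lit 0) (p (nat_lit 0x687858702) (nat_lit 0) (p (nat_lit 0x10607050482) (nat_lit 0) (p (nat_lit 0x586848402) (nat_lit 0) (p (nat_lit 0x16000c) (nat_lit 0) (p (nat_lit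 0x50612) (nat_lit 0) (p (nat_lit 0x40592) (nat_lit 0) (p (nat_lit 0x40492) (nat_lit 0) (p (nat_lit 0x30412) (nat_lit 0) (p (nat_lit 0x30212) (nat_lit 0) (p (nat_lit 0x20192) (nat_lit 0) (p (nat_lit 0x20092) (nat_lit 0) (p (nat_lit 0x10012) (nat_lit 0) pn)))))))))))))))))))))))))))) :=
  Cl.node (nat_lit 0xb000c) (nat_lit 2) (by decide +kernel) (ClAll.succ (ClAll.succ ClAll.zero s66) s67)

def n45 : Cl (O (nat_lit 5)) (R (nat_lit 102673))
    (p (nat_lit 0x200014) (nat_lit 0) (p (nat_lit 0x200004) (nat_lit 0) (p (nat_lit 0xd1) (nat_lit 1) (p (nat_lit 0x109) (nat_lit 1) (p (nat_lit 0x101) (nat_lit 0) (p (nat_lit 0x119) (nat_lit 0) (p (nat_lit 0xc9) (nat_lit 0) (p (nat_lit 0x89) (nat_lit 1) (p (nat_lit 0x41) (nat_lit 0) (p (nat_lit 0x1098a0b090a9a) (nat_lit 0) (p (nat_lit 0x9098a888a1a) (nat_lit 0) (p (nat_lit 0x108890a08079a) (nat_lit 0) (p (nat_lit 0x8088987871a) (nat_lit 0) (p (nat_lit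 0x8000000000800078907088a) (nat_lit 0) (p (nat_lit 0x8000000000800070886860a) (nat_lit 0) (p (nat_lit 0x10708060782) (nat_lit 0) (p (nat_lit 0x687858702) (nat_lit 0) (p (nat_lit 0x10607050482) (nat_lit 0) (p (nat_lit 0x586848402) (nat_lit 0) (p (nat_lit 0x16000c) (nat_lit 0) (p (nat_lit 0x50612) (nat_lit 0) (p (nat_lit 0x40592) (nat_lit 0) (p (nat_lit 0x40492) (nat_lit 0) (p (nat_lit 0x30412) (nat_lit 0) (p (nat_lit 0x30212) (nat_lit 0) (p (nat_lit 0x20192) (nat_lit 0) (p (nat_lit 0x20092) (nat_lit 0) (p (nat_lit 0x10012) (nat_lit 0) pn)))))))))))))))))))))))))))) :=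
  Cl.node (nat_lit 0xb000c) (nat_lit 2) (by decide +kernel) (ClAll.succ (ClAll.succ ClAll.zero n27) s81)

def n46 : Cl (O (nat_lit 5)) (R (nat_lit 102673))
    (p (nat_lit 0x200014) (nat_lit 0) (p (nat_lit 0x200004) (nat_lit 0) (p (nat_lit 0xd1) (nat_lit 0) (p (nat_lit 0xc1) (nat_lit 0) (p (nat_lit 0x101) (nat_lit 1) (p (nat_lit 0x119) (nat_lit 0) (p (nat_lit 0xc9) (nat_lit 0) (p (nat_lit 0x89) (nat_lit 1) (p (nat_lit 0x41) (nat_lit 0) (p (nat_lit 0x1098a0b090a9a) (nat_lit 0) (p (nat_lit 0x9098a888a1a) (nat_lit 0) (p (nat_lit 0x108890a08079a) (nat_lit 0) (p (nat_lit 0x8088987871a) (nat_lit 0) (p (nat_lit 0x8000000000800078907088a) (nat_lit 0) (p (nat_lit 0x8000000000800070886860a) (nat_lit 0) (p (nat_lit 0x10708060782) (nat_lit 0) (p (nat_lit 0x687858702) (nat_lit 0) (p (nat_lit 0x10607050482) (nat_lit 0) (p (nat_lit 0x586848402) (nat_lit 0) (p (nat_lit 0x16000c) (nat_lit 0) (p (nat_lit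 0x50612) (nat_lit 0) (p (nat_lit 0x40592) (nat_lit 0) (p (nat_lit 0x40492) (nat_lit 0) (p (nat_lit 0x30412) (nat_lit 0) (p (nat_lit 0x30212) (nat_lit 0) (p (nat_lit 0x20192) (nat_lit 0) (p (nat_lit 0x20092) (nat_lit 0) (p (nat_lit 0x10012) (nat_lit 0) pn)))))))))))))))))))))))))))) :=
  Cl.node (nat_lit 0xb000c) (nat_lit 2) (by decide +kernel) (ClAll.succ (ClAll.succ ClAll.zero s84) s85)

def n47 : Cl (O (nat_lit 5)) (R (nat_lit 102673))
    (p (nat_lit 0x200014) (nat_lit 0) (p (nat_lit 0x200004) (nat_lit 0) (p (nat_lit 0xd1) (nat_lit 1) (p (nat_lit 0xc1) (nat_lit 0) (p (nat_lit 0x101) (nat_lit 1) (p (nat_lit 0x119) (nat_lit 0) (p (nat_lit 0xc9) (nat_lit 0) (p (nat_lit 0x89) (nat_lit 1) (p (nat_lit 0x41) (nat_lit 0) (p (nat_lit 0x1098a0b090a9a) (nat_lit 0) (p (nat_lit 0x9098a888a1a) (nat_lit 0) (p (nat_lit 0x108890a08079a) (nat_lit 0) (p (nat_lit 0x8088987871a) (nat_lit 0) (p (nat_lit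 0x8000000000800078907088a) (nat_lit 0) (p (nat_lit 0x8000000000800070886860a) (nat_lit 0) (p (nat_lit 0x10708060782) (nat_lit 0) (p (nat_lit 0x687858702) (nat_lit 0) (p (nat_lit 0x10607050482) (nat_lit 0) (p (nat_lit 0x586848402) (nat_lit 0) (p (nat_lit 0x16000c) (nat_lit 0) (p (nat_lit 0x50612) (nat_lit 0) (p (nat_lit 0x40592) (nat_lit 0) (p (nat_lit 0x40492) (nat_lit 0) (p (nat_lit 0x30412) (nat_lit 0) (p (nat_lit 0x30212) (nat_lit 0) (p (nat_lit 0x20192) (nat_lit 0) (p (nat_lit 0x20092) (nat_lit 0) (p (nat_lit 0x10012) (nat_lit 0) pn)))))))))))))))))))))))))))) :=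
  Cl.node (nat_lit 0xb000c) (nat_lit 2) (by decide +kernel) (ClAll.succ (ClAll.succ ClAll.zero n28) s92)

def n48 : Cl (O (nat_lit 5)) (R (nat_lit 102673))
    (p (nat_lit 0x200014) (nat_lit 0) (p (nat_lit 0x200004) (nat_lit 0) (p (nat_lit 0x111) (nat_lit 1) (p (nat_lit 0xd1) (nat_lit 1) (p (nat_lit 0xc1) (nat_lit 0) (p (nat_lit 0x119) (nat_lit 1) (p (nat_lit 0xc9) (nat_lit 0) (p (nat_lit 0x89) (nat_lit 1) (p (nat_lit 0x41) (nat_lit 0) (p (nat_lit 0x1098a0b090a9a) (nat_lit 0) (p (nat_lit 0x9098a888a1a) (nat_lit 0) (p (nat_lit 0x108890a08079a) (nat_lit 0) (p (nat_lit 0x8088987871a) (nat_lit 0) (p (nat_lit 0x8000000000800078907088a) (nat_lit 0) (p (nat_lit 0x8000000000800070886860a) (nat_lit 0) (p (nat_lit 0x10708060782) (nat_lit 0) (p (nat_lit 0x687858702) (nat_lit 0) (p (nat_lit 0x10607050482) (nat_lit 0) (p (nat_lit 0x586848402) (nat_lit 0) (p (nat_lit 0x16000c) (nat_lit 0) (p (nat_lit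 0x50612) (nat_lit 0) (p (nat_lit 0x40592) (nat_lit 0) (p (nat_lit 0x40492) (nat_lit 0) (p (nat_lit 0x30412) (nat_lit 0) (p (nat_lit 0x30212) (nat_lit 0) (p (nat_lit 0x20192) (nat_lit 0) (p (nat_lit 0x20092) (nat_lit 0) (p (nat_lit 0x10012) (nat_lit 0) pn)))))))))))))))))))))))))))) :=
  Cl.node (nat_lit 0xb000c) (nat_lit 2) (by decide +kernel) (ClAll.succ (ClAll.succ ClAll.zero s98) s99)

def n49 : Cl (O (nat_lit 5)) (R (nat_lit 102673))
    (p (nat_lit 0x200014) (nat_lit 0) (p (nat_lit 0x200004) (nat_lit 0) (p (nat_lit 0x111) (nat_lit 0) (p (nat_lit 0x101) (nat_lit 0) (p (nat_lit 0xc1) (nat_lit 1) (p (nat_lit 0x119) (nat_lit 1) (p (nat_lit 0xc9) (nat_lit 0) (p (nat_lit 0x89) (nat_lit 1) (p (nat_lit 0x41) (nat_lit 0) (p (nat_lit 0x1098a0b090a9a) (nat_lit 0) (p (nat_lit 0x9098a888a1a) (nat_lit 0) (p (nat_lit 0x108890a08079a) (nat_lit 0) (p (nat_lit 0x8088987871a) (nat_lit 0) (p (nat_lit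 0x8000000000800078907088a) (nat_lit 0) (p (nat_lit 0x8000000000800070886860a) (nat_lit 0) (p (nat_lit 0x10708060782) (nat_lit 0) (p (nat_lit 0x687858702) (nat_lit 0) (p (nat_lit 0x10607050482) (nat_lit 0) (p (nat_lit 0x586848402) (nat_lit 0) (p (nat_lit 0x16000c) (nat_lit 0) (p (nat_lit 0x50612) (nat_lit 0) (p (nat_lit 0x40592) (nat_lit 0) (p (nat_lit 0x40492) (nat_lit 0) (p (nat_lit 0x30412) (nat_lit 0) (p (nat_lit 0x30212) (nat_lit 0) (p (nat_lit 0x20192) (nat_lit 0) (p (nat_lit 0x20092) (nat_lit 0) (p (nat_lit 0x10012) (nat_lit 0) pn)))))))))))))))))))))))))))) :=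
  Cl.node (nat_lit 0xb000c) (nat_lit 2) (by decide +kernel) (ClAll.succ (ClAll.succ ClAll.zero n29) s104)

def n50 : Cl (O (nat_lit 5)) (R (nat_lit 102673))
    (p (nat_lit 0x200014) (nat_lit 0) (p (nat_lit 0x200004) (nat_lit 0) (p (nat_lit 0x111) (nat_lit 1) (p (nat_lit 0x101) (nat_lit 0) (p (nat_lit 0xc1) (nat_lit 1) (p (nat_lit 0x119) (nat_lit 1) (p (nat_lit 0xc9) (nat_lit 0) (p (nat_lit 0x89) (nat_lit 1) (p (nat_lit 0x41) (nat_lit 0) (p (nat_lit 0x1098a0b090a9a) (nat_lit 0) (p (nat_lit 0x9098a888a1a) (nat_lit 0) (p (nat_lit 0x108890a08079a) (nat_lit 0) (p (nat_lit 0x8088987871a) (nat_lit 0) (p (nat_lit 0x8000000000800078907088a) (nat_lit 0) (p (nat_lit 0x8000000000800070886860a) (nat_lit 0) (p (nat_lit 0x10708060782) (nat_lit 0) (p (nat_lit 0x687858702) (nat_lit 0) (p (nat_lit 0x10607050482) (nat_lit 0) (p (nat_lit 0x586848402) (nat_lit 0) (p (nat_lit 0x16000c) (nat_lit 0) (p (nat_lit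 0x50612) (nat_lit 0) (p (nat_lit 0x40592) (nat_lit 0) (p (nat_lit 0x40492) (nat_lit 0) (p (nat_lit 0x30412) (nat_lit 0) (p (nat_lit 0x30212) (nat_lit 0) (p (nat_lit 0x20192) (nat_lit 0) (p (nat_lit 0x20092) (nat_lit 0) (p (nat_lit 0x10012) (nat_lit 0) pn)))))))))))))))))))))))))))) :=
  Cl.node (nat_lit 0xb000c) (nat_lit 2) (by decide +kernel) (ClAll.succ (ClAll.succ ClAll.zero n30) s110)

def n51 : Cl (O (nat_lit 5)) (R (nat_lit 102673))
    (p (nat_lit 0x200014) (nat_lit 0) (p (nat_lit 0x200004) (nat_lit 0) (p (nat_lit 0x89) (nat_lit 1) (p (nat_lit 0xc1) (nat_lit 1) (p (nat_lit 0x101) (nat_lit 1) (p (nat_lit 0x119) (nat_lit 0) (p (nat_lit 0xd1) (nat_lit 0) (p (nat_lit 0x81) (nat_lit 0) (p (nat_lit 0x41) (nat_lit 1) (p (nat_lit 0x1098a0b090a9a) (nat_lit 0) (p (nat_lit 0x9098a888a1a) (nat_lit 0) (p (nat_lit 0x108890a08079a) (nat_lit 0) (p (nat_lit 0x8088987871a) (nat_lit 0) (p (nat_lit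 0x8000000000800078907088a) (nat_lit 0) (p (nat_lit 0x8000000000800070886860a) (nat_lit 0) (p (nat_lit 0x10708060782) (nat_lit 0) (p (nat_lit 0x687858702) (nat_lit 0) (p (nat_lit 0x10607050482) (nat_lit 0) (p (nat_lit 0x586848402) (nat_lit 0) (p (nat_lit 0x16000c) (nat_lit 0) (p (nat_lit 0x50612) (nat_lit 0) (p (nat_lit 0x40592) (nat_lit 0) (p (nat_lit 0x40492) (nat_lit 0) (p (nat_lit 0x30412) (nat_lit 0) (p (nat_lit 0x30212) (nat_lit 0) (p (nat_lit 0x20192) (nat_lit 0) (p (nat_lit 0x20092) (nat_lit 0) (p (nat_lit 0x10012) (nat_lit 0) pn)))))))))))))))))))))))))))) :=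
  Cl.node (nat_lit 0xb000c) (nat_lit 2) (by decide +kernel) (ClAll.succ (ClAll.succ ClAll.zero n31) s132)

def n52 : Cl (O (nat_lit 5)) (R (nat_lit 102673))
    (p (nat_lit 0x200004) (nat_lit 0) (p (nat_lit 0x109) (nat_lit 0) (p (nat_lit 0x89) (nat_lit 1) (p (nat_lit 0xc9) (nat_lit 1) (p (nat_lit 0xc1) (nat_lit 0) (p (nat_lit 0x119) (nat_lit 1) (p (nat_lit 0xd1) (nat_lit 0) (p (nat_lit 0x81) (nat_lit 0) (p (nat_lit 0x41) (nat_lit 1) (p (nat_lit 0x1098a0b090a9a) (nat_lit 0) (p (nat_lit 0x9098a888a1a) (nat_lit 0) (p (nat_lit 0x108890a08079a) (nat_lit 0) (p (nat_lit 0x8088987871a) (nat_lit 0) (p (nat_lit 0x8000000000800078907088a) (nat_lit 0) (p (nat_lit 0x8000000000800070886860a) (nat_lit 0) (p (nat_lit 0x10708060782) (nat_lit 0) (p (nat_lit 0x687858702) (nat_lit 0) (p (nat_lit 0x10607050482) (nat_lit 0) (p (nat_lit 0x586848402) (nat_lit 0) (p (nat_lit 0x16000c) (nat_lit 0) (p (nat_lit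 0x50612) (nat_lit 0) (p (nat_lit 0x40592) (nat_lit 0) (p (nat_lit 0x40492) (nat_lit 0) (p (nat_lit 0x30412) (nat_lit 0) (p (nat_lit 0x30212) (nat_lit 0) (p (nat_lit 0x20192) (nat_lit 0) (p (nat_lit 0x20092) (nat_lit 0) (p (nat_lit 0x10012) (nat_lit 0) pn)))))))))))))))))))))))))))) :=
  Cl.node (nat_lit 0x200014) (nat_lit 2) (by decide +kernel) (ClAll.succ (ClAll.succ ClAll.zero n32) s139)

def n53 : Cl (O (nat_lit 5)) (R (nat_lit 102673))
    (p (nat_lit 0x200014) (nat_lit 0) (p (nat_lit 0x200004) (nat_lit 0) (p (nat_lit 0x89) (nat_lit 1) (p (nat_lit 0x101) (nat_lit 1) (p (nat_lit 0xc1) (nat_lit 1) (p (nat_lit 0x119) (nat_lit 1) (p (nat_lit 0xd1) (nat_lit 0) (p (nat_lit 0x81) (nat_lit 0) (p (nat_lit 0x41) (nat_lit 1) (p (nat_lit 0x1098a0b090a9a) (nat_lit 0) (p (nat_lit 0x9098a888a1a) (nat_lit 0) (p (nat_lit 0x108890a08079a) (nat_lit 0) (p (nat_lit 0x8088987871a) (nat_lit 0) (p (nat_lit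 0x8000000000800078907088a) (nat_lit 0) (p (nat_lit 0x8000000000800070886860a) (nat_lit 0) (p (nat_lit 0x10708060782) (nat_lit 0) (p (nat_lit 0x687858702) (nat_lit 0) (p (nat_lit 0x10607050482) (nat_lit 0) (p (nat_lit 0x586848402) (nat_lit 0) (p (nat_lit 0x16000c) (nat_lit 0) (p (nat_lit 0x50612) (nat_lit 0) (p (nat_lit 0x40592) (nat_lit 0) (p (nat_lit 0x40492) (nat_lit 0) (p (nat_lit 0x30412) (nat_lit 0) (p (nat_lit 0x30212) (nat_lit 0) (p (nat_lit 0x20192) (nat_lit 0) (p (nat_lit 0x20092) (nat_lit 0) (p (nat_lit 0x10012) (nat_lit 0) pn)))))))))))))))))))))))))))) :=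
  Cl.node (nat_lit 0xb000c) (nat_lit 2) (by decide +kernel) (ClAll.succ (ClAll.succ ClAll.zero n33) s148)

def n54 : Cl (O (nat_lit 5)) (R (nat_lit 102673))
    (p (nat_lit 0x200004) (nat_lit 0) (p (nat_lit 0xc9) (nat_lit 0) (p (nat_lit 0x89) (nat_lit 1) (p (nat_lit 0x109) (nat_lit 1) (p (nat_lit 0x101) (nat_lit 0) (p (nat_lit 0x111) (nat_lit 0) (p (nat_lit 0xd1) (nat_lit 1) (p (nat_lit 0x81) (nat_lit 0) (p (nat_lit 0x41) (nat_lit 1) (p (nat_lit 0x1098a0b090a9a) (nat_lit 0) (p (nat_lit 0x9098a888a1a) (nat_lit 0) (p (nat_lit 0x108890a08079a) (nat_lit 0) (p (nat_lit 0x8088987871a) (nat_lit 0) (p (nat_lit 0x8000000000800078907088a) (nat_lit 0) (p (nat_lit 0x8000000000800070886860a) (nat_lit 0) (p (nat_lit 0x10708060782) (nat_lit 0) (p (nat_lit 0x687858702) (nat_lit 0) (p (nat_lit 0x10607050482) (nat_lit 0) (p (nat_lit 0x586848402) (nat_lit 0) (p (nat_lit 0x16000c) (nat_lit 0) (p (nat_lit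 0x50612) (nat_lit 0) (p (nat_lit 0x40592) (nat_lit 0) (p (nat_lit 0x40492) (nat_lit 0) (p (nat_lit 0x30412) (nat_lit 0) (p (nat_lit 0x30212) (nat_lit 0) (p (nat_lit 0x20192) (nat_lit 0) (p (nat_lit 0x20092) (nat_lit 0) (p (nat_lit 0x10012) (nat_lit 0) pn)))))))))))))))))))))))))))) :=
  Cl.node (nat_lit 0x200014) (nat_lit 2) (by decide +kernel) (ClAll.succ (ClAll.succ ClAll.zero n34) s156)

def n55 : Cl (O (nat_lit 5)) (R (nat_lit 102673))
    (p (nat_lit 0x200014) (nat_lit 0) (p (nat_lit 0x200004) (nat_lit 0) (p (nat_lit 0xc9) (nat_lit 0) (p (nat_lit 0x89) (nat_lit 1) (p (nat_lit 0x101) (nat_lit 1) (p (nat_lit 0x111) (nat_lit 0) (p (nat_lit 0xd1) (nat_lit 1) (p (nat_lit 0x81) (nat_lit 0) (p (nat_lit 0x41) (nat_lit 1) (p (nat_lit 0x1098a0b090a9a) (nat_lit 0) (p (nat_lit 0x9098a888a1a) (nat_lit 0) (p (nat_lit 0x108890a08079a) (nat_lit 0) (p (nat_lit 0x8088987871a) (nat_lit 0) (p (nat_lit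 0x8000000000800078907088a) (nat_lit 0) (p (nat_lit 0x8000000000800070886860a) (nat_lit 0) (p (nat_lit 0x10708060782) (nat_lit 0) (p (nat_lit 0x687858702) (nat_lit 0) (p (nat_lit 0x10607050482) (nat_lit 0) (p (nat_lit 0x586848402) (nat_lit 0) (p (nat_lit 0x16000c) (nat_lit 0) (p (nat_lit 0x50612) (nat_lit 0) (p (nat_lit 0x40592) (nat_lit 0) (p (nat_lit 0x40492) (nat_lit 0) (p (nat_lit 0x30412) (nat_lit 0) (p (nat_lit 0x30212) (nat_lit 0) (p (nat_lit 0x20192) (nat_lit 0) (p (nat_lit 0x20092) (nat_lit 0) (p (nat_lit 0x10012) (nat_lit 0) pn)))))))))))))))))))))))))))) :=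
  Cl.node (nat_lit 0xb000c) (nat_lit 2) (by decide +kernel) (ClAll.succ (ClAll.succ ClAll.zero n35) s167)

def n56 : Cl (O (nat_lit 5)) (R (nat_lit 102673))
    (p (nat_lit 0x200014) (nat_lit 0) (p (nat_lit 0x200004) (nat_lit 0) (p (nat_lit 0x109) (nat_lit 0) (p (nat_lit 0xc9) (nat_lit 1) (p (nat_lit 0x89) (nat_lit 1) (p (nat_lit 0x111) (nat_lit 1) (p (nat_lit 0xd1) (nat_lit 1) (p (nat_lit 0x81) (nat_lit 0) (p (nat_lit 0x41) (nat_lit 1) (p (nat_lit 0x1098a0b090a9a) (nat_lit 0) (p (nat_lit 0x9098a888a1a) (nat_lit 0) (p (nat_lit 0x108890a08079a) (nat_lit 0) (p (nat_lit 0x8088987871a) (nat_lit 0) (p (nat_lit 0x8000000000800078907088a) (nat_lit 0) (p (nat_lit 0x8000000000800070886860a) (nat_lit 0) (p (nat_lit 0x10708060782) (nat_lit 0) (p (nat_lit 0x687858702) (nat_lit 0) (p (nat_lit 0x10607050482) (nat_lit 0) (p (nat_lit 0x586848402) (nat_lit 0) (p (nat_lit 0x16000c) (nat_lit 0) (p (nat_lit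 0x50612) (nat_lit 0) (p (nat_lit 0x40592) (nat_lit 0) (p (nat_lit 0x40492) (nat_lit 0) (p (nat_lit 0x30412) (nat_lit 0) (p (nat_lit 0x30212) (nat_lit 0) (p (nat_lit 0x20192) (nat_lit 0) (p (nat_lit 0x20092) (nat_lit 0) (p (nat_lit 0x10012) (nat_lit 0) pn)))))))))))))))))))))))))))) :=
  Cl.node (nat_lit 0xb000c) (nat_lit 2) (by decide +kernel) (ClAll.succ (ClAll.succ ClAll.zero s173) s174)

def n57 : Cl (O (nat_lit 5)) (R (nat_lit 102673))
    (p (nat_lit 0x200004) (nat_lit 0) (p (nat_lit 0xc9) (nat_lit 1) (p (nat_lit 0x109) (nat_lit 1) (p (nat_lit 0x101) (nat_lit 0) (p (nat_lit 0x119) (nat_lit 0) (p (nat_lit 0xd1) (nat_lit 0) (p (nat_lit 0x89) (nat_lit 0) (p (nat_lit 0x41) (nat_lit 0) (p (nat_lit 0x1098a0b090a9a) (nat_lit 0) (p (nat_lit 0x9098a888a1a) (nat_lit 0) (p (nat_lit 0x108890a08079a) (nat_lit 0) (p (nat_lit 0x8088987871a) (nat_lit 0) (p (nat_lit 0x8000000000800078907088a)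 (nat_lit 0) (p (nat_lit 0x8000000000800070886860a) (nat_lit 0) (p (nat_lit 0x10708060782) (nat_lit 0) (p (nat_lit 0x687858702) (nat_lit 0) (p (nat_lit 0x10607050482) (nat_lit 0) (p (nat_lit 0x586848402) (nat_lit 0) (p (nat_lit 0x16000c) (nat_lit 0) (p (nat_lit 0x50612) (nat_lit 0) (p (nat_lit 0x40592) (nat_lit 0) (p (nat_lit 0x40492) (nat_lit 0) (p (nat_lit 0x30412) (nat_lit 0) (p (nat_lit 0x30212) (nat_lit 0) (p (nat_lit 0x20192) (nat_lit 0) (p (nat_lit 0x20092) (nat_lit 0) (p (nat_lit 0x10012) (nat_lit 0) pn))))))))))))))))))))))))))) :=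
  Cl.node (nat_lit 0x200014) (nat_lit 2) (by decide +kernel) (ClAll.succ (ClAll.succ ClAll.zero n36) s4)

def n58 : Cl (O (nat_lit 5)) (R (nat_lit 102673))
    (p (nat_lit 0x200004) (nat_lit 0) (p (nat_lit 0xc9) (nat_lit 1) (p (nat_lit 0x81) (nat_lit 0) (p (nat_lit 0x101) (nat_lit 1) (p (nat_lit 0x119) (nat_lit 0) (p (nat_lit 0xd1) (nat_lit 0) (p (nat_lit 0x89) (nat_lit 0) (p (nat_lit 0x41) (nat_lit 0) (p (nat_lit 0x1098a0b090a9a) (nat_lit 0) (p (nat_lit 0x9098a888a1a) (nat_lit 0) (p (nat_lit 0x108890a08079a) (nat_lit 0) (p (nat_lit 0x8088987871a) (nat_lit 0) (p (nat_lit 0x8000000000800078907088a) (nat_lit 0) (p (nat_lit 0x8000000000800070886860a) (nat_lit 0) (p (nat_lit 0x10708060782) (nat_lit 0) (p (nat_lit 0x687858702) (nat_lit 0) (p (nat_lit 0x10607050482) (nat_lit 0) (p (nat_lit 0x586848402) (nat_lit 0) (p (nat_lit 0x16000c) (nat_lit 0) (p (nat_lit 0x50612) (nat_lit 0) (p (nat_lit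 0x40592) (nat_lit 0) (p (nat_lit 0x40492) (nat_lit 0) (p (nat_lit 0x30412) (nat_lit 0) (p (nat_lit 0x30212) (nat_lit 0) (p (nat_lit 0x20192) (nat_lit 0) (p (nat_lit 0x20092) (nat_lit 0) (p (nat_lit 0x10012) (nat_lit 0) pn))))))))))))))))))))))))))) :=
  Cl.node (nat_lit 0x200014) (nat_lit 2) (by decide +kernel) (ClAll.succ (ClAll.succ ClAll.zero n37) s11)

def n59 : Cl (O (nat_lit 5)) (R (nat_lit 102673))
    (p (nat_lit 0xc9) (nat_lit 1) (p (nat_lit 0xc1) (nat_lit 0) (p (nat_lit 0x81) (nat_lit 1) (p (nat_lit 0x101) (nat_lit 1) (p (nat_lit 0x119) (nat_lit 0) (p (nat_lit 0xd1) (nat_lit 0) (p (nat_lit 0x89) (nat_lit 0) (p (nat_lit 0x41) (nat_lit 0) (p (nat_lit 0x1098a0b090a9a) (nat_lit 0) (p (nat_lit 0x9098a888a1a) (nat_lit 0) (p (nat_lit 0x108890a08079a) (nat_lit 0) (p (nat_lit 0x8088987871a) (nat_lit 0) (p (nat_lit 0x8000000000800078907088a) (nat_lit 0) (p (nat_lit 0x8000000000800070886860a)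 (nat_lit 0) (p (nat_lit 0x10708060782) (nat_lit 0) (p (nat_lit 0x687858702) (nat_lit 0) (p (nat_lit 0x10607050482) (nat_lit 0) (p (nat_lit 0x586848402) (nat_lit 0) (p (nat_lit 0x16000c) (nat_lit 0) (p (nat_lit 0x50612) (nat_lit 0) (p (nat_lit 0x40592) (nat_lit 0) (p (nat_lit 0x40492) (nat_lit 0) (p (nat_lit 0x30412) (nat_lit 0) (p (nat_lit 0x30212) (nat_lit 0) (p (nat_lit 0x20192) (nat_lit 0) (p (nat_lit 0x20092) (nat_lit 0) (p (nat_lit 0x10012) (nat_lit 0) pn))))))))))))))))))))))))))) :=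
  Cl.node (nat_lit 0x200004) (nat_lit 2) (by decide +kernel) (ClAll.succ (ClAll.succ ClAll.zero n38) s18)

def n60 : Cl (O (nat_lit 5)) (R (nat_lit 102673))
    (p (nat_lit 0x109) (nat_lit 0) (p (nat_lit 0x101) (nat_lit 0) (p (nat_lit 0x81) (nat_lit 1) (p (nat_lit 0xc1) (nat_lit 1) (p (nat_lit 0x119) (nat_lit 1) (p (nat_lit 0xd1) (nat_lit 0) (p (nat_lit 0x89) (nat_lit 0) (p (nat_lit 0x41) (nat_lit 0) (p (nat_lit 0x1098a0b090a9a) (nat_lit 0) (p (nat_lit 0x9098a888a1a) (nat_lit 0) (p (nat_lit 0x108890a08079a) (nat_lit 0) (p (nat_lit 0x8088987871a) (nat_lit 0) (p (nat_lit 0x8000000000800078907088a) (nat_lit 0) (p (nat_lit 0x8000000000800070886860a) (nat_lit 0) (p (nat_lit 0x10708060782) (nat_lit 0) (p (nat_lit 0x687858702) (nat_lit 0) (p (nat_lit 0x10607050482) (nat_lit 0) (p (nat_lit 0x586848402) (nat_lit 0) (p (nat_lit 0x16000c) (nat_lit 0) (p (nat_lit 0x50612) (nat_lit 0) (p (nat_lit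 0x40592) (nat_lit 0) (p (nat_lit 0x40492) (nat_lit 0) (p (nat_lit 0x30412) (nat_lit 0) (p (nat_lit 0x30212) (nat_lit 0) (p (nat_lit 0x20192) (nat_lit 0) (p (nat_lit 0x20092) (nat_lit 0) (p (nat_lit 0x10012) (nat_lit 0) pn))))))))))))))))))))))))))) :=
  Cl.node (nat_lit 0x200004) (nat_lit 2) (by decide +kernel) (ClAll.succ (ClAll.succ ClAll.zero s27) s28)

def n61 : Cl (O (nat_lit 5)) (R (nat_lit 102673))
    (p (nat_lit 0x109) (nat_lit 1) (p (nat_lit 0x101) (nat_lit 0) (p (nat_lit 0x81) (nat_lit 1) (p (nat_lit 0xc1) (nat_lit 1) (p (nat_lit 0x119) (nat_lit 1) (p (nat_lit 0xd1) (nat_lit 0) (p (nat_lit 0x89) (nat_lit 0) (p (nat_lit 0x41) (nat_lit 0) (p (nat_lit 0x1098a0b090a9a) (nat_lit 0) (p (nat_lit 0x9098a888a1a) (nat_lit 0) (p (nat_lit 0x108890a08079a) (nat_lit 0) (p (nat_lit 0x8088987871a) (nat_lit 0) (p (nat_lit 0x8000000000800078907088a) (nat_lit 0) (p (nat_lit 0x8000000000800070886860a)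 (nat_lit 0) (p (nat_lit 0x10708060782) (nat_lit 0) (p (nat_lit 0x687858702) (nat_lit 0) (p (nat_lit 0x10607050482) (nat_lit 0) (p (nat_lit 0x586848402) (nat_lit 0) (p (nat_lit 0x16000c) (nat_lit 0) (p (nat_lit 0x50612) (nat_lit 0) (p (nat_lit 0x40592) (nat_lit 0) (p (nat_lit 0x40492) (nat_lit 0) (p (nat_lit 0x30412) (nat_lit 0) (p (nat_lit 0x30212) (nat_lit 0) (p (nat_lit 0x20192) (nat_lit 0) (p (nat_lit 0x20092) (nat_lit 0) (p (nat_lit 0x10012) (nat_lit 0) pn))))))))))))))))))))))))))) :=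
  Cl.node (nat_lit 0x200004) (nat_lit 2) (by decide +kernel) (ClAll.succ (ClAll.succ ClAll.zero n39) s33)

def n62 : Cl (O (nat_lit 5)) (R (nat_lit 102673))
    (p (nat_lit 0x200014) (nat_lit 0) (p (nat_lit 0x200004) (nat_lit 0) (p (nat_lit 0x109) (nat_lit 1) (p (nat_lit 0x101) (nat_lit 0) (p (nat_lit 0x111) (nat_lit 0) (p (nat_lit 0xd1) (nat_lit 1) (p (nat_lit 0x89) (nat_lit 0) (p (nat_lit 0x41) (nat_lit 0) (p (nat_lit 0x1098a0b090a9a) (nat_lit 0) (p (nat_lit 0x9098a888a1a) (nat_lit 0) (p (nat_lit 0x108890a08079a) (nat_lit 0) (p (nat_lit 0x8088987871a) (nat_lit 0) (p (nat_lit 0x8000000000800078907088a) (nat_lit 0) (p (nat_lit 0x8000000000800070886860a) (nat_lit 0) (p (nat_lit 0x10708060782) (nat_lit 0) (p (nat_lit 0x687858702) (nat_lit 0) (p (nat_lit 0x10607050482) (nat_lit 0) (p (nat_lit 0x586848402) (nat_lit 0) (p (nat_lit 0x16000c) (nat_lit 0) (p (nat_lit 0x50612) (nat_lit 0) (p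 (nat_lit 0x40592) (nat_lit 0) (p (nat_lit 0x40492) (nat_lit 0) (p (nat_lit 0x30412) (nat_lit 0) (p (nat_lit 0x30212) (nat_lit 0) (p (nat_lit 0x20192) (nat_lit 0) (p (nat_lit 0x20092) (nat_lit 0) (p (nat_lit 0x10012) (nat_lit 0) pn))))))))))))))))))))))))))) :=
  Cl.node (nat_lit 0xc1) (nat_lit 2) (by decide +kernel) (ClAll.succ (ClAll.succ ClAll.zero s36) n40)

def n63 : Cl (O (nat_lit 5)) (R (nat_lit 102673))
    (p (nat_lit 0x200014) (nat_lit 0) (p (nat_lit 0x200004) (nat_lit 0) (p (nat_lit 0x81) (nat_lit 0) (p (nat_lit 0x101) (nat_lit 1) (p (nat_lit 0x111) (nat_lit 0) (p (nat_lit 0xd1) (nat_lit 1) (p (nat_lit 0x89) (nat_lit 0) (p (nat_lit 0x41) (nat_lit 0) (p (nat_lit 0x1098a0b090a9a) (nat_lit 0) (p (nat_lit 0x9098a888a1a) (nat_lit 0) (p (nat_lit 0x108890a08079a) (nat_lit 0) (p (nat_lit 0x8088987871a) (nat_lit 0) (p (nat_lit 0x8000000000800078907088a) (nat_lit 0) (p (nat_lit 0x8000000000800070886860a)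 (nat_lit 0) (p (nat_lit 0x10708060782) (nat_lit 0) (p (nat_lit 0x687858702) (nat_lit 0) (p (nat_lit 0x10607050482) (nat_lit 0) (p (nat_lit 0x586848402) (nat_lit 0) (p (nat_lit 0x16000c) (nat_lit 0) (p (nat_lit 0x50612) (nat_lit 0) (p (nat_lit 0x40592) (nat_lit 0) (p (nat_lit 0x40492) (nat_lit 0) (p (nat_lit 0x30412) (nat_lit 0) (p (nat_lit 0x30212) (nat_lit 0) (p (nat_lit 0x20192) (nat_lit 0) (p (nat_lit 0x20092) (nat_lit 0) (p (nat_lit 0x10012) (nat_lit 0) pn))))))))))))))))))))))))))) :=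
  Cl.node (nat_lit 0x119) (nat_lit 2) (by decide +kernel) (ClAll.succ (ClAll.succ ClAll.zero s41) s42)

def n64 : Cl (O (nat_lit 5)) (R (nat_lit 102673))
    (p (nat_lit 0x200004) (nat_lit 0) (p (nat_lit 0xc1) (nat_lit 0) (p (nat_lit 0x81) (nat_lit 1) (p (nat_lit 0x101) (nat_lit 1) (p (nat_lit 0x111) (nat_lit 0) (p (nat_lit 0xd1) (nat_lit 1) (p (nat_lit 0x89) (nat_lit 0) (p (nat_lit 0x41) (nat_lit 0) (p (nat_lit 0x1098a0b090a9a) (nat_lit 0) (p (nat_lit 0x9098a888a1a) (nat_lit 0) (p (nat_lit 0x108890a08079a) (nat_lit 0) (p (nat_lit 0x8088987871a) (nat_lit 0) (p (nat_lit 0x8000000000800078907088a) (nat_lit 0) (p (nat_lit 0x8000000000800070886860a) (nat_lit 0) (p (nat_lit 0x10708060782) (nat_lit 0) (p (nat_lit 0x687858702) (nat_lit 0) (p (nat_lit 0x10607050482) (nat_lit 0) (p (nat_lit 0x586848402) (nat_lit 0) (p (nat_lit 0x16000c) (nat_lit 0) (p (nat_lit 0x50612) (nat_lit 0) (p (nat_lit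 0x40592) (nat_lit 0) (p (nat_lit 0x40492) (nat_lit 0) (p (nat_lit 0x30412) (nat_lit 0) (p (nat_lit 0x30212) (nat_lit 0) (p (nat_lit 0x20192) (nat_lit 0) (p (nat_lit 0x20092) (nat_lit 0) (p (nat_lit 0x10012) (nat_lit 0) pn))))))))))))))))))))))))))) :=
  Cl.node (nat_lit 0x200014) (nat_lit 2) (by decide +kernel) (ClAll.succ (ClAll.succ ClAll.zero n41) s51)

def n65 : Cl (O (nat_lit 5)) (R (nat_lit 102673))
    (p (nat_lit 0x200004) (nat_lit 0) (p (nat_lit 0x101) (nat_lit 0) (p (nat_lit 0xc1) (nat_lit 1) (p (nat_lit 0x81) (nat_lit 1) (p (nat_lit 0x111) (nat_lit 1) (p (nat_lit 0xd1) (nat_lit 1) (p (nat_lit 0x89) (nat_lit 0) (p (nat_lit 0x41) (nat_lit 0) (p (nat_lit 0x1098a0b090a9a) (nat_lit 0) (p (nat_lit 0x9098a888a1a) (nat_lit 0) (p (nat_lit 0x108890a08079a) (nat_lit 0) (p (nat_lit 0x8088987871a) (nat_lit 0) (p (nat_lit 0x8000000000800078907088a) (nat_lit 0) (p (nat_lit 0x8000000000800070886860a)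 (nat_lit 0) (p (nat_lit 0x10708060782) (nat_lit 0) (p (nat_lit 0x687858702) (nat_lit 0) (p (nat_lit 0x10607050482) (nat_lit 0) (p (nat_lit 0x586848402) (nat_lit 0) (p (nat_lit 0x16000c) (nat_lit 0) (p (nat_lit 0x50612) (nat_lit 0) (p (nat_lit 0x40592) (nat_lit 0) (p (nat_lit 0x40492) (nat_lit 0) (p (nat_lit 0x30412) (nat_lit 0) (p (nat_lit 0x30212) (nat_lit 0) (p (nat_lit 0x20192) (nat_lit 0) (p (nat_lit 0x20092) (nat_lit 0) (p (nat_lit 0x10012) (nat_lit 0) pn))))))))))))))))))))))))))) :=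
  Cl.node (nat_lit 0x200014) (nat_lit 2) (by decide +kernel) (ClAll.succ (ClAll.succ ClAll.zero n42) s58)

def n66 : Cl (O (nat_lit 5)) (R (nat_lit 102673))
    (p (nat_lit 0xd1) (nat_lit 1) (p (nat_lit 0x111) (nat_lit 1) (p (nat_lit 0x109) (nat_lit 0) (p (nat_lit 0x101) (nat_lit 0) (p (nat_lit 0x119) (nat_lit 0) (p (nat_lit 0xc9) (nat_lit 0) (p (nat_lit 0x89) (nat_lit 1) (p (nat_lit 0x41) (nat_lit 0) (p (nat_lit 0x1098a0b090a9a) (nat_lit 0) (p (nat_lit 0x9098a888a1a) (nat_lit 0) (p (nat_lit 0x108890a08079a) (nat_lit 0) (p (nat_lit 0x8088987871a) (nat_lit 0) (p (nat_lit 0x8000000000800078907088a) (nat_lit 0) (p (nat_lit 0x8000000000800070886860a) (nat_lit 0) (p (nat_lit 0x10708060782) (nat_lit 0) (p (nat_lit 0x687858702) (nat_lit 0) (p (nat_lit 0x10607050482) (nat_lit 0) (p (nat_lit 0x586848402) (nat_lit 0) (p (nat_lit 0x16000c) (nat_lit 0) (p (nat_lit 0x50612) (nat_lit 0) (p (nat_lit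 0x40592) (nat_lit 0) (p (nat_lit 0x40492) (nat_lit 0) (p (nat_lit 0x30412) (nat_lit 0) (p (nat_lit 0x30212) (nat_lit 0) (p (nat_lit 0x20192) (nat_lit 0) (p (nat_lit 0x20092) (nat_lit 0) (p (nat_lit 0x10012) (nat_lit 0) pn))))))))))))))))))))))))))) :=
  Cl.node (nat_lit 0x200004) (nat_lit 2) (by decide +kernel) (ClAll.succ (ClAll.succ ClAll.zero n43) s65)

def n67 : Cl (O (nat_lit 5)) (R (nat_lit 102673))
    (p (nat_lit 0x200004) (nat_lit 0) (p (nat_lit 0xd1) (nat_lit 0) (p (nat_lit 0x109) (nat_lit 1) (p (nat_lit 0x101) (nat_lit 0) (p (nat_lit 0x119) (nat_lit 0) (p (nat_lit 0xc9) (nat_lit 0) (p (nat_lit 0x89) (nat_lit 1) (p (nat_lit 0x41) (nat_lit 0) (p (nat_lit 0x1098a0b090a9a) (nat_lit 0) (p (nat_lit 0x9098a888a1a) (nat_lit 0) (p (nat_lit 0x108890a08079a) (nat_lit 0) (p (nat_lit 0x8088987871a) (nat_lit 0) (p (nat_lit 0x8000000000800078907088a) (nat_lit 0) (p (nat_lit 0x8000000000800070886860a)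 (nat_lit 0) (p (nat_lit 0x10708060782) (nat_lit 0) (p (nat_lit 0x687858702) (nat_lit 0) (p (nat_lit 0x10607050482) (nat_lit 0) (p (nat_lit 0x586848402) (nat_lit 0) (p (nat_lit 0x16000c) (nat_lit 0) (p (nat_lit 0x50612) (nat_lit 0) (p (nat_lit 0x40592) (nat_lit 0) (p (nat_lit 0x40492) (nat_lit 0) (p (nat_lit 0x30412) (nat_lit 0) (p (nat_lit 0x30212) (nat_lit 0) (p (nat_lit 0x20192) (nat_lit 0) (p (nat_lit 0x20092) (nat_lit 0) (p (nat_lit 0x10012) (nat_lit 0) pn))))))))))))))))))))))))))) :=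
  Cl.node (nat_lit 0x200014) (nat_lit 2) (by decide +kernel) (ClAll.succ (ClAll.succ ClAll.zero n44) s68)

def n68 : Cl (O (nat_lit 5)) (R (nat_lit 102673))
    (p (nat_lit 0x200004) (nat_lit 0) (p (nat_lit 0xd1) (nat_lit 1) (p (nat_lit 0x109) (nat_lit 1) (p (nat_lit 0x101) (nat_lit 0) (p (nat_lit 0x119) (nat_lit 0) (p (nat_lit 0xc9) (nat_lit 0) (p (nat_lit 0x89) (nat_lit 1) (p (nat_lit 0x41) (nat_lit 0) (p (nat_lit 0x1098a0b090a9a) (nat_lit 0) (p (nat_lit 0x9098a888a1a) (nat_lit 0) (p (nat_lit 0x108890a08079a) (nat_lit 0) (p (nat_lit 0x8088987871a) (nat_lit 0) (p (nat_lit 0x8000000000800078907088a) (nat_lit 0) (p (nat_lit 0x8000000000800070886860a) (nat_lit 0) (p (nat_lit 0x10708060782) (nat_lit 0) (p (nat_lit 0x687858702) (nat_lit 0) (p (nat_lit 0x10607050482) (nat_lit 0) (p (nat_lit 0x586848402) (nat_lit 0) (p (nat_lit 0x16000c) (nat_lit 0) (p (nat_lit 0x50612) (nat_lit 0) (p (nat_lit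 0x40592) (nat_lit 0) (p (nat_lit 0x40492) (nat_lit 0) (p (nat_lit 0x30412) (nat_lit 0) (p (nat_lit 0x30212) (nat_lit 0) (p (nat_lit 0x20192) (nat_lit 0) (p (nat_lit 0x20092) (nat_lit 0) (p (nat_lit 0x10012) (nat_lit 0) pn))))))))))))))))))))))))))) :=
  Cl.node (nat_lit 0x200014) (nat_lit 2) (by decide +kernel) (ClAll.succ (ClAll.succ ClAll.zero n45) s82)

def n69 : Cl (O (nat_lit 5)) (R (nat_lit 102673))
    (p (nat_lit 0x200004) (nat_lit 0) (p (nat_lit 0xd1) (nat_lit 0) (p (nat_lit 0xc1) (nat_lit 0) (p (nat_lit 0x101) (nat_lit 1) (p (nat_lit 0x119) (nat_lit 0) (p (nat_lit 0xc9) (nat_lit 0) (p (nat_lit 0x89) (nat_lit 1) (p (nat_lit 0x41) (nat_lit 0) (p (nat_lit 0x1098a0b090a9a) (nat_lit 0) (p (nat_lit 0x9098a888a1a) (nat_lit 0) (p (nat_lit 0x108890a08079a) (nat_lit 0) (p (nat_lit 0x8088987871a) (nat_lit 0) (p (nat_lit 0x8000000000800078907088a) (nat_lit 0) (p (nat_lit 0x8000000000800070886860a)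 (nat_lit 0) (p (nat_lit 0x10708060782) (nat_lit 0) (p (nat_lit 0x687858702) (nat_lit 0) (p (nat_lit 0x10607050482) (nat_lit 0) (p (nat_lit 0x586848402) (nat_lit 0) (p (nat_lit 0x16000c) (nat_lit 0) (p (nat_lit 0x50612) (nat_lit 0) (p (nat_lit 0x40592) (nat_lit 0) (p (nat_lit 0x40492) (nat_lit 0) (p (nat_lit 0x30412) (nat_lit 0) (p (nat_lit 0x30212) (nat_lit 0) (p (nat_lit 0x20192) (nat_lit 0) (p (nat_lit 0x20092) (nat_lit 0) (p (nat_lit 0x10012) (nat_lit 0) pn))))))))))))))))))))))))))) :=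
  Cl.node (nat_lit 0x200014) (nat_lit 2) (by decide +kernel) (ClAll.succ (ClAll.succ ClAll.zero n46) s86)

def n70 : Cl (O (nat_lit 5)) (R (nat_lit 102673))
    (p (nat_lit 0x200004) (nat_lit 0) (p (nat_lit 0xd1) (nat_lit 1) (p (nat_lit 0xc1) (nat_lit 0) (p (nat_lit 0x101) (nat_lit 1) (p (nat_lit 0x119) (nat_lit 0) (p (nat_lit 0xc9) (nat_lit 0) (p (nat_lit 0x89) (nat_lit 1) (p (nat_lit 0x41) (nat_lit 0) (p (nat_lit 0x1098a0b090a9a) (nat_lit 0) (p (nat_lit 0x9098a888a1a) (nat_lit 0) (p (nat_lit 0x108890a08079a) (nat_lit 0) (p (nat_lit 0x8088987871a) (nat_lit 0) (p (nat_lit 0x8000000000800078907088a) (nat_lit 0) (p (nat_lit 0x8000000000800070886860a) (nat_lit 0) (p (nat_lit 0x10708060782) (nat_lit 0) (p (nat_lit 0x687858702) (nat_lit 0) (p (nat_lit 0x10607050482) (nat_lit 0) (p (nat_lit 0x586848402) (nat_lit 0) (p (nat_lit 0x16000c) (nat_lit 0) (p (nat_lit 0x50612) (nat_lit 0) (p (nat_lit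 0x40592) (nat_lit 0) (p (nat_lit 0x40492) (nat_lit 0) (p (nat_lit 0x30412) (nat_lit 0) (p (nat_lit 0x30212) (nat_lit 0) (p (nat_lit 0x20192) (nat_lit 0) (p (nat_lit 0x20092) (nat_lit 0) (p (nat_lit 0x10012) (nat_lit 0) pn))))))))))))))))))))))))))) :=
  Cl.node (nat_lit 0x200014) (nat_lit 2) (by decide +kernel) (ClAll.succ (ClAll.succ ClAll.zero n47) s93)

def n71 : Cl (O (nat_lit 5)) (R (nat_lit 102673))
    (p (nat_lit 0x200004) (nat_lit 0) (p (nat_lit 0x111) (nat_lit 1) (p (nat_lit 0xd1) (nat_lit 1) (p (nat_lit 0xc1) (nat_lit 0) (p (nat_lit 0x119) (nat_lit 1) (p (nat_lit 0xc9) (nat_lit 0) (p (nat_lit 0x89) (nat_lit 1) (p (nat_lit 0x41) (nat_lit 0) (p (nat_lit 0x1098a0b090a9a) (nat_lit 0) (p (nat_lit 0x9098a888a1a) (nat_lit 0) (p (nat_lit 0x108890a08079a) (nat_lit 0) (p (nat_lit 0x8088987871a) (nat_lit 0) (p (nat_lit 0x8000000000800078907088a) (nat_lit 0) (p (nat_lit 0x8000000000800070886860a)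 (nat_lit 0) (p (nat_lit 0x10708060782) (nat_lit 0) (p (nat_lit 0x687858702) (nat_lit 0) (p (nat_lit 0x10607050482) (nat_lit 0) (p (nat_lit 0x586848402) (nat_lit 0) (p (nat_lit 0x16000c) (nat_lit 0) (p (nat_lit 0x50612) (nat_lit 0) (p (nat_lit 0x40592) (nat_lit 0) (p (nat_lit 0x40492) (nat_lit 0) (p (nat_lit 0x30412) (nat_lit 0) (p (nat_lit 0x30212) (nat_lit 0) (p (nat_lit 0x20192) (nat_lit 0) (p (nat_lit 0x20092) (nat_lit 0) (p (nat_lit 0x10012) (nat_lit 0) pn))))))))))))))))))))))))))) :=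
  Cl.node (nat_lit 0x200014) (nat_lit 2) (by decide +kernel) (ClAll.succ (ClAll.succ ClAll.zero n48) s100)

def n72 : Cl (O (nat_lit 5)) (R (nat_lit 102673))
    (p (nat_lit 0x200004) (nat_lit 0) (p (nat_lit 0x111) (nat_lit 0) (p (nat_lit 0x101) (nat_lit 0) (p (nat_lit 0xc1) (nat_lit 1) (p (nat_lit 0x119) (nat_lit 1) (p (nat_lit 0xc9) (nat_lit 0) (p (nat_lit 0x89) (nat_lit 1) (p (nat_lit 0x41) (nat_lit 0) (p (nat_lit 0x1098a0b090a9a) (nat_lit 0) (p (nat_lit 0x9098a888a1a) (nat_lit 0) (p (nat_lit 0x108890a08079a) (nat_lit 0) (p (nat_lit 0x8088987871a) (nat_lit 0) (p (nat_lit 0x8000000000800078907088a) (nat_lit 0) (p (nat_lit 0x8000000000800070886860a) (nat_lit 0) (p (nat_lit 0x10708060782) (nat_lit 0) (p (nat_lit 0x687858702) (nat_lit 0) (p (nat_lit 0x10607050482) (nat_lit 0) (p (nat_lit 0x586848402) (nat_lit 0) (p (nat_lit 0x16000c) (nat_lit 0) (p (nat_lit 0x50612) (nat_lit 0) (p (nat_lit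 0x40592) (nat_lit 0) (p (nat_lit 0x40492) (nat_lit 0) (p (nat_lit 0x30412) (nat_lit 0) (p (nat_lit 0x30212) (nat_lit 0) (p (nat_lit 0x20192) (nat_lit 0) (p (nat_lit 0x20092) (nat_lit 0) (p (nat_lit 0x10012) (nat_lit 0) pn))))))))))))))))))))))))))) :=
  Cl.node (nat_lit 0x200014) (nat_lit 2) (by decide +kernel) (ClAll.succ (ClAll.succ ClAll.zero n49) s105)

def n73 : Cl (O (nat_lit 5)) (R (nat_lit 102673))
    (p (nat_lit 0x200004) (nat_lit 0) (p (nat_lit 0x111) (nat_lit 1) (p (nat_lit 0x101) (nat_lit 0) (p (nat_lit 0xc1) (nat_lit 1) (p (nat_lit 0x119) (nat_lit 1) (p (nat_lit 0xc9) (nat_lit 0) (p (nat_lit 0x89) (nat_lit 1) (p (nat_lit 0x41) (nat_lit 0) (p (nat_lit 0x1098a0b090a9a) (nat_lit 0) (p (nat_lit 0x9098a888a1a) (nat_lit 0) (p (nat_lit 0x108890a08079a) (nat_lit 0) (p (nat_lit 0x8088987871a) (nat_lit 0) (p (nat_lit 0x8000000000800078907088a) (nat_lit 0) (p (nat_lit 0x8000000000800070886860a)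 (nat_lit 0) (p (nat_lit 0x10708060782) (nat_lit 0) (p (nat_lit 0x687858702) (nat_lit 0) (p (nat_lit 0x10607050482) (nat_lit 0) (p (nat_lit 0x586848402) (nat_lit 0) (p (nat_lit 0x16000c) (nat_lit 0) (p (nat_lit 0x50612) (nat_lit 0) (p (nat_lit 0x40592) (nat_lit 0) (p (nat_lit 0x40492) (nat_lit 0) (p (nat_lit 0x30412) (nat_lit 0) (p (nat_lit 0x30212) (nat_lit 0) (p (nat_lit 0x20192) (nat_lit 0) (p (nat_lit 0x20092) (nat_lit 0) (p (nat_lit 0x10012) (nat_lit 0) pn))))))))))))))))))))))))))) :=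
  Cl.node (nat_lit 0x200014) (nat_lit 2) (by decide +kernel) (ClAll.succ (ClAll.succ ClAll.zero n50) s111)

def n74 : Cl (O (nat_lit 5)) (R (nat_lit 102673))
    (p (nat_lit 0x200004) (nat_lit 0) (p (nat_lit 0x89) (nat_lit 1) (p (nat_lit 0xc1) (nat_lit 1) (p (nat_lit 0x101) (nat_lit 1) (p (nat_lit 0x119) (nat_lit 0) (p (nat_lit 0xd1) (nat_lit 0) (p (nat_lit 0x81) (nat_lit 0) (p (nat_lit 0x41) (nat_lit 1) (p (nat_lit 0x1098a0b090a9a) (nat_lit 0) (p (nat_lit 0x9098a888a1a) (nat_lit 0) (p (nat_lit 0x108890a08079a) (nat_lit 0) (p (nat_lit 0x8088987871a) (nat_lit 0) (p (nat_lit 0x8000000000800078907088a) (nat_lit 0) (p (nat_lit 0x8000000000800070886860a) (nat_lit 0) (p (nat_lit 0x10708060782) (nat_lit 0) (p (nat_lit 0x687858702) (nat_lit 0) (p (nat_lit 0x10607050482) (nat_lit 0) (p (nat_lit 0x586848402) (nat_lit 0) (p (nat_lit 0x16000c) (nat_lit 0) (p (nat_lit 0x50612) (nat_lit 0) (p (nat_lit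 0x40592) (nat_lit 0) (p (nat_lit 0x40492) (nat_lit 0) (p (nat_lit 0x30412) (nat_lit 0) (p (nat_lit 0x30212) (nat_lit 0) (p (nat_lit 0x20192) (nat_lit 0) (p (nat_lit 0x20092) (nat_lit 0) (p (nat_lit 0x10012) (nat_lit 0) pn))))))))))))))))))))))))))) :=
  Cl.node (nat_lit 0x200014) (nat_lit 2) (by decide +kernel) (ClAll.succ (ClAll.succ ClAll.zero n51) s133)

def n75 : Cl (O (nat_lit 5)) (R (nat_lit 102673))
    (p (nat_lit 0x109) (nat_lit 0) (p (nat_lit 0x89) (nat_lit 1) (p (nat_lit 0xc9) (nat_lit 1) (p (nat_lit 0xc1) (nat_lit 0) (p (nat_lit 0x119) (nat_lit 1) (p (nat_lit 0xd1) (nat_lit 0) (p (nat_lit 0x81) (nat_lit 0) (p (nat_lit 0x41) (nat_lit 1) (p (nat_lit 0x1098a0b090a9a) (nat_lit 0) (p (nat_lit 0x9098a888a1a) (nat_lit 0) (p (nat_lit 0x108890a08079a) (nat_lit 0) (p (nat_lit 0x8088987871a) (nat_lit 0) (p (nat_lit 0x8000000000800078907088a) (nat_lit 0) (p (nat_lit 0x8000000000800070886860a)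 (nat_lit 0) (p (nat_lit 0x10708060782) (nat_lit 0) (p (nat_lit 0x687858702) (nat_lit 0) (p (nat_lit 0x10607050482) (nat_lit 0) (p (nat_lit 0x586848402) (nat_lit 0) (p (nat_lit 0x16000c) (nat_lit 0) (p (nat_lit 0x50612) (nat_lit 0) (p (nat_lit 0x40592) (nat_lit 0) (p (nat_lit 0x40492) (nat_lit 0) (p (nat_lit 0x30412) (nat_lit 0) (p (nat_lit 0x30212) (nat_lit 0) (p (nat_lit 0x20192) (nat_lit 0) (p (nat_lit 0x20092) (nat_lit 0) (p (nat_lit 0x10012) (nat_lit 0) pn))))))))))))))))))))))))))) :=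
  Cl.node (nat_lit 0x200004) (nat_lit 2) (by decide +kernel) (ClAll.succ (ClAll.succ ClAll.zero n52) s140)

def n76 : Cl (O (nat_lit 5)) (R (nat_lit 102673))
    (p (nat_lit 0x200004) (nat_lit 0) (p (nat_lit 0x89) (nat_lit 1) (p (nat_lit 0x101) (nat_lit 1) (p (nat_lit 0xc1) (nat_lit 1) (p (nat_lit 0x119) (nat_lit 1) (p (nat_lit 0xd1) (nat_lit 0) (p (nat_lit 0x81) (nat_lit 0) (p (nat_lit 0x41) (nat_lit 1) (p (nat_lit 0x1098a0b090a9a) (nat_lit 0) (p (nat_lit 0x9098a888a1a) (nat_lit 0) (p (nat_lit 0x108890a08079a) (nat_lit 0) (p (nat_lit 0x8088987871a) (nat_lit 0) (p (nat_lit 0x8000000000800078907088a) (nat_lit 0) (p (nat_lit 0x8000000000800070886860a) (nat_lit 0) (p (nat_lit 0x10708060782) (nat_lit 0) (p (nat_lit 0x687858702) (nat_lit 0) (p (nat_lit 0x10607050482) (nat_lit 0) (p (nat_lit 0x586848402) (nat_lit 0) (p (nat_lit 0x16000c) (nat_lit 0) (p (nat_lit 0x50612) (nat_lit 0) (p (nat_lit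 0x40592) (nat_lit 0) (p (nat_lit 0x40492) (nat_lit 0) (p (nat_lit 0x30412) (nat_lit 0) (p (nat_lit 0x30212) (nat_lit 0) (p (nat_lit 0x20192) (nat_lit 0) (p (nat_lit 0x20092) (nat_lit 0) (p (nat_lit 0x10012) (nat_lit 0) pn))))))))))))))))))))))))))) :=
  Cl.node (nat_lit 0x200014) (nat_lit 2) (by decide +kernel) (ClAll.succ (ClAll.succ ClAll.zero n53) s149)

def n77 : Cl (O (nat_lit 5)) (R (nat_lit 102673))
    (p (nat_lit 0xc9) (nat_lit 0) (p (nat_lit 0x89) (nat_lit 1) (p (nat_lit 0x109) (nat_lit 1) (p (nat_lit 0x101) (nat_lit 0) (p (nat_lit 0x111) (nat_lit 0) (p (nat_lit 0xd1) (nat_lit 1) (p (nat_lit 0x81) (nat_lit 0) (p (nat_lit 0x41) (nat_lit 1) (p (nat_lit 0x1098a0b090a9a) (nat_lit 0) (p (nat_lit 0x9098a888a1a) (nat_lit 0) (p (nat_lit 0x108890a08079a) (nat_lit 0) (p (nat_lit 0x8088987871a) (nat_lit 0) (p (nat_lit 0x8000000000800078907088a) (nat_lit 0) (p (nat_lit 0x8000000000800070886860a)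 (nat_lit 0) (p (nat_lit 0x10708060782) (nat_lit 0) (p (nat_lit 0x687858702) (nat_lit 0) (p (nat_lit 0x10607050482) (nat_lit 0) (p (nat_lit 0x586848402) (nat_lit 0) (p (nat_lit 0x16000c) (nat_lit 0) (p (nat_lit 0x50612) (nat_lit 0) (p (nat_lit 0x40592) (nat_lit 0) (p (nat_lit 0x40492) (nat_lit 0) (p (nat_lit 0x30412) (nat_lit 0) (p (nat_lit 0x30212) (nat_lit 0) (p (nat_lit 0x20192) (nat_lit 0) (p (nat_lit 0x20092) (nat_lit 0) (p (nat_lit 0x10012) (nat_lit 0) pn))))))))))))))))))))))))))) :=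
  Cl.node (nat_lit 0x200004) (nat_lit 2) (by decide +kernel) (ClAll.succ (ClAll.succ ClAll.zero n54) s157)

def n78 : Cl (O (nat_lit 5)) (R (nat_lit 102673))
    (p (nat_lit 0x200014) (nat_lit 0) (p (nat_lit 0x200004) (nat_lit 0) (p (nat_lit 0x89) (nat_lit 0) (p (nat_lit 0x101) (nat_lit 1) (p (nat_lit 0x111) (nat_lit 0) (p (nat_lit 0xd1) (nat_lit 1) (p (nat_lit 0x81) (nat_lit 0) (p (nat_lit 0x41) (nat_lit 1) (p (nat_lit 0x1098a0b090a9a) (nat_lit 0) (p (nat_lit 0x9098a888a1a) (nat_lit 0) (p (nat_lit 0x108890a08079a) (nat_lit 0) (p (nat_lit 0x8088987871a) (nat_lit 0) (p (nat_lit 0x8000000000800078907088a) (nat_lit 0) (p (nat_lit 0x8000000000800070886860a) (nat_lit 0) (p (nat_lit 0x10708060782) (nat_lit 0) (p (nat_lit 0x687858702) (nat_lit 0) (p (nat_lit 0x10607050482) (nat_lit 0) (p (nat_lit 0x586848402) (nat_lit 0) (p (nat_lit 0x16000c) (nat_lit 0) (p (nat_lit 0x50612) (nat_lit 0) (p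 (nat_lit 0x40592) (nat_lit 0) (p (nat_lit 0x40492) (nat_lit 0) (p (nat_lit 0x30412) (nat_lit 0) (p (nat_lit 0x30212) (nat_lit 0) (p (nat_lit 0x20192) (nat_lit 0) (p (nat_lit 0x20092) (nat_lit 0) (p (nat_lit 0x10012) (nat_lit 0) pn))))))))))))))))))))))))))) :=
  Cl.node (nat_lit 0xb000c) (nat_lit 2) (by decide +kernel) (ClAll.succ (ClAll.succ ClAll.zero s159) s160)

def n79 : Cl (O (nat_lit 5)) (R (nat_lit 102673))
    (p (nat_lit 0x200004) (nat_lit 0) (p (nat_lit 0xc9) (nat_lit 0) (p (nat_lit 0x89) (nat_lit 1) (p (nat_lit 0x101) (nat_lit 1) (p (nat_lit 0x111) (nat_lit 0) (p (nat_lit 0xd1) (nat_lit 1) (p (nat_lit 0x81) (nat_lit 0) (p (nat_lit 0x41) (nat_lit 1) (p (nat_lit 0x1098a0b090a9a) (nat_lit 0) (p (nat_lit 0x9098a888a1a) (nat_lit 0) (p (nat_lit 0x108890a08079a) (nat_lit 0) (p (nat_lit 0x8088987871a) (nat_lit 0) (p (nat_lit 0x8000000000800078907088a) (nat_lit 0) (p (nat_lit 0x8000000000800070886860a)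 (nat_lit 0) (p (nat_lit 0x10708060782) (nat_lit 0) (p (nat_lit 0x687858702) (nat_lit 0) (p (nat_lit 0x10607050482) (nat_lit 0) (p (nat_lit 0x586848402) (nat_lit 0) (p (nat_lit 0x16000c) (nat_lit 0) (p (nat_lit 0x50612) (nat_lit 0) (p (nat_lit 0x40592) (nat_lit 0) (p (nat_lit 0x40492) (nat_lit 0) (p (nat_lit 0x30412) (nat_lit 0) (p (nat_lit 0x30212) (nat_lit 0) (p (nat_lit 0x20192) (nat_lit 0) (p (nat_lit 0x20092) (nat_lit 0) (p (nat_lit 0x10012) (nat_lit 0) pn))))))))))))))))))))))))))) :=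
  Cl.node (nat_lit 0x200014) (nat_lit 2) (by decide +kernel) (ClAll.succ (ClAll.succ ClAll.zero n55) s168)

def n80 : Cl (O (nat_lit 5)) (R (nat_lit 102673))
    (p (nat_lit 0x200004) (nat_lit 0) (p (nat_lit 0x109) (nat_lit 0) (p (nat_lit 0xc9) (nat_lit 1) (p (nat_lit 0x89) (nat_lit 1) (p (nat_lit 0x111) (nat_lit 1) (p (nat_lit 0xd1) (nat_lit 1) (p (nat_lit 0x81) (nat_lit 0) (p (nat_lit 0x41) (nat_lit 1) (p (nat_lit 0x1098a0b090a9a) (nat_lit 0) (p (nat_lit 0x9098a888a1a) (nat_lit 0) (p (nat_lit 0x108890a08079a) (nat_lit 0) (p (nat_lit 0x8088987871a) (nat_lit 0) (p (nat_lit 0x8000000000800078907088a) (nat_lit 0) (p (nat_lit 0x8000000000800070886860a) (nat_lit 0) (p (nat_lit 0x10708060782) (nat_lit 0) (p (nat_lit 0x687858702) (nat_lit 0) (p (nat_lit 0x10607050482) (nat_lit 0) (p (nat_lit 0x586848402) (nat_lit 0) (p (nat_lit 0x16000c) (nat_lit 0) (p (nat_lit 0x50612) (nat_lit 0) (p (nat_lit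 0x40592) (nat_lit 0) (p (nat_lit 0x40492) (nat_lit 0) (p (nat_lit 0x30412) (nat_lit 0) (p (nat_lit 0x30212) (nat_lit 0) (p (nat_lit 0x20192) (nat_lit 0) (p (nat_lit 0x20092) (nat_lit 0) (p (nat_lit 0x10012) (nat_lit 0) pn))))))))))))))))))))))))))) :=
  Cl.node (nat_lit 0x200014) (nat_lit 2) (by decide +kernel) (ClAll.succ (ClAll.succ ClAll.zero n56) s175)

def n81 : Cl (O (nat_lit 5)) (R (nat_lit 102673))
    (p (nat_lit 0xd1) (nat_lit 1) (p (nat_lit 0x111) (nat_lit 1) (p (nat_lit 0x109) (nat_lit 0) (p (nat_lit 0x101) (nat_lit 0) (p (nat_lit 0x119) (nat_lit 0) (p (nat_lit 0xc1) (nat_lit 0) (p (nat_lit 0x81) (nat_lit 1) (p (nat_lit 0x41) (nat_lit 1) (p (nat_lit 0x1098a0b090a9a) (nat_lit 0) (p (nat_lit 0x9098a888a1a) (nat_lit 0) (p (nat_lit 0x108890a08079a) (nat_lit 0) (p (nat_lit 0x8088987871a) (nat_lit 0) (p (nat_lit 0x8000000000800078907088a) (nat_lit 0) (p (nat_lit 0x8000000000800070886860a)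 (nat_lit 0) (p (nat_lit 0x10708060782) (nat_lit 0) (p (nat_lit 0x687858702) (nat_lit 0) (p (nat_lit 0x10607050482) (nat_lit 0) (p (nat_lit 0x586848402) (nat_lit 0) (p (nat_lit 0x16000c) (nat_lit 0) (p (nat_lit 0x50612) (nat_lit 0) (p (nat_lit 0x40592) (nat_lit 0) (p (nat_lit 0x40492) (nat_lit 0) (p (nat_lit 0x30412) (nat_lit 0) (p (nat_lit 0x30212) (nat_lit 0) (p (nat_lit 0x20192) (nat_lit 0) (p (nat_lit 0x20092) (nat_lit 0) (p (nat_lit 0x10012) (nat_lit 0) pn))))))))))))))))))))))))))) :=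
  Cl.node (nat_lit 0x200004) (nat_lit 2) (by decide +kernel) (ClAll.succ (ClAll.succ ClAll.zero s180) s181)

def n82 : Cl (O (nat_lit 5)) (R (nat_lit 102673))
    (p (nat_lit 0x200004) (nat_lit 0) (p (nat_lit 0xd1) (nat_lit 1) (p (nat_lit 0xc9) (nat_lit 0) (p (nat_lit 0x101) (nat_lit 1) (p (nat_lit 0x119) (nat_lit 0) (p (nat_lit 0xc1) (nat_lit 0) (p (nat_lit 0x81) (nat_lit 1) (p (nat_lit 0x41) (nat_lit 1) (p (nat_lit 0x1098a0b090a9a) (nat_lit 0) (p (nat_lit 0x9098a888a1a) (nat_lit 0) (p (nat_lit 0x108890a08079a) (nat_lit 0) (p (nat_lit 0x8088987871a) (nat_lit 0) (p (nat_lit 0x8000000000800078907088a) (nat_lit 0) (p (nat_lit 0x8000000000800070886860a) (nat_lit 0) (p (nat_lit 0x10708060782) (nat_lit 0) (p (nat_lit 0x687858702) (nat_lit 0) (p (nat_lit 0x10607050482) (nat_lit 0) (p (nat_lit 0x586848402) (nat_lit 0) (p (nat_lit 0x16000c) (nat_lit 0) (p (nat_lit 0x50612) (nat_lit 0) (p (nat_lit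 0x40592) (nat_lit 0) (p (nat_lit 0x40492) (nat_lit 0) (p (nat_lit 0x30412) (nat_lit 0) (p (nat_lit 0x30212) (nat_lit 0) (p (nat_lit 0x20192) (nat_lit 0) (p (nat_lit 0x20092) (nat_lit 0) (p (nat_lit 0x10012) (nat_lit 0) pn))))))))))))))))))))))))))) :=
  Cl.node (nat_lit 0x200014) (nat_lit 2) (by decide +kernel) (ClAll.succ (ClAll.succ ClAll.zero s186) s187)

def n83 : Cl (O (nat_lit 5)) (R (nat_lit 102673))
    (p (nat_lit 0xc9) (nat_lit 1) (p (nat_lit 0x109) (nat_lit 1) (p (nat_lit 0x101) (nat_lit 0) (p (nat_lit 0x119) (nat_lit 0) (p (nat_lit 0xd1) (nat_lit 0) (p (nat_lit 0x89) (nat_lit 0) (p (nat_lit 0x41) (nat_lit 0) (p (nat_lit 0x1098a0b090a9a) (nat_lit 0) (p (nat_lit 0x9098a888a1a) (nat_lit 0) (p (nat_lit 0x108890a08079a) (nat_lit 0) (p (nat_lit 0x8088987871a) (nat_lit 0) (p (nat_lit 0x8000000000800078907088a) (nat_lit 0) (p (nat_lit 0x8000000000800070886860a) (nat_lit 0) (p (nat_lit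 0x10708060782) (nat_lit 0) (p (nat_lit 0x687858702) (nat_lit 0) (p (nat_lit 0x10607050482) (nat_lit 0) (p (nat_lit 0x586848402) (nat_lit 0) (p (nat_lit 0x16000c) (nat_lit 0) (p (nat_lit 0x50612) (nat_lit 0) (p (nat_lit 0x40592) (nat_lit 0) (p (nat_lit 0x40492) (nat_lit 0) (p (nat_lit 0x30412) (nat_lit 0) (p (nat_lit 0x30212) (nat_lit 0) (p (nat_lit 0x20192) (nat_lit 0) (p (nat_lit 0x20092) (nat_lit 0) (p (nat_lit 0x10012) (nat_lit 0) pn)))))))))))))))))))))))))) :=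
  Cl.node (nat_lit 0x200004) (nat_lit 2) (by decide +kernel) (ClAll.succ (ClAll.succ ClAll.zero n57) s5)

def n84 : Cl (O (nat_lit 5)) (R (nat_lit 102673))
    (p (nat_lit 0xc9) (nat_lit 1) (p (nat_lit 0x81) (nat_lit 0) (p (nat_lit 0x101) (nat_lit 1) (p (nat_lit 0x119) (nat_lit 0) (p (nat_lit 0xd1) (nat_lit 0) (p (nat_lit 0x89) (nat_lit 0) (p (nat_lit 0x41) (nat_lit 0) (p (nat_lit 0x1098a0b090a9a) (nat_lit 0) (p (nat_lit 0x9098a888a1a) (nat_lit 0) (p (nat_lit 0x108890a08079a) (nat_lit 0) (p (nat_lit 0x8088987871a) (nat_lit 0) (p (nat_lit 0x8000000000800078907088a) (nat_lit 0) (p (nat_lit 0x8000000000800070886860a) (nat_lit 0) (p (nat_lit 0x10708060782) (nat_lit 0) (p (nat_lit 0x687858702) (nat_lit 0) (p (nat_lit 0x10607050482) (nat_lit 0) (p (nat_lit 0x586848402) (nat_lit 0) (p (nat_lit 0x16000c) (nat_lit 0) (p (nat_lit 0x50612) (nat_lit 0) (p (nat_lit 0x40592) (nat_lit 0) (p (nat_lit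 0x40492) (nat_lit 0) (p (nat_lit 0x30412) (nat_lit 0) (p (nat_lit 0x30212) (nat_lit 0) (p (nat_lit 0x20192) (nat_lit 0) (p (nat_lit 0x20092) (nat_lit 0) (p (nat_lit 0x10012) (nat_lit 0) pn)))))))))))))))))))))))))) :=
  Cl.node (nat_lit 0x200004) (nat_lit 2) (by decide +kernel) (ClAll.succ (ClAll.succ ClAll.zero n58) s12)

def n85 : Cl (O (nat_lit 5)) (R (nat_lit 102673))
    (p (nat_lit 0xc1) (nat_lit 0) (p (nat_lit 0x81) (nat_lit 1) (p (nat_lit 0x101) (nat_lit 1) (p (nat_lit 0x119) (nat_lit 0) (p (nat_lit 0xd1) (nat_lit 0) (p (nat_lit 0x89) (nat_lit 0) (p (nat_lit 0x41) (nat_lit 0) (p (nat_lit 0x1098a0b090a9a) (nat_lit 0) (p (nat_lit 0x9098a888a1a) (nat_lit 0) (p (nat_lit 0x108890a08079a) (nat_lit 0) (p (nat_lit 0x8088987871a) (nat_lit 0) (p (nat_lit 0x8000000000800078907088a) (nat_lit 0) (p (nat_lit 0x8000000000800070886860a) (nat_lit 0) (p (nat_lit 0x10708060782) (nat_lit 0) (p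 (nat_lit 0x687858702) (nat_lit 0) (p (nat_lit 0x10607050482) (nat_lit 0) (p (nat_lit 0x586848402) (nat_lit 0) (p (nat_lit 0x16000c) (nat_lit 0) (p (nat_lit 0x50612) (nat_lit 0) (p (nat_lit 0x40592) (nat_lit 0) (p (nat_lit 0x40492) (nat_lit 0) (p (nat_lit 0x30412) (nat_lit 0) (p (nat_lit 0x30212) (nat_lit 0) (p (nat_lit 0x20192) (nat_lit 0) (p (nat_lit 0x20092) (nat_lit 0) (p (nat_lit 0x10012) (nat_lit 0) pn)))))))))))))))))))))))))) :=
  Cl.node (nat_lit 0xc9) (nat_lit 2) (by decide +kernel) (ClAll.succ (ClAll.succ ClAll.zero s13) n59)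

def n86 : Cl (O (nat_lit 5)) (R (nat_lit 102673))
    (p (nat_lit 0x109) (nat_lit 1) (p (nat_lit 0xc9) (nat_lit 1) (p (nat_lit 0xc1) (nat_lit 0) (p (nat_lit 0x119) (nat_lit 1) (p (nat_lit 0xd1) (nat_lit 0) (p (nat_lit 0x89) (nat_lit 0) (p (nat_lit 0x41) (nat_lit 0) (p (nat_lit 0x1098a0b090a9a) (nat_lit 0) (p (nat_lit 0x9098a888a1a) (nat_lit 0) (p (nat_lit 0x108890a08079a) (nat_lit 0) (p (nat_lit 0x8088987871a) (nat_lit 0) (p (nat_lit 0x8000000000800078907088a) (nat_lit 0) (p (nat_lit 0x8000000000800070886860a) (nat_lit 0) (p (nat_lit 0x10708060782) (nat_lit 0) (p (nat_lit 0x687858702) (nat_lit 0) (p (nat_lit 0x10607050482) (nat_lit 0) (p (nat_lit 0x586848402) (nat_lit 0) (p (nat_lit 0x16000c) (nat_lit 0) (p (nat_lit 0x50612) (nat_lit 0) (p (nat_lit 0x40592) (nat_lit 0) (p (nat_lit 0x40492) (nat_lit 0) (p (nat_lit 0x30412) (nat_lit 0) (p (nat_lit 0x30212) (nat_lit 0) (p (nat_lit 0x20192)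 (nat_lit 0) (p (nat_lit 0x20092) (nat_lit 0) (p (nat_lit 0x10012) (nat_lit 0) pn)))))))))))))))))))))))))) :=
  Cl.node (nat_lit 0x200004) (nat_lit 2) (by decide +kernel) (ClAll.succ (ClAll.succ ClAll.zero s22) s23)

def n87 : Cl (O (nat_lit 5)) (R (nat_lit 102673))
    (p (nat_lit 0x109) (nat_lit 1) (p (nat_lit 0x81) (nat_lit 0) (p (nat_lit 0xc1) (nat_lit 1) (p (nat_lit 0x119) (nat_lit 1) (p (nat_lit 0xd1) (nat_lit 0) (p (nat_lit 0x89) (nat_lit 0) (p (nat_lit 0x41) (nat_lit 0) (p (nat_lit 0x1098a0b090a9a) (nat_lit 0) (p (nat_lit 0x9098a888a1a) (nat_lit 0) (p (nat_lit 0x108890a08079a) (nat_lit 0) (p (nat_lit 0x8088987871a) (nat_lit 0) (p (nat_lit 0x8000000000800078907088a) (nat_lit 0) (p (nat_lit 0x8000000000800070886860a) (nat_lit 0) (p (nat_lit 0x10708060782) (nat_lit 0) (p (nat_lit 0x687858702) (nat_lit 0) (p (nat_lit 0x10607050482) (nat_lit 0) (p (nat_lit 0x586848402) (nat_lit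 0) (p (nat_lit 0x16000c) (nat_lit 0) (p (nat_lit 0x50612) (nat_lit 0) (p (nat_lit 0x40592) (nat_lit 0) (p (nat_lit 0x40492) (nat_lit 0) (p (nat_lit 0x30412) (nat_lit 0) (p (nat_lit 0x30212) (nat_lit 0) (p (nat_lit 0x20192) (nat_lit 0) (p (nat_lit 0x20092) (nat_lit 0) (p (nat_lit 0x10012) (nat_lit 0) pn)))))))))))))))))))))))))) :=
  Cl.node (nat_lit 0x200004) (nat_lit 2) (by decide +kernel) (ClAll.succ (ClAll.succ ClAll.zero s25) s26)

def n88 : Cl (O (nat_lit 5)) (R (nat_lit 102673))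
    (p (nat_lit 0x101) (nat_lit 0) (p (nat_lit 0x81) (nat_lit 1) (p (nat_lit 0xc1) (nat_lit 1) (p (nat_lit 0x119) (nat_lit 1) (p (nat_lit 0xd1) (nat_lit 0) (p (nat_lit 0x89) (nat_lit 0) (p (nat_lit 0x41) (nat_lit 0) (p (nat_lit 0x1098a0b090a9a) (nat_lit 0) (p (nat_lit 0x9098a888a1a) (nat_lit 0) (p (nat_lit 0x108890a08079a) (nat_lit 0) (p (nat_lit 0x8088987871a) (nat_lit 0) (p (nat_lit 0x8000000000800078907088a) (nat_lit 0) (p (nat_lit 0x8000000000800070886860a) (nat_lit 0) (p (nat_lit 0x10708060782) (nat_lit 0) (p (nat_lit 0x687858702) (nat_lit 0) (p (nat_lit 0x10607050482) (nat_lit 0) (p (nat_lit 0x586848402) (nat_lit 0) (p (nat_lit 0x16000c) (nat_lit 0) (p (nat_lit 0x50612) (nat_lit 0) (p (nat_lit 0x40592) (nat_lit 0) (p (nat_lit 0x40492) (nat_lit 0) (p (nat_lit 0x30412) (nat_lit 0) (p (nat_lit 0x30212) (nat_lit 0) (p (nat_lit 0x20192) (nat_lit 0) (p (nat_lit 0x20092) (nat_lit 0)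 (p (nat_lit 0x10012) (nat_lit 0) pn)))))))))))))))))))))))))) :=
  Cl.node (nat_lit 0x109) (nat_lit 2) (by decide +kernel) (ClAll.succ (ClAll.succ ClAll.zero n60) n61)

def n89 : Cl (O (nat_lit 5)) (R (nat_lit 102673))
    (p (nat_lit 0x200004) (nat_lit 0) (p (nat_lit 0x109) (nat_lit 1) (p (nat_lit 0x101) (nat_lit 0) (p (nat_lit 0x111) (nat_lit 0) (p (nat_lit 0xd1) (nat_lit 1) (p (nat_lit 0x89) (nat_lit 0) (p (nat_lit 0x41) (nat_lit 0) (p (nat_lit 0x1098a0b090a9a) (nat_lit 0) (p (nat_lit 0x9098a888a1a) (nat_lit 0) (p (nat_lit 0x108890a08079a) (nat_lit 0) (p (nat_lit 0x8088987871a) (nat_lit 0) (p (nat_lit 0x8000000000800078907088a) (nat_lit 0) (p (nat_lit 0x8000000000800070886860a) (nat_lit 0) (p (nat_lit 0x10708060782) (nat_lit 0) (p (nat_lit 0x687858702) (nat_lit 0) (p (nat_lit 0x10607050482) (nat_lit 0) (p (nat_lit 0x586848402) (nat_lit 0) (p (nat_lit 0x16000c) (nat_lit 0) (p (nat_lit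 0x50612) (nat_lit 0) (p (nat_lit 0x40592) (nat_lit 0) (p (nat_lit 0x40492) (nat_lit 0) (p (nat_lit 0x30412) (nat_lit 0) (p (nat_lit 0x30212) (nat_lit 0) (p (nat_lit 0x20192) (nat_lit 0) (p (nat_lit 0x20092) (nat_lit 0) (p (nat_lit 0x10012) (nat_lit 0) pn)))))))))))))))))))))))))) :=
  Cl.node (nat_lit 0x200014) (nat_lit 2) (by decide +kernel) (ClAll.succ (ClAll.succ ClAll.zero n62) s39)

def n90 : Cl (O (nat_lit 5)) (R (nat_lit 102673))
    (p (nat_lit 0x200004) (nat_lit 0) (p (nat_lit 0x81) (nat_lit 0) (p (nat_lit 0x101) (nat_lit 1) (p (nat_lit 0x111) (nat_lit 0) (p (nat_lit 0xd1) (nat_lit 1) (p (nat_lit 0x89) (nat_lit 0) (p (nat_lit 0x41) (nat_lit 0) (p (nat_lit 0x1098a0b090a9a) (nat_lit 0) (p (nat_lit 0x9098a888a1a) (nat_lit 0) (p (nat_lit 0x108890a08079a) (nat_lit 0) (p (nat_lit 0x8088987871a) (nat_lit 0) (p (nat_lit 0x8000000000800078907088a) (nat_lit 0) (p (nat_lit 0x8000000000800070886860a)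 (nat_lit 0) (p (nat_lit 0x10708060782) (nat_lit 0) (p (nat_lit 0x687858702) (nat_lit 0) (p (nat_lit 0x10607050482) (nat_lit 0) (p (nat_lit 0x586848402) (nat_lit 0) (p (nat_lit 0x16000c) (nat_lit 0) (p (nat_lit 0x50612) (nat_lit 0) (p (nat_lit 0x40592) (nat_lit 0) (p (nat_lit 0x40492) (nat_lit 0) (p (nat_lit 0x30412) (nat_lit 0) (p (nat_lit 0x30212) (nat_lit 0) (p (nat_lit 0x20192) (nat_lit 0) (p (nat_lit 0x20092) (nat_lit 0) (p (nat_lit 0x10012) (nat_lit 0) pn)))))))))))))))))))))))))) :=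
  Cl.node (nat_lit 0x200014) (nat_lit 2) (by decide +kernel) (ClAll.succ (ClAll.succ ClAll.zero n63) s43)

def n91 : Cl (O (nat_lit 5)) (R (nat_lit 102673))
    (p (nat_lit 0xc1) (nat_lit 0) (p (nat_lit 0x81) (nat_lit 1) (p (nat_lit 0x101) (nat_lit 1) (p (nat_lit 0x111) (nat_lit 0) (p (nat_lit 0xd1) (nat_lit 1) (p (nat_lit 0x89) (nat_lit 0) (p (nat_lit 0x41) (nat_lit 0) (p (nat_lit 0x1098a0b090a9a) (nat_lit 0) (p (nat_lit 0x9098a888a1a) (nat_lit 0) (p (nat_lit 0x108890a08079a) (nat_lit 0) (p (nat_lit 0x8088987871a) (nat_lit 0) (p (nat_lit 0x8000000000800078907088a) (nat_lit 0) (p (nat_lit 0x8000000000800070886860a) (nat_lit 0) (p (nat_lit 0x10708060782) (nat_lit 0) (p (nat_lit 0x687858702) (nat_lit 0) (p (nat_lit 0x10607050482) (nat_lit 0) (p (nat_lit 0x586848402) (nat_lit 0) (p (nat_lit 0x16000c) (nat_lit 0) (p (nat_lit 0x50612) (nat_lit 0) (p (nat_lit 0x40592) (nat_lit 0) (p (nat_lit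 0x40492) (nat_lit 0) (p (nat_lit 0x30412) (nat_lit 0) (p (nat_lit 0x30212) (nat_lit 0) (p (nat_lit 0x20192) (nat_lit 0) (p (nat_lit 0x20092) (nat_lit 0) (p (nat_lit 0x10012) (nat_lit 0) pn)))))))))))))))))))))))))) :=
  Cl.node (nat_lit 0x200004) (nat_lit 2) (by decide +kernel) (ClAll.succ (ClAll.succ ClAll.zero n64) s52)

def n92 : Cl (O (nat_lit 5)) (R (nat_lit 102673))
    (p (nat_lit 0x101) (nat_lit 0) (p (nat_lit 0xc1) (nat_lit 1) (p (nat_lit 0x81) (nat_lit 1) (p (nat_lit 0x111) (nat_lit 1) (p (nat_lit 0xd1) (nat_lit 1) (p (nat_lit 0x89) (nat_lit 0) (p (nat_lit 0x41) (nat_lit 0) (p (nat_lit 0x1098a0b090a9a) (nat_lit 0) (p (nat_lit 0x9098a888a1a) (nat_lit 0) (p (nat_lit 0x108890a08079a) (nat_lit 0) (p (nat_lit 0x8088987871a) (nat_lit 0) (p (nat_lit 0x8000000000800078907088a) (nat_lit 0) (p (nat_lit 0x8000000000800070886860a) (nat_lit 0) (p (nat_lit 0x10708060782) (nat_lit 0) (p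 (nat_lit 0x687858702) (nat_lit 0) (p (nat_lit 0x10607050482) (nat_lit 0) (p (nat_lit 0x586848402) (nat_lit 0) (p (nat_lit 0x16000c) (nat_lit 0) (p (nat_lit 0x50612) (nat_lit 0) (p (nat_lit 0x40592) (nat_lit 0) (p (nat_lit 0x40492) (nat_lit 0) (p (nat_lit 0x30412) (nat_lit 0) (p (nat_lit 0x30212) (nat_lit 0) (p (nat_lit 0x20192) (nat_lit 0) (p (nat_lit 0x20092) (nat_lit 0) (p (nat_lit 0x10012) (nat_lit 0) pn)))))))))))))))))))))))))) :=
  Cl.node (nat_lit 0x200004) (nat_lit 2) (by decide +kernel) (ClAll.succ (ClAll.succ ClAll.zero n65) s59)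

def n93 : Cl (O (nat_lit 5)) (R (nat_lit 102673))
    (p (nat_lit 0x111) (nat_lit 1) (p (nat_lit 0x109) (nat_lit 0) (p (nat_lit 0x101) (nat_lit 0) (p (nat_lit 0x119) (nat_lit 0) (p (nat_lit 0xc9) (nat_lit 0) (p (nat_lit 0x89) (nat_lit 1) (p (nat_lit 0x41) (nat_lit 0) (p (nat_lit 0x1098a0b090a9a) (nat_lit 0) (p (nat_lit 0x9098a888a1a) (nat_lit 0) (p (nat_lit 0x108890a08079a) (nat_lit 0) (p (nat_lit 0x8088987871a) (nat_lit 0) (p (nat_lit 0x8000000000800078907088a) (nat_lit 0) (p (nat_lit 0x8000000000800070886860a) (nat_lit 0) (p (nat_lit 0x10708060782) (nat_lit 0) (p (nat_lit 0x687858702) (nat_lit 0) (p (nat_lit 0x10607050482) (nat_lit 0) (p (nat_lit 0x586848402) (nat_lit 0) (p (nat_lit 0x16000c) (nat_lit 0) (p (nat_lit 0x50612) (nat_lit 0) (p (nat_lit 0x40592) (nat_lit 0) (p (nat_lit 0x40492) (nat_lit 0) (p (nat_lit 0x30412) (nat_lit 0) (p (nat_lit 0x30212) (nat_lit 0) (p (nat_lit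 0x20192) (nat_lit 0) (p (nat_lit 0x20092) (nat_lit 0) (p (nat_lit 0x10012) (nat_lit 0) pn)))))))))))))))))))))))))) :=
  Cl.node (nat_lit 0xd1) (nat_lit 2) (by decide +kernel) (ClAll.succ (ClAll.succ ClAll.zero s62) n66)

def n94 : Cl (O (nat_lit 5)) (R (nat_lit 102673))
    (p (nat_lit 0xd1) (nat_lit 0) (p (nat_lit 0x109) (nat_lit 1) (p (nat_lit 0x101) (nat_lit 0) (p (nat_lit 0x119) (nat_lit 0) (p (nat_lit 0xc9) (nat_lit 0) (p (nat_lit 0x89) (nat_lit 1) (p (nat_lit 0x41) (nat_lit 0) (p (nat_lit 0x1098a0b090a9a) (nat_lit 0) (p (nat_lit 0x9098a888a1a) (nat_lit 0) (p (nat_lit 0x108890a08079a) (nat_lit 0) (p (nat_lit 0x8088987871a) (nat_lit 0) (p (nat_lit 0x8000000000800078907088a) (nat_lit 0) (p (nat_lit 0x8000000000800070886860a) (nat_lit 0) (p (nat_lit 0x10708060782) (nat_lit 0) (p (nat_lit 0x687858702) (nat_lit 0) (p (nat_lit 0x10607050482) (nat_lit 0) (p (nat_lit 0x586848402) (nat_lit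 0) (p (nat_lit 0x16000c) (nat_lit 0) (p (nat_lit 0x50612) (nat_lit 0) (p (nat_lit 0x40592) (nat_lit 0) (p (nat_lit 0x40492) (nat_lit 0) (p (nat_lit 0x30412) (nat_lit 0) (p (nat_lit 0x30212) (nat_lit 0) (p (nat_lit 0x20192) (nat_lit 0) (p (nat_lit 0x20092) (nat_lit 0) (p (nat_lit 0x10012) (nat_lit 0) pn)))))))))))))))))))))))))) :=
  Cl.node (nat_lit 0x200004) (nat_lit 2) (by decide +kernel) (ClAll.succ (ClAll.succ ClAll.zero n67) s69)

def n95 : Cl (O (nat_lit 5)) (R (nat_lit 102673))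
    (p (nat_lit 0xd1) (nat_lit 1) (p (nat_lit 0x109) (nat_lit 1) (p (nat_lit 0x101) (nat_lit 0) (p (nat_lit 0x119) (nat_lit 0) (p (nat_lit 0xc9) (nat_lit 0) (p (nat_lit 0x89) (nat_lit 1) (p (nat_lit 0x41) (nat_lit 0) (p (nat_lit 0x1098a0b090a9a) (nat_lit 0) (p (nat_lit 0x9098a888a1a) (nat_lit 0) (p (nat_lit 0x108890a08079a) (nat_lit 0) (p (nat_lit 0x8088987871a) (nat_lit 0) (p (nat_lit 0x8000000000800078907088a) (nat_lit 0) (p (nat_lit 0x8000000000800070886860a) (nat_lit 0) (p (nat_lit 0x10708060782) (nat_lit 0) (p (nat_lit 0x687858702) (nat_lit 0) (p (nat_lit 0x10607050482) (nat_lit 0) (p (nat_lit 0x586848402) (nat_lit 0) (p (nat_lit 0x16000c) (nat_lit 0) (p (nat_lit 0x50612) (nat_lit 0) (p (nat_lit 0x40592) (nat_lit 0) (p (nat_lit 0x40492) (nat_lit 0) (p (nat_lit 0x30412) (nat_lit 0) (p (nat_lit 0x30212) (nat_lit 0) (p (nat_lit 0x20192) (nat_lit 0) (p (nat_lit 0x20092) (nat_lit 0)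 (p (nat_lit 0x10012) (nat_lit 0) pn)))))))))))))))))))))))))) :=
  Cl.node (nat_lit 0x200004) (nat_lit 2) (by decide +kernel) (ClAll.succ (ClAll.succ ClAll.zero n68) s83)

def n96 : Cl (O (nat_lit 5)) (R (nat_lit 102673))
    (p (nat_lit 0xd1) (nat_lit 0) (p (nat_lit 0xc1) (nat_lit 0) (p (nat_lit 0x101) (nat_lit 1) (p (nat_lit 0x119) (nat_lit 0) (p (nat_lit 0xc9) (nat_lit 0) (p (nat_lit 0x89) (nat_lit 1) (p (nat_lit 0x41) (nat_lit 0) (p (nat_lit 0x1098a0b090a9a) (nat_lit 0) (p (nat_lit 0x9098a888a1a) (nat_lit 0) (p (nat_lit 0x108890a08079a) (nat_lit 0) (p (nat_lit 0x8088987871a) (nat_lit 0) (p (nat_lit 0x8000000000800078907088a) (nat_lit 0) (p (nat_lit 0x8000000000800070886860a) (nat_lit 0) (p (nat_lit 0x10708060782) (nat_lit 0) (p (nat_lit 0x687858702) (nat_lit 0) (p (nat_lit 0x10607050482) (nat_lit 0) (p (nat_lit 0x586848402) (nat_lit 0) (p (nat_lit 0x16000c) (nat_lit 0) (p (nat_lit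 0x50612) (nat_lit 0) (p (nat_lit 0x40592) (nat_lit 0) (p (nat_lit 0x40492) (nat_lit 0) (p (nat_lit 0x30412) (nat_lit 0) (p (nat_lit 0x30212) (nat_lit 0) (p (nat_lit 0x20192) (nat_lit 0) (p (nat_lit 0x20092) (nat_lit 0) (p (nat_lit 0x10012) (nat_lit 0) pn)))))))))))))))))))))))))) :=
  Cl.node (nat_lit 0x200004) (nat_lit 2) (by decide +kernel) (ClAll.succ (ClAll.succ ClAll.zero n69) s87)

def n97 : Cl (O (nat_lit 5)) (R (nat_lit 102673))
    (p (nat_lit 0xd1) (nat_lit 1) (p (nat_lit 0xc1) (nat_lit 0) (p (nat_lit 0x101) (nat_lit 1) (p (nat_lit 0x119) (nat_lit 0) (p (nat_lit 0xc9) (nat_lit 0) (p (nat_lit 0x89) (nat_lit 1) (p (nat_lit 0x41) (nat_lit 0) (p (nat_lit 0x1098a0b090a9a) (nat_lit 0) (p (nat_lit 0x9098a888a1a) (nat_lit 0) (p (nat_lit 0x108890a08079a) (nat_lit 0) (p (nat_lit 0x8088987871a) (nat_lit 0) (p (nat_lit 0x8000000000800078907088a) (nat_lit 0) (p (nat_lit 0x8000000000800070886860a)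 (nat_lit 0) (p (nat_lit 0x10708060782) (nat_lit 0) (p (nat_lit 0x687858702) (nat_lit 0) (p (nat_lit 0x10607050482) (nat_lit 0) (p (nat_lit 0x586848402) (nat_lit 0) (p (nat_lit 0x16000c) (nat_lit 0) (p (nat_lit 0x50612) (nat_lit 0) (p (nat_lit 0x40592) (nat_lit 0) (p (nat_lit 0x40492) (nat_lit 0) (p (nat_lit 0x30412) (nat_lit 0) (p (nat_lit 0x30212) (nat_lit 0) (p (nat_lit 0x20192) (nat_lit 0) (p (nat_lit 0x20092) (nat_lit 0) (p (nat_lit 0x10012) (nat_lit 0) pn)))))))))))))))))))))))))) :=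
  Cl.node (nat_lit 0x200004) (nat_lit 2) (by decide +kernel) (ClAll.succ (ClAll.succ ClAll.zero n70) s94)

def n98 : Cl (O (nat_lit 5)) (R (nat_lit 102673))
    (p (nat_lit 0x111) (nat_lit 1) (p (nat_lit 0xd1) (nat_lit 1) (p (nat_lit 0xc1) (nat_lit 0) (p (nat_lit 0x119) (nat_lit 1) (p (nat_lit 0xc9) (nat_lit 0) (p (nat_lit 0x89) (nat_lit 1) (p (nat_lit 0x41) (nat_lit 0) (p (nat_lit 0x1098a0b090a9a) (nat_lit 0) (p (nat_lit 0x9098a888a1a) (nat_lit 0) (p (nat_lit 0x108890a08079a) (nat_lit 0) (p (nat_lit 0x8088987871a) (nat_lit 0) (p (nat_lit 0x8000000000800078907088a) (nat_lit 0) (p (nat_lit 0x8000000000800070886860a) (nat_lit 0) (p (nat_lit 0x10708060782) (nat_lit 0) (p (nat_lit 0x687858702) (nat_lit 0) (p (nat_lit 0x10607050482) (nat_lit 0) (p (nat_lit 0x586848402) (nat_lit 0) (p (nat_lit 0x16000c) (nat_lit 0) (p (nat_lit 0x50612) (nat_lit 0) (p (nat_lit 0x40592) (nat_lit 0) (p (nat_lit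 0x40492) (nat_lit 0) (p (nat_lit 0x30412) (nat_lit 0) (p (nat_lit 0x30212) (nat_lit 0) (p (nat_lit 0x20192) (nat_lit 0) (p (nat_lit 0x20092) (nat_lit 0) (p (nat_lit 0x10012) (nat_lit 0) pn)))))))))))))))))))))))))) :=
  Cl.node (nat_lit 0x200004) (nat_lit 2) (by decide +kernel) (ClAll.succ (ClAll.succ ClAll.zero n71) s101)

def n99 : Cl (O (nat_lit 5)) (R (nat_lit 102673))
    (p (nat_lit 0x111) (nat_lit 0) (p (nat_lit 0x101) (nat_lit 0) (p (nat_lit 0xc1) (nat_lit 1) (p (nat_lit 0x119) (nat_lit 1) (p (nat_lit 0xc9) (nat_lit 0) (p (nat_lit 0x89) (nat_lit 1) (p (nat_lit 0x41) (nat_lit 0) (p (nat_lit 0x1098a0b090a9a) (nat_lit 0) (p (nat_lit 0x9098a888a1a) (nat_lit 0) (p (nat_lit 0x108890a08079a) (nat_lit 0) (p (nat_lit 0x8088987871a) (nat_lit 0) (p (nat_lit 0x8000000000800078907088a) (nat_lit 0) (p (nat_lit 0x8000000000800070886860a) (nat_lit 0) (p (nat_lit 0x10708060782) (nat_lit 0)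 (p (nat_lit 0x687858702) (nat_lit 0) (p (nat_lit 0x10607050482) (nat_lit 0) (p (nat_lit 0x586848402) (nat_lit 0) (p (nat_lit 0x16000c) (nat_lit 0) (p (nat_lit 0x50612) (nat_lit 0) (p (nat_lit 0x40592) (nat_lit 0) (p (nat_lit 0x40492) (nat_lit 0) (p (nat_lit 0x30412) (nat_lit 0) (p (nat_lit 0x30212) (nat_lit 0) (p (nat_lit 0x20192) (nat_lit 0) (p (nat_lit 0x20092) (nat_lit 0) (p (nat_lit 0x10012) (nat_lit 0) pn)))))))))))))))))))))))))) :=
  Cl.node (nat_lit 0x200004) (nat_lit 2) (by decide +kernel) (ClAll.succ (ClAll.succ ClAll.zero n72) s106)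

def n100 : Cl (O (nat_lit 5)) (R (nat_lit 102673))
    (p (nat_lit 0x111) (nat_lit 1) (p (nat_lit 0x101) (nat_lit 0) (p (nat_lit 0xc1) (nat_lit 1) (p (nat_lit 0x119) (nat_lit 1) (p (nat_lit 0xc9) (nat_lit 0) (p (nat_lit 0x89) (nat_lit 1) (p (nat_lit 0x41) (nat_lit 0) (p (nat_lit 0x1098a0b090a9a) (nat_lit 0) (p (nat_lit 0x9098a888a1a) (nat_lit 0) (p (nat_lit 0x108890a08079a) (nat_lit 0) (p (nat_lit 0x8088987871a) (nat_lit 0) (p (nat_lit 0x8000000000800078907088a) (nat_lit 0) (p (nat_lit 0x8000000000800070886860a) (nat_lit 0) (p (nat_lit 0x10708060782) (nat_lit 0) (p (nat_lit 0x687858702) (nat_lit 0) (p (nat_lit 0x10607050482) (nat_lit 0) (p (nat_lit 0x586848402) (nat_lit 0) (p (nat_lit 0x16000c) (nat_lit 0) (p (nat_lit 0x50612) (nat_lit 0) (p (nat_lit 0x40592) (nat_lit 0) (p (nat_lit 0x40492) (nat_lit 0) (p (nat_lit 0x30412) (nat_lit 0) (p (nat_lit 0x30212) (nat_lit 0) (p (nat_lit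 0x20192) (nat_lit 0) (p (nat_lit 0x20092) (nat_lit 0) (p (nat_lit 0x10012) (nat_lit 0) pn)))))))))))))))))))))))))) :=
  Cl.node (nat_lit 0x200004) (nat_lit 2) (by decide +kernel) (ClAll.succ (ClAll.succ ClAll.zero n73) s112)

def n101 : Cl (O (nat_lit 5)) (R (nat_lit 102673))
    (p (nat_lit 0x89) (nat_lit 0) (p (nat_lit 0x109) (nat_lit 1) (p (nat_lit 0x101) (nat_lit 0) (p (nat_lit 0x119) (nat_lit 0) (p (nat_lit 0xd1) (nat_lit 0) (p (nat_lit 0x81) (nat_lit 0) (p (nat_lit 0x41) (nat_lit 1) (p (nat_lit 0x1098a0b090a9a) (nat_lit 0) (p (nat_lit 0x9098a888a1a) (nat_lit 0) (p (nat_lit 0x108890a08079a) (nat_lit 0) (p (nat_lit 0x8088987871a) (nat_lit 0) (p (nat_lit 0x8000000000800078907088a) (nat_lit 0) (p (nat_lit 0x8000000000800070886860a) (nat_lit 0) (p (nat_lit 0x10708060782) (nat_lit 0) (p (nat_lit 0x687858702) (nat_lit 0) (p (nat_lit 0x10607050482) (nat_lit 0) (p (nat_lit 0x586848402)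 (nat_lit 0) (p (nat_lit 0x16000c) (nat_lit 0) (p (nat_lit 0x50612) (nat_lit 0) (p (nat_lit 0x40592) (nat_lit 0) (p (nat_lit 0x40492) (nat_lit 0) (p (nat_lit 0x30412) (nat_lit 0) (p (nat_lit 0x30212) (nat_lit 0) (p (nat_lit 0x20192) (nat_lit 0) (p (nat_lit 0x20092) (nat_lit 0) (p (nat_lit 0x10012) (nat_lit 0) pn)))))))))))))))))))))))))) :=
  Cl.node (nat_lit 0x200004) (nat_lit 2) (by decide +kernel) (ClAll.succ (ClAll.succ ClAll.zero s120) s121)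

def n102 : Cl (O (nat_lit 5)) (R (nat_lit 102673))
    (p (nat_lit 0x89) (nat_lit 1) (p (nat_lit 0xc1) (nat_lit 0) (p (nat_lit 0x101) (nat_lit 1) (p (nat_lit 0x119) (nat_lit 0) (p (nat_lit 0xd1) (nat_lit 0) (p (nat_lit 0x81) (nat_lit 0) (p (nat_lit 0x41) (nat_lit 1) (p (nat_lit 0x1098a0b090a9a) (nat_lit 0) (p (nat_lit 0x9098a888a1a) (nat_lit 0) (p (nat_lit 0x108890a08079a) (nat_lit 0) (p (nat_lit 0x8088987871a) (nat_lit 0) (p (nat_lit 0x8000000000800078907088a) (nat_lit 0) (p (nat_lit 0x8000000000800070886860a) (nat_lit 0) (p (nat_lit 0x10708060782) (nat_lit 0) (p (nat_lit 0x687858702) (nat_lit 0) (p (nat_lit 0x10607050482) (nat_lit 0) (p (nat_lit 0x586848402) (nat_lit 0) (p (nat_lit 0x16000c) (nat_lit 0) (p (nat_lit 0x50612) (nat_lit 0) (p (nat_lit 0x40592) (nat_lit 0) (p (nat_lit 0x40492) (nat_lit 0) (p (nat_lit 0x30412) (nat_lit 0) (p (nat_lit 0x30212) (nat_lit 0) (p (nat_lit 0x20192)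 (nat_lit 0) (p (nat_lit 0x20092) (nat_lit 0) (p (nat_lit 0x10012) (nat_lit 0) pn)))))))))))))))))))))))))) :=
  Cl.node (nat_lit 0xc9) (nat_lit 2) (by decide +kernel) (ClAll.succ (ClAll.succ ClAll.zero s124) s125)

def n103 : Cl (O (nat_lit 5)) (R (nat_lit 102673))
    (p (nat_lit 0x89) (nat_lit 0) (p (nat_lit 0xc1) (nat_lit 1) (p (nat_lit 0x101) (nat_lit 1) (p (nat_lit 0x119) (nat_lit 0) (p (nat_lit 0xd1) (nat_lit 0) (p (nat_lit 0x81) (nat_lit 0) (p (nat_lit 0x41) (nat_lit 1) (p (nat_lit 0x1098a0b090a9a) (nat_lit 0) (p (nat_lit 0x9098a888a1a) (nat_lit 0) (p (nat_lit 0x108890a08079a) (nat_lit 0) (p (nat_lit 0x8088987871a) (nat_lit 0) (p (nat_lit 0x8000000000800078907088a) (nat_lit 0) (p (nat_lit 0x8000000000800070886860a) (nat_lit 0) (p (nat_lit 0x10708060782) (nat_lit 0) (p (nat_lit 0x687858702) (nat_lit 0) (p (nat_lit 0x10607050482) (nat_lit 0) (p (nat_lit 0x586848402) (nat_lit 0)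 (p (nat_lit 0x16000c) (nat_lit 0) (p (nat_lit 0x50612) (nat_lit 0) (p (nat_lit 0x40592) (nat_lit 0) (p (nat_lit 0x40492) (nat_lit 0) (p (nat_lit 0x30412) (nat_lit 0) (p (nat_lit 0x30212) (nat_lit 0) (p (nat_lit 0x20192) (nat_lit 0) (p (nat_lit 0x20092) (nat_lit 0) (p (nat_lit 0x10012) (nat_lit 0) pn)))))))))))))))))))))))))) :=
  Cl.node (nat_lit 0x200004) (nat_lit 2) (by decide +kernel) (ClAll.succ (ClAll.succ ClAll.zero s126) s127)

def n104 : Cl (O (nat_lit 5)) (R (nat_lit 102673))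
    (p (nat_lit 0x89) (nat_lit 1) (p (nat_lit 0xc1) (nat_lit 1) (p (nat_lit 0x101) (nat_lit 1) (p (nat_lit 0x119) (nat_lit 0) (p (nat_lit 0xd1) (nat_lit 0) (p (nat_lit 0x81) (nat_lit 0) (p (nat_lit 0x41) (nat_lit 1) (p (nat_lit 0x1098a0b090a9a) (nat_lit 0) (p (nat_lit 0x9098a888a1a) (nat_lit 0) (p (nat_lit 0x108890a08079a) (nat_lit 0) (p (nat_lit 0x8088987871a) (nat_lit 0) (p (nat_lit 0x8000000000800078907088a) (nat_lit 0) (p (nat_lit 0x8000000000800070886860a) (nat_lit 0) (p (nat_lit 0x10708060782) (nat_lit 0) (p (nat_lit 0x687858702) (nat_lit 0) (p (nat_lit 0x10607050482) (nat_lit 0) (p (nat_lit 0x586848402) (nat_lit 0) (p (nat_lit 0x16000c) (nat_lit 0) (p (nat_lit 0x50612) (nat_lit 0) (p (nat_lit 0x40592) (nat_lit 0) (p (nat_lit 0x40492) (nat_lit 0) (p (nat_lit 0x30412) (nat_lit 0) (p (nat_lit 0x30212) (nat_lit 0) (p (nat_lit 0x20192) (nat_lit 0) (p (nat_lit 0x20092) (nat_lit 0)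 (p (nat_lit 0x10012) (nat_lit 0) pn)))))))))))))))))))))))))) :=
  Cl.node (nat_lit 0x200004) (nat_lit 2) (by decide +kernel) (ClAll.succ (ClAll.succ ClAll.zero n74) s134)

def n105 : Cl (O (nat_lit 5)) (R (nat_lit 102673))
    (p (nat_lit 0x89) (nat_lit 1) (p (nat_lit 0xc9) (nat_lit 1) (p (nat_lit 0xc1) (nat_lit 0) (p (nat_lit 0x119) (nat_lit 1) (p (nat_lit 0xd1) (nat_lit 0) (p (nat_lit 0x81) (nat_lit 0) (p (nat_lit 0x41) (nat_lit 1) (p (nat_lit 0x1098a0b090a9a) (nat_lit 0) (p (nat_lit 0x9098a888a1a) (nat_lit 0) (p (nat_lit 0x108890a08079a) (nat_lit 0) (p (nat_lit 0x8088987871a) (nat_lit 0) (p (nat_lit 0x8000000000800078907088a) (nat_lit 0) (p (nat_lit 0x8000000000800070886860a) (nat_lit 0) (p (nat_lit 0x10708060782) (nat_lit 0) (p (nat_lit 0x687858702) (nat_lit 0) (p (nat_lit 0x10607050482) (nat_lit 0) (p (nat_lit 0x586848402) (nat_lit 0) (p (nat_lit 0x16000c) (nat_lit 0) (p (nat_lit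 0x50612) (nat_lit 0) (p (nat_lit 0x40592) (nat_lit 0) (p (nat_lit 0x40492) (nat_lit 0) (p (nat_lit 0x30412) (nat_lit 0) (p (nat_lit 0x30212) (nat_lit 0) (p (nat_lit 0x20192) (nat_lit 0) (p (nat_lit 0x20092) (nat_lit 0) (p (nat_lit 0x10012) (nat_lit 0) pn)))))))))))))))))))))))))) :=
  Cl.node (nat_lit 0x109) (nat_lit 2) (by decide +kernel) (ClAll.succ (ClAll.succ ClAll.zero n75) s141)

def n106 : Cl (O (nat_lit 5)) (R (nat_lit 102673))
    (p (nat_lit 0x89) (nat_lit 1) (p (nat_lit 0x101) (nat_lit 0) (p (nat_lit 0xc1) (nat_lit 1) (p (nat_lit 0x119) (nat_lit 1) (p (nat_lit 0xd1) (nat_lit 0) (p (nat_lit 0x81) (nat_lit 0) (p (nat_lit 0x41) (nat_lit 1) (p (nat_lit 0x1098a0b090a9a) (nat_lit 0) (p (nat_lit 0x9098a888a1a) (nat_lit 0) (p (nat_lit 0x108890a08079a) (nat_lit 0) (p (nat_lit 0x8088987871a) (nat_lit 0) (p (nat_lit 0x8000000000800078907088a) (nat_lit 0) (p (nat_lit 0x8000000000800070886860a)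 (nat_lit 0) (p (nat_lit 0x10708060782) (nat_lit 0) (p (nat_lit 0x687858702) (nat_lit 0) (p (nat_lit 0x10607050482) (nat_lit 0) (p (nat_lit 0x586848402) (nat_lit 0) (p (nat_lit 0x16000c) (nat_lit 0) (p (nat_lit 0x50612) (nat_lit 0) (p (nat_lit 0x40592) (nat_lit 0) (p (nat_lit 0x40492) (nat_lit 0) (p (nat_lit 0x30412) (nat_lit 0) (p (nat_lit 0x30212) (nat_lit 0) (p (nat_lit 0x20192) (nat_lit 0) (p (nat_lit 0x20092) (nat_lit 0) (p (nat_lit 0x10012) (nat_lit 0) pn)))))))))))))))))))))))))) :=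
  Cl.node (nat_lit 0x109) (nat_lit 2) (by decide +kernel) (ClAll.succ (ClAll.succ ClAll.zero s143) s144)

def n107 : Cl (O (nat_lit 5)) (R (nat_lit 102673))
    (p (nat_lit 0x89) (nat_lit 1) (p (nat_lit 0x101) (nat_lit 1) (p (nat_lit 0xc1) (nat_lit 1) (p (nat_lit 0x119) (nat_lit 1) (p (nat_lit 0xd1) (nat_lit 0) (p (nat_lit 0x81) (nat_lit 0) (p (nat_lit 0x41) (nat_lit 1) (p (nat_lit 0x1098a0b090a9a) (nat_lit 0) (p (nat_lit 0x9098a888a1a) (nat_lit 0) (p (nat_lit 0x108890a08079a) (nat_lit 0) (p (nat_lit 0x8088987871a) (nat_lit 0) (p (nat_lit 0x8000000000800078907088a) (nat_lit 0) (p (nat_lit 0x8000000000800070886860a) (nat_lit 0) (p (nat_lit 0x10708060782) (nat_lit 0) (p (nat_lit 0x687858702) (nat_lit 0) (p (nat_lit 0x10607050482) (nat_lit 0) (p (nat_lit 0x586848402) (nat_lit 0) (p (nat_lit 0x16000c) (nat_lit 0) (p (nat_lit 0x50612) (nat_lit 0) (p (nat_lit 0x40592) (nat_lit 0) (p (nat_lit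 0x40492) (nat_lit 0) (p (nat_lit 0x30412) (nat_lit 0) (p (nat_lit 0x30212) (nat_lit 0) (p (nat_lit 0x20192) (nat_lit 0) (p (nat_lit 0x20092) (nat_lit 0) (p (nat_lit 0x10012) (nat_lit 0) pn)))))))))))))))))))))))))) :=
  Cl.node (nat_lit 0x200004) (nat_lit 2) (by decide +kernel) (ClAll.succ (ClAll.succ ClAll.zero n76) s150)

def n108 : Cl (O (nat_lit 5)) (R (nat_lit 102673))
    (p (nat_lit 0x89) (nat_lit 1) (p (nat_lit 0x109) (nat_lit 1) (p (nat_lit 0x101) (nat_lit 0) (p (nat_lit 0x111) (nat_lit 0) (p (nat_lit 0xd1) (nat_lit 1) (p (nat_lit 0x81) (nat_lit 0) (p (nat_lit 0x41) (nat_lit 1) (p (nat_lit 0x1098a0b090a9a) (nat_lit 0) (p (nat_lit 0x9098a888a1a) (nat_lit 0) (p (nat_lit 0x108890a08079a) (nat_lit 0) (p (nat_lit 0x8088987871a) (nat_lit 0) (p (nat_lit 0x8000000000800078907088a) (nat_lit 0) (p (nat_lit 0x8000000000800070886860a) (nat_lit 0) (p (nat_lit 0x10708060782) (nat_lit 0)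 (p (nat_lit 0x687858702) (nat_lit 0) (p (nat_lit 0x10607050482) (nat_lit 0) (p (nat_lit 0x586848402) (nat_lit 0) (p (nat_lit 0x16000c) (nat_lit 0) (p (nat_lit 0x50612) (nat_lit 0) (p (nat_lit 0x40592) (nat_lit 0) (p (nat_lit 0x40492) (nat_lit 0) (p (nat_lit 0x30412) (nat_lit 0) (p (nat_lit 0x30212) (nat_lit 0) (p (nat_lit 0x20192) (nat_lit 0) (p (nat_lit 0x20092) (nat_lit 0) (p (nat_lit 0x10012) (nat_lit 0) pn)))))))))))))))))))))))))) :=
  Cl.node (nat_lit 0xc9) (nat_lit 2) (by decide +kernel) (ClAll.succ (ClAll.succ ClAll.zero n77) s158)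

def n109 : Cl (O (nat_lit 5)) (R (nat_lit 102673))
    (p (nat_lit 0x200004) (nat_lit 0) (p (nat_lit 0x89) (nat_lit 0) (p (nat_lit 0x101) (nat_lit 1) (p (nat_lit 0x111) (nat_lit 0) (p (nat_lit 0xd1) (nat_lit 1) (p (nat_lit 0x81) (nat_lit 0) (p (nat_lit 0x41) (nat_lit 1) (p (nat_lit 0x1098a0b090a9a) (nat_lit 0) (p (nat_lit 0x9098a888a1a) (nat_lit 0) (p (nat_lit 0x108890a08079a) (nat_lit 0) (p (nat_lit 0x8088987871a) (nat_lit 0) (p (nat_lit 0x8000000000800078907088a) (nat_lit 0) (p (nat_lit 0x8000000000800070886860a) (nat_lit 0) (p (nat_lit 0x10708060782) (nat_lit 0) (p (nat_lit 0x687858702) (nat_lit 0) (p (nat_lit 0x10607050482) (nat_lit 0) (p (nat_lit 0x586848402) (nat_lit 0) (p (nat_lit 0x16000c) (nat_lit 0) (p (nat_lit 0x50612) (nat_lit 0) (p (nat_lit 0x40592) (nat_lit 0) (p (nat_lit 0x40492) (nat_lit 0) (p (nat_lit 0x30412) (nat_lit 0) (p (nat_lit 0x30212) (nat_lit 0) (p (nat_lit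 0x20192) (nat_lit 0) (p (nat_lit 0x20092) (nat_lit 0) (p (nat_lit 0x10012) (nat_lit 0) pn)))))))))))))))))))))))))) :=
  Cl.node (nat_lit 0x200014) (nat_lit 2) (by decide +kernel) (ClAll.succ (ClAll.succ ClAll.zero n78) s161)

def n110 : Cl (O (nat_lit 5)) (R (nat_lit 102673))
    (p (nat_lit 0xc9) (nat_lit 0) (p (nat_lit 0x89) (nat_lit 1) (p (nat_lit 0x101) (nat_lit 1) (p (nat_lit 0x111) (nat_lit 0) (p (nat_lit 0xd1) (nat_lit 1) (p (nat_lit 0x81) (nat_lit 0) (p (nat_lit 0x41) (nat_lit 1) (p (nat_lit 0x1098a0b090a9a) (nat_lit 0) (p (nat_lit 0x9098a888a1a) (nat_lit 0) (p (nat_lit 0x108890a08079a) (nat_lit 0) (p (nat_lit 0x8088987871a) (nat_lit 0) (p (nat_lit 0x8000000000800078907088a) (nat_lit 0) (p (nat_lit 0x8000000000800070886860a) (nat_lit 0) (p (nat_lit 0x10708060782) (nat_lit 0) (p (nat_lit 0x687858702) (nat_lit 0) (p (nat_lit 0x10607050482) (nat_lit 0) (p (nat_lit 0x586848402)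 (nat_lit 0) (p (nat_lit 0x16000c) (nat_lit 0) (p (nat_lit 0x50612) (nat_lit 0) (p (nat_lit 0x40592) (nat_lit 0) (p (nat_lit 0x40492) (nat_lit 0) (p (nat_lit 0x30412) (nat_lit 0) (p (nat_lit 0x30212) (nat_lit 0) (p (nat_lit 0x20192) (nat_lit 0) (p (nat_lit 0x20092) (nat_lit 0) (p (nat_lit 0x10012) (nat_lit 0) pn)))))))))))))))))))))))))) :=
  Cl.node (nat_lit 0x200004) (nat_lit 2) (by decide +kernel) (ClAll.succ (ClAll.succ ClAll.zero n79) s169)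

def n111 : Cl (O (nat_lit 5)) (R (nat_lit 102673))
    (p (nat_lit 0x109) (nat_lit 0) (p (nat_lit 0xc9) (nat_lit 1) (p (nat_lit 0x89) (nat_lit 1) (p (nat_lit 0x111) (nat_lit 1) (p (nat_lit 0xd1) (nat_lit 1) (p (nat_lit 0x81) (nat_lit 0) (p (nat_lit 0x41) (nat_lit 1) (p (nat_lit 0x1098a0b090a9a) (nat_lit 0) (p (nat_lit 0x9098a888a1a) (nat_lit 0) (p (nat_lit 0x108890a08079a) (nat_lit 0) (p (nat_lit 0x8088987871a) (nat_lit 0) (p (nat_lit 0x8000000000800078907088a) (nat_lit 0) (p (nat_lit 0x8000000000800070886860a) (nat_lit 0) (p (nat_lit 0x10708060782) (nat_lit 0) (p (nat_lit 0x687858702) (nat_lit 0) (p (nat_lit 0x10607050482) (nat_lit 0) (p (nat_lit 0x586848402) (nat_lit 0) (p (nat_lit 0x16000c) (nat_lit 0) (p (nat_lit 0x50612) (nat_lit 0) (p (nat_lit 0x40592) (nat_lit 0) (p (nat_lit 0x40492) (nat_lit 0) (p (nat_lit 0x30412) (nat_lit 0) (p (nat_lit 0x30212) (nat_lit 0) (p (nat_lit 0x20192)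 (nat_lit 0) (p (nat_lit 0x20092) (nat_lit 0) (p (nat_lit 0x10012) (nat_lit 0) pn)))))))))))))))))))))))))) :=
  Cl.node (nat_lit 0x200004) (nat_lit 2) (by decide +kernel) (ClAll.succ (ClAll.succ ClAll.zero n80) s176)

def n112 : Cl (O (nat_lit 5)) (R (nat_lit 102673))
    (p (nat_lit 0x111) (nat_lit 1) (p (nat_lit 0x109) (nat_lit 0) (p (nat_lit 0x101) (nat_lit 0) (p (nat_lit 0x119) (nat_lit 0) (p (nat_lit 0xc1) (nat_lit 0) (p (nat_lit 0x81) (nat_lit 1) (p (nat_lit 0x41) (nat_lit 1) (p (nat_lit 0x1098a0b090a9a) (nat_lit 0) (p (nat_lit 0x9098a888a1a) (nat_lit 0) (p (nat_lit 0x108890a08079a) (nat_lit 0) (p (nat_lit 0x8088987871a) (nat_lit 0) (p (nat_lit 0x8000000000800078907088a) (nat_lit 0) (p (nat_lit 0x8000000000800070886860a) (nat_lit 0) (p (nat_lit 0x10708060782) (nat_lit 0) (p (nat_lit 0x687858702) (nat_lit 0) (p (nat_lit 0x10607050482) (nat_lit 0) (p (nat_lit 0x586848402) (nat_lit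 0) (p (nat_lit 0x16000c) (nat_lit 0) (p (nat_lit 0x50612) (nat_lit 0) (p (nat_lit 0x40592) (nat_lit 0) (p (nat_lit 0x40492) (nat_lit 0) (p (nat_lit 0x30412) (nat_lit 0) (p (nat_lit 0x30212) (nat_lit 0) (p (nat_lit 0x20192) (nat_lit 0) (p (nat_lit 0x20092) (nat_lit 0) (p (nat_lit 0x10012) (nat_lit 0) pn)))))))))))))))))))))))))) :=
  Cl.node (nat_lit 0xd1) (nat_lit 2) (by decide +kernel) (ClAll.succ (ClAll.succ ClAll.zero s179) n81)

def n113 : Cl (O (nat_lit 5)) (R (nat_lit 102673))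
    (p (nat_lit 0xd1) (nat_lit 0) (p (nat_lit 0xc9) (nat_lit 0) (p (nat_lit 0x101) (nat_lit 1) (p (nat_lit 0x119) (nat_lit 0) (p (nat_lit 0xc1) (nat_lit 0) (p (nat_lit 0x81) (nat_lit 1) (p (nat_lit 0x41) (nat_lit 1) (p (nat_lit 0x1098a0b090a9a) (nat_lit 0) (p (nat_lit 0x9098a888a1a) (nat_lit 0) (p (nat_lit 0x108890a08079a) (nat_lit 0) (p (nat_lit 0x8088987871a) (nat_lit 0) (p (nat_lit 0x8000000000800078907088a) (nat_lit 0) (p (nat_lit 0x8000000000800070886860a) (nat_lit 0) (p (nat_lit 0x10708060782) (nat_lit 0) (p (nat_lit 0x687858702) (nat_lit 0) (p (nat_lit 0x10607050482) (nat_lit 0) (p (nat_lit 0x586848402) (nat_lit 0) (p (nat_lit 0x16000c) (nat_lit 0) (p (nat_lit 0x50612) (nat_lit 0) (p (nat_lit 0x40592) (nat_lit 0) (p (nat_lit 0x40492) (nat_lit 0) (p (nat_lit 0x30412) (nat_lit 0) (p (nat_lit 0x30212) (nat_lit 0) (p (nat_lit 0x20192) (nat_lit 0) (p (nat_lit 0x20092) (nat_lit 0)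 (p (nat_lit 0x10012) (nat_lit 0) pn)))))))))))))))))))))))))) :=
  Cl.node (nat_lit 0x200004) (nat_lit 2) (by decide +kernel) (ClAll.succ (ClAll.succ ClAll.zero s184) s185)

def n114 : Cl (O (nat_lit 5)) (R (nat_lit 102673))
    (p (nat_lit 0xd1) (nat_lit 1) (p (nat_lit 0xc9) (nat_lit 0) (p (nat_lit 0x101) (nat_lit 1) (p (nat_lit 0x119) (nat_lit 0) (p (nat_lit 0xc1) (nat_lit 0) (p (nat_lit 0x81) (nat_lit 1) (p (nat_lit 0x41) (nat_lit 1) (p (nat_lit 0x1098a0b090a9a) (nat_lit 0) (p (nat_lit 0x9098a888a1a) (nat_lit 0) (p (nat_lit 0x108890a08079a) (nat_lit 0) (p (nat_lit 0x8088987871a) (nat_lit 0) (p (nat_lit 0x8000000000800078907088a) (nat_lit 0) (p (nat_lit 0x8000000000800070886860a) (nat_lit 0) (p (nat_lit 0x10708060782) (nat_lit 0) (p (nat_lit 0x687858702) (nat_lit 0) (p (nat_lit 0x10607050482) (nat_lit 0) (p (nat_lit 0x586848402) (nat_lit 0) (p (nat_lit 0x16000c) (nat_lit 0) (p (nat_lit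 0x50612) (nat_lit 0) (p (nat_lit 0x40592) (nat_lit 0) (p (nat_lit 0x40492) (nat_lit 0) (p (nat_lit 0x30412) (nat_lit 0) (p (nat_lit 0x30212) (nat_lit 0) (p (nat_lit 0x20192) (nat_lit 0) (p (nat_lit 0x20092) (nat_lit 0) (p (nat_lit 0x10012) (nat_lit 0) pn)))))))))))))))))))))))))) :=
  Cl.node (nat_lit 0x200004) (nat_lit 2) (by decide +kernel) (ClAll.succ (ClAll.succ ClAll.zero n82) s188)

def n115 : Cl (O (nat_lit 5)) (R (nat_lit 102673))
    (p (nat_lit 0x111) (nat_lit 0) (p (nat_lit 0x109) (nat_lit 0) (p (nat_lit 0xc9) (nat_lit 1) (p (nat_lit 0x119) (nat_lit 1) (p (nat_lit 0xc1) (nat_lit 0) (p (nat_lit 0x81) (nat_lit 1) (p (nat_lit 0x41) (nat_lit 1) (p (nat_lit 0x1098a0b090a9a) (nat_lit 0) (p (nat_lit 0x9098a888a1a) (nat_lit 0) (p (nat_lit 0x108890a08079a) (nat_lit 0) (p (nat_lit 0x8088987871a) (nat_lit 0) (p (nat_lit 0x8000000000800078907088a) (nat_lit 0) (p (nat_lit 0x8000000000800070886860a)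 (nat_lit 0) (p (nat_lit 0x10708060782) (nat_lit 0) (p (nat_lit 0x687858702) (nat_lit 0) (p (nat_lit 0x10607050482) (nat_lit 0) (p (nat_lit 0x586848402) (nat_lit 0) (p (nat_lit 0x16000c) (nat_lit 0) (p (nat_lit 0x50612) (nat_lit 0) (p (nat_lit 0x40592) (nat_lit 0) (p (nat_lit 0x40492) (nat_lit 0) (p (nat_lit 0x30412) (nat_lit 0) (p (nat_lit 0x30212) (nat_lit 0) (p (nat_lit 0x20192) (nat_lit 0) (p (nat_lit 0x20092) (nat_lit 0) (p (nat_lit 0x10012) (nat_lit 0) pn)))))))))))))))))))))))))) :=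
  Cl.node (nat_lit 0x200004) (nat_lit 2) (by decide +kernel) (ClAll.succ (ClAll.succ ClAll.zero s191) s192)

def n116 : Cl (O (nat_lit 5)) (R (nat_lit 102673))
    (p (nat_lit 0x109) (nat_lit 1) (p (nat_lit 0x101) (nat_lit 0) (p (nat_lit 0x119) (nat_lit 0) (p (nat_lit 0xd1) (nat_lit 0) (p (nat_lit 0x89) (nat_lit 0) (p (nat_lit 0x41) (nat_lit 0) (p (nat_lit 0x1098a0b090a9a) (nat_lit 0) (p (nat_lit 0x9098a888a1a) (nat_lit 0) (p (nat_lit 0x108890a08079a) (nat_lit 0) (p (nat_lit 0x8088987871a) (nat_lit 0) (p (nat_lit 0x8000000000800078907088a) (nat_lit 0) (p (nat_lit 0x8000000000800070886860a) (nat_lit 0) (p (nat_lit 0x10708060782) (nat_lit 0) (p (nat_lit 0x687858702) (nat_lit 0) (p (nat_lit 0x10607050482) (nat_lit 0) (p (nat_lit 0x586848402) (nat_lit 0) (p (nat_lit 0x16000c) (nat_lit 0) (p (nat_lit 0x50612) (nat_lit 0) (p (nat_lit 0x40592) (nat_lit 0) (p (nat_lit 0x40492) (nat_lit 0)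 (p (nat_lit 0x30412) (nat_lit 0) (p (nat_lit 0x30212) (nat_lit 0) (p (nat_lit 0x20192) (nat_lit 0) (p (nat_lit 0x20092) (nat_lit 0) (p (nat_lit 0x10012) (nat_lit 0) pn))))))))))))))))))))))))) :=
  Cl.node (nat_lit 0xc9) (nat_lit 2) (by decide +kernel) (ClAll.succ (ClAll.succ ClAll.zero s1) n83)

def n117 : Cl (O (nat_lit 5)) (R (nat_lit 102673))
    (p (nat_lit 0x81) (nat_lit 0) (p (nat_lit 0x101) (nat_lit 1) (p (nat_lit 0x119) (nat_lit 0) (p (nat_lit 0xd1) (nat_lit 0) (p (nat_lit 0x89) (nat_lit 0) (p (nat_lit 0x41) (nat_lit 0) (p (nat_lit 0x1098a0b090a9a) (nat_lit 0) (p (nat_lit 0x9098a888a1a) (nat_lit 0) (p (nat_lit 0x108890a08079a) (nat_lit 0) (p (nat_lit 0x8088987871a) (nat_lit 0) (p (nat_lit 0x8000000000800078907088a) (nat_lit 0) (p (nat_lit 0x8000000000800070886860a) (nat_lit 0) (p (nat_lit 0x10708060782) (nat_lit 0) (p (nat_lit 0x687858702) (nat_lit 0) (p (nat_lit 0x10607050482)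 (nat_lit 0) (p (nat_lit 0x586848402) (nat_lit 0) (p (nat_lit 0x16000c) (nat_lit 0) (p (nat_lit 0x50612) (nat_lit 0) (p (nat_lit 0x40592) (nat_lit 0) (p (nat_lit 0x40492) (nat_lit 0) (p (nat_lit 0x30412) (nat_lit 0) (p (nat_lit 0x30212) (nat_lit 0) (p (nat_lit 0x20192) (nat_lit 0) (p (nat_lit 0x20092) (nat_lit 0) (p (nat_lit 0x10012) (nat_lit 0) pn))))))))))))))))))))))))) :=
  Cl.node (nat_lit 0xc9) (nat_lit 2) (by decide +kernel) (ClAll.succ (ClAll.succ ClAll.zero s6) n84)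

def n118 : Cl (O (nat_lit 5)) (R (nat_lit 102673))
    (p (nat_lit 0x81) (nat_lit 1) (p (nat_lit 0x101) (nat_lit 1) (p (nat_lit 0x119) (nat_lit 0) (p (nat_lit 0xd1) (nat_lit 0) (p (nat_lit 0x89) (nat_lit 0) (p (nat_lit 0x41) (nat_lit 0) (p (nat_lit 0x1098a0b090a9a) (nat_lit 0) (p (nat_lit 0x9098a888a1a) (nat_lit 0) (p (nat_lit 0x108890a08079a) (nat_lit 0) (p (nat_lit 0x8088987871a) (nat_lit 0) (p (nat_lit 0x8000000000800078907088a) (nat_lit 0) (p (nat_lit 0x8000000000800070886860a) (nat_lit 0) (p (nat_lit 0x10708060782) (nat_lit 0) (p (nat_lit 0x687858702) (nat_lit 0) (p (nat_lit 0x10607050482) (nat_lit 0) (p (nat_lit 0x586848402) (nat_lit 0) (p (nat_lit 0x16000c) (nat_lit 0) (p (nat_lit 0x50612) (nat_lit 0) (p (nat_lit 0x40592) (nat_lit 0) (p (nat_lit 0x40492) (nat_lit 0) (p (nat_lit 0x30412) (nat_lit 0) (p (nat_lit 0x30212) (nat_lit 0) (p (nat_lit 0x20192) (nat_lit 0) (p (nat_lit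 0x20092) (nat_lit 0) (p (nat_lit 0x10012) (nat_lit 0) pn))))))))))))))))))))))))) :=
  Cl.node (nat_lit 0xc1) (nat_lit 2) (by decide +kernel) (ClAll.succ (ClAll.succ ClAll.zero n85) s19)

def n119 : Cl (O (nat_lit 5)) (R (nat_lit 102673))
    (p (nat_lit 0xc9) (nat_lit 1) (p (nat_lit 0xc1) (nat_lit 0) (p (nat_lit 0x119) (nat_lit 1) (p (nat_lit 0xd1) (nat_lit 0) (p (nat_lit 0x89) (nat_lit 0) (p (nat_lit 0x41) (nat_lit 0) (p (nat_lit 0x1098a0b090a9a) (nat_lit 0) (p (nat_lit 0x9098a888a1a) (nat_lit 0) (p (nat_lit 0x108890a08079a) (nat_lit 0) (p (nat_lit 0x8088987871a) (nat_lit 0) (p (nat_lit 0x8000000000800078907088a) (nat_lit 0) (p (nat_lit 0x8000000000800070886860a) (nat_lit 0) (p (nat_lit 0x10708060782) (nat_lit 0) (p (nat_lit 0x687858702) (nat_lit 0) (p (nat_lit 0x10607050482) (nat_lit 0) (p (nat_lit 0x586848402) (nat_lit 0) (p (nat_lit 0x16000c) (nat_lit 0) (p (nat_lit 0x50612) (nat_lit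 0) (p (nat_lit 0x40592) (nat_lit 0) (p (nat_lit 0x40492) (nat_lit 0) (p (nat_lit 0x30412) (nat_lit 0) (p (nat_lit 0x30212) (nat_lit 0) (p (nat_lit 0x20192) (nat_lit 0) (p (nat_lit 0x20092) (nat_lit 0) (p (nat_lit 0x10012) (nat_lit 0) pn))))))))))))))))))))))))) :=
  Cl.node (nat_lit 0x109) (nat_lit 2) (by decide +kernel) (ClAll.succ (ClAll.succ ClAll.zero s21) n86)

def n120 : Cl (O (nat_lit 5)) (R (nat_lit 102673))
    (p (nat_lit 0x81) (nat_lit 0) (p (nat_lit 0xc1) (nat_lit 1) (p (nat_lit 0x119) (nat_lit 1) (p (nat_lit 0xd1) (nat_lit 0) (p (nat_lit 0x89) (nat_lit 0) (p (nat_lit 0x41) (nat_lit 0) (p (nat_lit 0x1098a0b090a9a) (nat_lit 0) (p (nat_lit 0x9098a888a1a) (nat_lit 0) (p (nat_lit 0x108890a08079a) (nat_lit 0) (p (nat_lit 0x8088987871a) (nat_lit 0) (p (nat_lit 0x8000000000800078907088a) (nat_lit 0) (p (nat_lit 0x8000000000800070886860a) (nat_lit 0) (p (nat_lit 0x10708060782)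 (nat_lit 0) (p (nat_lit 0x687858702) (nat_lit 0) (p (nat_lit 0x10607050482) (nat_lit 0) (p (nat_lit 0x586848402) (nat_lit 0) (p (nat_lit 0x16000c) (nat_lit 0) (p (nat_lit 0x50612) (nat_lit 0) (p (nat_lit 0x40592) (nat_lit 0) (p (nat_lit 0x40492) (nat_lit 0) (p (nat_lit 0x30412) (nat_lit 0) (p (nat_lit 0x30212) (nat_lit 0) (p (nat_lit 0x20192) (nat_lit 0) (p (nat_lit 0x20092) (nat_lit 0) (p (nat_lit 0x10012) (nat_lit 0) pn))))))))))))))))))))))))) :=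
  Cl.node (nat_lit 0x109) (nat_lit 2) (by decide +kernel) (ClAll.succ (ClAll.succ ClAll.zero s24) n87)

def n121 : Cl (O (nat_lit 5)) (R (nat_lit 102673))
    (p (nat_lit 0x81) (nat_lit 1) (p (nat_lit 0xc1) (nat_lit 1) (p (nat_lit 0x119) (nat_lit 1) (p (nat_lit 0xd1) (nat_lit 0) (p (nat_lit 0x89) (nat_lit 0) (p (nat_lit 0x41) (nat_lit 0) (p (nat_lit 0x1098a0b090a9a) (nat_lit 0) (p (nat_lit 0x9098a888a1a) (nat_lit 0) (p (nat_lit 0x108890a08079a) (nat_lit 0) (p (nat_lit 0x8088987871a) (nat_lit 0) (p (nat_lit 0x8000000000800078907088a) (nat_lit 0) (p (nat_lit 0x8000000000800070886860a) (nat_lit 0) (p (nat_lit 0x10708060782) (nat_lit 0) (p (nat_lit 0x687858702) (nat_lit 0) (p (nat_lit 0x10607050482) (nat_lit 0) (p (nat_lit 0x586848402) (nat_lit 0) (p (nat_lit 0x16000c) (nat_lit 0) (p (nat_lit 0x50612) (nat_lit 0) (p (nat_lit 0x40592) (nat_lit 0) (p (nat_lit 0x40492) (nat_lit 0) (p (nat_lit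 0x30412) (nat_lit 0) (p (nat_lit 0x30212) (nat_lit 0) (p (nat_lit 0x20192) (nat_lit 0) (p (nat_lit 0x20092) (nat_lit 0) (p (nat_lit 0x10012) (nat_lit 0) pn))))))))))))))))))))))))) :=
  Cl.node (nat_lit 0x101) (nat_lit 2) (by decide +kernel) (ClAll.succ (ClAll.succ ClAll.zero n88) s34)

def n122 : Cl (O (nat_lit 5)) (R (nat_lit 102673))
    (p (nat_lit 0x109) (nat_lit 1) (p (nat_lit 0x101) (nat_lit 0) (p (nat_lit 0x111) (nat_lit 0) (p (nat_lit 0xd1) (nat_lit 1) (p (nat_lit 0x89) (nat_lit 0) (p (nat_lit 0x41) (nat_lit 0) (p (nat_lit 0x1098a0b090a9a) (nat_lit 0) (p (nat_lit 0x9098a888a1a) (nat_lit 0) (p (nat_lit 0x108890a08079a) (nat_lit 0) (p (nat_lit 0x8088987871a) (nat_lit 0) (p (nat_lit 0x8000000000800078907088a) (nat_lit 0) (p (nat_lit 0x8000000000800070886860a) (nat_lit 0) (p (nat_lit 0x10708060782) (nat_lit 0) (p (nat_lit 0x687858702) (nat_lit 0) (p (nat_lit 0x10607050482) (nat_lit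 0) (p (nat_lit 0x586848402) (nat_lit 0) (p (nat_lit 0x16000c) (nat_lit 0) (p (nat_lit 0x50612) (nat_lit 0) (p (nat_lit 0x40592) (nat_lit 0) (p (nat_lit 0x40492) (nat_lit 0) (p (nat_lit 0x30412) (nat_lit 0) (p (nat_lit 0x30212) (nat_lit 0) (p (nat_lit 0x20192) (nat_lit 0) (p (nat_lit 0x20092) (nat_lit 0) (p (nat_lit 0x10012) (nat_lit 0) pn))))))))))))))))))))))))) :=
  Cl.node (nat_lit 0x200004) (nat_lit 2) (by decide +kernel) (ClAll.succ (ClAll.succ ClAll.zero n89) s40)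

def n123 : Cl (O (nat_lit 5)) (R (nat_lit 102673))
    (p (nat_lit 0x81) (nat_lit 0) (p (nat_lit 0x101) (nat_lit 1) (p (nat_lit 0x111) (nat_lit 0) (p (nat_lit 0xd1) (nat_lit 1) (p (nat_lit 0x89) (nat_lit 0) (p (nat_lit 0x41) (nat_lit 0) (p (nat_lit 0x1098a0b090a9a) (nat_lit 0) (p (nat_lit 0x9098a888a1a) (nat_lit 0) (p (nat_lit 0x108890a08079a) (nat_lit 0) (p (nat_lit 0x8088987871a) (nat_lit 0) (p (nat_lit 0x8000000000800078907088a) (nat_lit 0) (p (nat_lit 0x8000000000800070886860a) (nat_lit 0) (p (nat_lit 0x10708060782) (nat_lit 0) (p (nat_lit 0x687858702) (nat_lit 0) (p (nat_lit 0x10607050482) (nat_lit 0) (p (nat_lit 0x586848402) (nat_lit 0) (p (nat_lit 0x16000c) (nat_lit 0) (p (nat_lit 0x50612) (nat_lit 0) (p (nat_lit 0x40592) (nat_lit 0) (p (nat_lit 0x40492) (nat_lit 0) (p (nat_lit 0x30412) (nat_lit 0) (p (nat_lit 0x30212) (nat_lit 0) (p (nat_lit 0x20192) (nat_lit 0) (p (nat_lit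 0x20092) (nat_lit 0) (p (nat_lit 0x10012) (nat_lit 0) pn))))))))))))))))))))))))) :=
  Cl.node (nat_lit 0x200004) (nat_lit 2) (by decide +kernel) (ClAll.succ (ClAll.succ ClAll.zero n90) s44)

def n124 : Cl (O (nat_lit 5)) (R (nat_lit 102673))
    (p (nat_lit 0x81) (nat_lit 1) (p (nat_lit 0x101) (nat_lit 1) (p (nat_lit 0x111) (nat_lit 0) (p (nat_lit 0xd1) (nat_lit 1) (p (nat_lit 0x89) (nat_lit 0) (p (nat_lit 0x41) (nat_lit 0) (p (nat_lit 0x1098a0b090a9a) (nat_lit 0) (p (nat_lit 0x9098a888a1a) (nat_lit 0) (p (nat_lit 0x108890a08079a) (nat_lit 0) (p (nat_lit 0x8088987871a) (nat_lit 0) (p (nat_lit 0x8000000000800078907088a) (nat_lit 0) (p (nat_lit 0x8000000000800070886860a) (nat_lit 0) (p (nat_lit 0x10708060782) (nat_lit 0) (p (nat_lit 0x687858702) (nat_lit 0) (p (nat_lit 0x10607050482) (nat_lit 0) (p (nat_lit 0x586848402) (nat_lit 0) (p (nat_lit 0x16000c) (nat_lit 0) (p (nat_lit 0x50612)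 (nat_lit 0) (p (nat_lit 0x40592) (nat_lit 0) (p (nat_lit 0x40492) (nat_lit 0) (p (nat_lit 0x30412) (nat_lit 0) (p (nat_lit 0x30212) (nat_lit 0) (p (nat_lit 0x20192) (nat_lit 0) (p (nat_lit 0x20092) (nat_lit 0) (p (nat_lit 0x10012) (nat_lit 0) pn))))))))))))))))))))))))) :=
  Cl.node (nat_lit 0xc1) (nat_lit 2) (by decide +kernel) (ClAll.succ (ClAll.succ ClAll.zero n91) s53)

def n125 : Cl (O (nat_lit 5)) (R (nat_lit 102673))
    (p (nat_lit 0xc1) (nat_lit 1) (p (nat_lit 0x81) (nat_lit 1) (p (nat_lit 0x111) (nat_lit 1) (p (nat_lit 0xd1) (nat_lit 1) (p (nat_lit 0x89) (nat_lit 0) (p (nat_lit 0x41) (nat_lit 0) (p (nat_lit 0x1098a0b090a9a) (nat_lit 0) (p (nat_lit 0x9098a888a1a) (nat_lit 0) (p (nat_lit 0x108890a08079a) (nat_lit 0) (p (nat_lit 0x8088987871a) (nat_lit 0) (p (nat_lit 0x8000000000800078907088a) (nat_lit 0) (p (nat_lit 0x8000000000800070886860a) (nat_lit 0) (p (nat_lit 0x10708060782)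 (nat_lit 0) (p (nat_lit 0x687858702) (nat_lit 0) (p (nat_lit 0x10607050482) (nat_lit 0) (p (nat_lit 0x586848402) (nat_lit 0) (p (nat_lit 0x16000c) (nat_lit 0) (p (nat_lit 0x50612) (nat_lit 0) (p (nat_lit 0x40592) (nat_lit 0) (p (nat_lit 0x40492) (nat_lit 0) (p (nat_lit 0x30412) (nat_lit 0) (p (nat_lit 0x30212) (nat_lit 0) (p (nat_lit 0x20192) (nat_lit 0) (p (nat_lit 0x20092) (nat_lit 0) (p (nat_lit 0x10012) (nat_lit 0) pn))))))))))))))))))))))))) :=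
  Cl.node (nat_lit 0x101) (nat_lit 2) (by decide +kernel) (ClAll.succ (ClAll.succ ClAll.zero n92) s60)

def n126 : Cl (O (nat_lit 5)) (R (nat_lit 102673))
    (p (nat_lit 0x109) (nat_lit 0) (p (nat_lit 0x101) (nat_lit 0) (p (nat_lit 0x119) (nat_lit 0) (p (nat_lit 0xc9) (nat_lit 0) (p (nat_lit 0x89) (nat_lit 1) (p (nat_lit 0x41) (nat_lit 0) (p (nat_lit 0x1098a0b090a9a) (nat_lit 0) (p (nat_lit 0x9098a888a1a) (nat_lit 0) (p (nat_lit 0x108890a08079a) (nat_lit 0) (p (nat_lit 0x8088987871a) (nat_lit 0) (p (nat_lit 0x8000000000800078907088a) (nat_lit 0) (p (nat_lit 0x8000000000800070886860a) (nat_lit 0) (p (nat_lit 0x10708060782) (nat_lit 0) (p (nat_lit 0x687858702) (nat_lit 0) (p (nat_lit 0x10607050482) (nat_lit 0) (p (nat_lit 0x586848402) (nat_lit 0) (p (nat_lit 0x16000c) (nat_lit 0) (p (nat_lit 0x50612) (nat_lit 0) (p (nat_lit 0x40592) (nat_lit 0) (p (nat_lit 0x40492) (nat_lit 0) (p (nat_lit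 0x30412) (nat_lit 0) (p (nat_lit 0x30212) (nat_lit 0) (p (nat_lit 0x20192) (nat_lit 0) (p (nat_lit 0x20092) (nat_lit 0) (p (nat_lit 0x10012) (nat_lit 0) pn))))))))))))))))))))))))) :=
  Cl.node (nat_lit 0x111) (nat_lit 2) (by decide +kernel) (ClAll.succ (ClAll.succ ClAll.zero s61) n93)

def n127 : Cl (O (nat_lit 5)) (R (nat_lit 102673))
    (p (nat_lit 0x109) (nat_lit 1) (p (nat_lit 0x101) (nat_lit 0) (p (nat_lit 0x119) (nat_lit 0) (p (nat_lit 0xc9) (nat_lit 0) (p (nat_lit 0x89) (nat_lit 1) (p (nat_lit 0x41) (nat_lit 0) (p (nat_lit 0x1098a0b090a9a) (nat_lit 0) (p (nat_lit 0x9098a888a1a) (nat_lit 0) (p (nat_lit 0x108890a08079a) (nat_lit 0) (p (nat_lit 0x8088987871a) (nat_lit 0) (p (nat_lit 0x8000000000800078907088a) (nat_lit 0) (p (nat_lit 0x8000000000800070886860a) (nat_lit 0) (p (nat_lit 0x10708060782) (nat_lit 0) (p (nat_lit 0x687858702) (nat_lit 0) (p (nat_lit 0x10607050482) (nat_lit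 0) (p (nat_lit 0x586848402) (nat_lit 0) (p (nat_lit 0x16000c) (nat_lit 0) (p (nat_lit 0x50612) (nat_lit 0) (p (nat_lit 0x40592) (nat_lit 0) (p (nat_lit 0x40492) (nat_lit 0) (p (nat_lit 0x30412) (nat_lit 0) (p (nat_lit 0x30212) (nat_lit 0) (p (nat_lit 0x20192) (nat_lit 0) (p (nat_lit 0x20092) (nat_lit 0) (p (nat_lit 0x10012) (nat_lit 0) pn))))))))))))))))))))))))) :=
  Cl.node (nat_lit 0xd1) (nat_lit 2) (by decide +kernel) (ClAll.succ (ClAll.succ ClAll.zero n94) n95)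

def n128 : Cl (O (nat_lit 5)) (R (nat_lit 102673))
    (p (nat_lit 0xc1) (nat_lit 0) (p (nat_lit 0x101) (nat_lit 1) (p (nat_lit 0x119) (nat_lit 0) (p (nat_lit 0xc9) (nat_lit 0) (p (nat_lit 0x89) (nat_lit 1) (p (nat_lit 0x41) (nat_lit 0) (p (nat_lit 0x1098a0b090a9a) (nat_lit 0) (p (nat_lit 0x9098a888a1a) (nat_lit 0) (p (nat_lit 0x108890a08079a) (nat_lit 0) (p (nat_lit 0x8088987871a) (nat_lit 0) (p (nat_lit 0x8000000000800078907088a) (nat_lit 0) (p (nat_lit 0x8000000000800070886860a) (nat_lit 0) (p (nat_lit 0x10708060782) (nat_lit 0) (p (nat_lit 0x687858702) (nat_lit 0) (p (nat_lit 0x10607050482) (nat_lit 0) (p (nat_lit 0x586848402) (nat_lit 0) (p (nat_lit 0x16000c) (nat_lit 0) (p (nat_lit 0x50612) (nat_lit 0) (p (nat_lit 0x40592) (nat_lit 0) (p (nat_lit 0x40492) (nat_lit 0) (p (nat_lit 0x30412) (nat_lit 0) (p (nat_lit 0x30212) (nat_lit 0) (p (nat_lit 0x20192) (nat_lit 0) (p (nat_lit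 0x20092) (nat_lit 0) (p (nat_lit 0x10012) (nat_lit 0) pn))))))))))))))))))))))))) :=
  Cl.node (nat_lit 0xd1) (nat_lit 2) (by decide +kernel) (ClAll.succ (ClAll.succ ClAll.zero n96) n97)

def n129 : Cl (O (nat_lit 5)) (R (nat_lit 102673))
    (p (nat_lit 0xd1) (nat_lit 1) (p (nat_lit 0xc1) (nat_lit 0) (p (nat_lit 0x119) (nat_lit 1) (p (nat_lit 0xc9) (nat_lit 0) (p (nat_lit 0x89) (nat_lit 1) (p (nat_lit 0x41) (nat_lit 0) (p (nat_lit 0x1098a0b090a9a) (nat_lit 0) (p (nat_lit 0x9098a888a1a) (nat_lit 0) (p (nat_lit 0x108890a08079a) (nat_lit 0) (p (nat_lit 0x8088987871a) (nat_lit 0) (p (nat_lit 0x8000000000800078907088a) (nat_lit 0) (p (nat_lit 0x8000000000800070886860a) (nat_lit 0) (p (nat_lit 0x10708060782) (nat_lit 0) (p (nat_lit 0x687858702) (nat_lit 0) (p (nat_lit 0x10607050482) (nat_lit 0) (p (nat_lit 0x586848402) (nat_lit 0) (p (nat_lit 0x16000c) (nat_lit 0) (p (nat_lit 0x50612) (nat_lit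 0) (p (nat_lit 0x40592) (nat_lit 0) (p (nat_lit 0x40492) (nat_lit 0) (p (nat_lit 0x30412) (nat_lit 0) (p (nat_lit 0x30212) (nat_lit 0) (p (nat_lit 0x20192) (nat_lit 0) (p (nat_lit 0x20092) (nat_lit 0) (p (nat_lit 0x10012) (nat_lit 0) pn))))))))))))))))))))))))) :=
  Cl.node (nat_lit 0x111) (nat_lit 2) (by decide +kernel) (ClAll.succ (ClAll.succ ClAll.zero s97) n98)

def n130 : Cl (O (nat_lit 5)) (R (nat_lit 102673))
    (p (nat_lit 0x101) (nat_lit 0) (p (nat_lit 0xc1) (nat_lit 1) (p (nat_lit 0x119) (nat_lit 1) (p (nat_lit 0xc9) (nat_lit 0) (p (nat_lit 0x89) (nat_lit 1) (p (nat_lit 0x41) (nat_lit 0) (p (nat_lit 0x1098a0b090a9a) (nat_lit 0) (p (nat_lit 0x9098a888a1a) (nat_lit 0) (p (nat_lit 0x108890a08079a) (nat_lit 0) (p (nat_lit 0x8088987871a) (nat_lit 0) (p (nat_lit 0x8000000000800078907088a) (nat_lit 0) (p (nat_lit 0x8000000000800070886860a) (nat_lit 0) (p (nat_lit 0x10708060782)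 (nat_lit 0) (p (nat_lit 0x687858702) (nat_lit 0) (p (nat_lit 0x10607050482) (nat_lit 0) (p (nat_lit 0x586848402) (nat_lit 0) (p (nat_lit 0x16000c) (nat_lit 0) (p (nat_lit 0x50612) (nat_lit 0) (p (nat_lit 0x40592) (nat_lit 0) (p (nat_lit 0x40492) (nat_lit 0) (p (nat_lit 0x30412) (nat_lit 0) (p (nat_lit 0x30212) (nat_lit 0) (p (nat_lit 0x20192) (nat_lit 0) (p (nat_lit 0x20092) (nat_lit 0) (p (nat_lit 0x10012) (nat_lit 0) pn))))))))))))))))))))))))) :=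
  Cl.node (nat_lit 0x111) (nat_lit 2) (by decide +kernel) (ClAll.succ (ClAll.succ ClAll.zero n99) n100)

def n131 : Cl (O (nat_lit 5)) (R (nat_lit 102673))
    (p (nat_lit 0x101) (nat_lit 1) (p (nat_lit 0xc1) (nat_lit 1) (p (nat_lit 0x119) (nat_lit 1) (p (nat_lit 0xc9) (nat_lit 0) (p (nat_lit 0x89) (nat_lit 1) (p (nat_lit 0x41) (nat_lit 0) (p (nat_lit 0x1098a0b090a9a) (nat_lit 0) (p (nat_lit 0x9098a888a1a) (nat_lit 0) (p (nat_lit 0x108890a08079a) (nat_lit 0) (p (nat_lit 0x8088987871a) (nat_lit 0) (p (nat_lit 0x8000000000800078907088a) (nat_lit 0) (p (nat_lit 0x8000000000800070886860a) (nat_lit 0) (p (nat_lit 0x10708060782) (nat_lit 0) (p (nat_lit 0x687858702) (nat_lit 0) (p (nat_lit 0x10607050482) (nat_lit 0) (p (nat_lit 0x586848402) (nat_lit 0) (p (nat_lit 0x16000c) (nat_lit 0) (p (nat_lit 0x50612) (nat_lit 0) (p (nat_lit 0x40592) (nat_lit 0) (p (nat_lit 0x40492) (nat_lit 0) (p (nat_lit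 0x30412) (nat_lit 0) (p (nat_lit 0x30212) (nat_lit 0) (p (nat_lit 0x20192) (nat_lit 0) (p (nat_lit 0x20092) (nat_lit 0) (p (nat_lit 0x10012) (nat_lit 0) pn))))))))))))))))))))))))) :=
  Cl.node (nat_lit 0x200004) (nat_lit 2) (by decide +kernel) (ClAll.succ (ClAll.succ ClAll.zero s113) s114)

def n132 : Cl (O (nat_lit 5)) (R (nat_lit 102673))
    (p (nat_lit 0x109) (nat_lit 1) (p (nat_lit 0x101) (nat_lit 0) (p (nat_lit 0x119) (nat_lit 0) (p (nat_lit 0xd1) (nat_lit 0) (p (nat_lit 0x81) (nat_lit 0) (p (nat_lit 0x41) (nat_lit 1) (p (nat_lit 0x1098a0b090a9a) (nat_lit 0) (p (nat_lit 0x9098a888a1a) (nat_lit 0) (p (nat_lit 0x108890a08079a) (nat_lit 0) (p (nat_lit 0x8088987871a) (nat_lit 0) (p (nat_lit 0x8000000000800078907088a) (nat_lit 0) (p (nat_lit 0x8000000000800070886860a) (nat_lit 0) (p (nat_lit 0x10708060782) (nat_lit 0) (p (nat_lit 0x687858702) (nat_lit 0) (p (nat_lit 0x10607050482)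 (nat_lit 0) (p (nat_lit 0x586848402) (nat_lit 0) (p (nat_lit 0x16000c) (nat_lit 0) (p (nat_lit 0x50612) (nat_lit 0) (p (nat_lit 0x40592) (nat_lit 0) (p (nat_lit 0x40492) (nat_lit 0) (p (nat_lit 0x30412) (nat_lit 0) (p (nat_lit 0x30212) (nat_lit 0) (p (nat_lit 0x20192) (nat_lit 0) (p (nat_lit 0x20092) (nat_lit 0) (p (nat_lit 0x10012) (nat_lit 0) pn))))))))))))))))))))))))) :=
  Cl.node (nat_lit 0x89) (nat_lit 2) (by decide +kernel) (ClAll.succ (ClAll.succ ClAll.zero n101) s122)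

def n133 : Cl (O (nat_lit 5)) (R (nat_lit 102673))
    (p (nat_lit 0xc1) (nat_lit 0) (p (nat_lit 0x101) (nat_lit 1) (p (nat_lit 0x119) (nat_lit 0) (p (nat_lit 0xd1) (nat_lit 0) (p (nat_lit 0x81) (nat_lit 0) (p (nat_lit 0x41) (nat_lit 1) (p (nat_lit 0x1098a0b090a9a) (nat_lit 0) (p (nat_lit 0x9098a888a1a) (nat_lit 0) (p (nat_lit 0x108890a08079a) (nat_lit 0) (p (nat_lit 0x8088987871a) (nat_lit 0) (p (nat_lit 0x8000000000800078907088a) (nat_lit 0) (p (nat_lit 0x8000000000800070886860a) (nat_lit 0) (p (nat_lit 0x10708060782) (nat_lit 0) (p (nat_lit 0x687858702) (nat_lit 0) (p (nat_lit 0x10607050482) (nat_lit 0) (p (nat_lit 0x586848402) (nat_lit 0) (p (nat_lit 0x16000c) (nat_lit 0) (p (nat_lit 0x50612) (nat_lit 0) (p (nat_lit 0x40592) (nat_lit 0) (p (nat_lit 0x40492) (nat_lit 0) (p (nat_lit 0x30412) (nat_lit 0) (p (nat_lit 0x30212) (nat_lit 0) (p (nat_lit 0x20192) (nat_lit 0) (p (nat_lit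 0x20092) (nat_lit 0) (p (nat_lit 0x10012) (nat_lit 0) pn))))))))))))))))))))))))) :=
  Cl.node (nat_lit 0x89) (nat_lit 2) (by decide +kernel) (ClAll.succ (ClAll.succ ClAll.zero s123) n102)

def n134 : Cl (O (nat_lit 5)) (R (nat_lit 102673))
    (p (nat_lit 0xc1) (nat_lit 1) (p (nat_lit 0x101) (nat_lit 1) (p (nat_lit 0x119) (nat_lit 0) (p (nat_lit 0xd1) (nat_lit 0) (p (nat_lit 0x81) (nat_lit 0) (p (nat_lit 0x41) (nat_lit 1) (p (nat_lit 0x1098a0b090a9a) (nat_lit 0) (p (nat_lit 0x9098a888a1a) (nat_lit 0) (p (nat_lit 0x108890a08079a) (nat_lit 0) (p (nat_lit 0x8088987871a) (nat_lit 0) (p (nat_lit 0x8000000000800078907088a) (nat_lit 0) (p (nat_lit 0x8000000000800070886860a) (nat_lit 0) (p (nat_lit 0x10708060782) (nat_lit 0) (p (nat_lit 0x687858702) (nat_lit 0) (p (nat_lit 0x10607050482) (nat_lit 0) (p (nat_lit 0x586848402) (nat_lit 0) (p (nat_lit 0x16000c) (nat_lit 0) (p (nat_lit 0x50612)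 (nat_lit 0) (p (nat_lit 0x40592) (nat_lit 0) (p (nat_lit 0x40492) (nat_lit 0) (p (nat_lit 0x30412) (nat_lit 0) (p (nat_lit 0x30212) (nat_lit 0) (p (nat_lit 0x20192) (nat_lit 0) (p (nat_lit 0x20092) (nat_lit 0) (p (nat_lit 0x10012) (nat_lit 0) pn))))))))))))))))))))))))) :=
  Cl.node (nat_lit 0x89) (nat_lit 2) (by decide +kernel) (ClAll.succ (ClAll.succ ClAll.zero n103) n104)

def n135 : Cl (O (nat_lit 5)) (R (nat_lit 102673))
    (p (nat_lit 0xc9) (nat_lit 1) (p (nat_lit 0xc1) (nat_lit 0) (p (nat_lit 0x119) (nat_lit 1) (p (nat_lit 0xd1) (nat_lit 0) (p (nat_lit 0x81) (nat_lit 0) (p (nat_lit 0x41) (nat_lit 1) (p (nat_lit 0x1098a0b090a9a) (nat_lit 0) (p (nat_lit 0x9098a888a1a) (nat_lit 0) (p (nat_lit 0x108890a08079a) (nat_lit 0) (p (nat_lit 0x8088987871a) (nat_lit 0) (p (nat_lit 0x8000000000800078907088a) (nat_lit 0) (p (nat_lit 0x8000000000800070886860a) (nat_lit 0) (p (nat_lit 0x10708060782)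 (nat_lit 0) (p (nat_lit 0x687858702) (nat_lit 0) (p (nat_lit 0x10607050482) (nat_lit 0) (p (nat_lit 0x586848402) (nat_lit 0) (p (nat_lit 0x16000c) (nat_lit 0) (p (nat_lit 0x50612) (nat_lit 0) (p (nat_lit 0x40592) (nat_lit 0) (p (nat_lit 0x40492) (nat_lit 0) (p (nat_lit 0x30412) (nat_lit 0) (p (nat_lit 0x30212) (nat_lit 0) (p (nat_lit 0x20192) (nat_lit 0) (p (nat_lit 0x20092) (nat_lit 0) (p (nat_lit 0x10012) (nat_lit 0) pn))))))))))))))))))))))))) :=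
  Cl.node (nat_lit 0x89) (nat_lit 2) (by decide +kernel) (ClAll.succ (ClAll.succ ClAll.zero s136) n105)

def n136 : Cl (O (nat_lit 5)) (R (nat_lit 102673))
    (p (nat_lit 0x101) (nat_lit 0) (p (nat_lit 0xc1) (nat_lit 1) (p (nat_lit 0x119) (nat_lit 1) (p (nat_lit 0xd1) (nat_lit 0) (p (nat_lit 0x81) (nat_lit 0) (p (nat_lit 0x41) (nat_lit 1) (p (nat_lit 0x1098a0b090a9a) (nat_lit 0) (p (nat_lit 0x9098a888a1a) (nat_lit 0) (p (nat_lit 0x108890a08079a) (nat_lit 0) (p (nat_lit 0x8088987871a) (nat_lit 0) (p (nat_lit 0x8000000000800078907088a) (nat_lit 0) (p (nat_lit 0x8000000000800070886860a) (nat_lit 0) (p (nat_lit 0x10708060782) (nat_lit 0) (p (nat_lit 0x687858702) (nat_lit 0) (p (nat_lit 0x10607050482) (nat_lit 0) (p (nat_lit 0x586848402) (nat_lit 0) (p (nat_lit 0x16000c) (nat_lit 0) (p (nat_lit 0x50612) (nat_lit 0) (p (nat_lit 0x40592) (nat_lit 0) (p (nat_lit 0x40492) (nat_lit 0) (p (nat_lit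 0x30412) (nat_lit 0) (p (nat_lit 0x30212) (nat_lit 0) (p (nat_lit 0x20192) (nat_lit 0) (p (nat_lit 0x20092) (nat_lit 0) (p (nat_lit 0x10012) (nat_lit 0) pn))))))))))))))))))))))))) :=
  Cl.node (nat_lit 0x89) (nat_lit 2) (by decide +kernel) (ClAll.succ (ClAll.succ ClAll.zero s142) n106)

def n137 : Cl (O (nat_lit 5)) (R (nat_lit 102673))
    (p (nat_lit 0x101) (nat_lit 1) (p (nat_lit 0xc1) (nat_lit 1) (p (nat_lit 0x119) (nat_lit 1) (p (nat_lit 0xd1) (nat_lit 0) (p (nat_lit 0x81) (nat_lit 0) (p (nat_lit 0x41) (nat_lit 1) (p (nat_lit 0x1098a0b090a9a) (nat_lit 0) (p (nat_lit 0x9098a888a1a) (nat_lit 0) (p (nat_lit 0x108890a08079a) (nat_lit 0) (p (nat_lit 0x8088987871a) (nat_lit 0) (p (nat_lit 0x8000000000800078907088a) (nat_lit 0) (p (nat_lit 0x8000000000800070886860a) (nat_lit 0) (p (nat_lit 0x10708060782) (nat_lit 0) (p (nat_lit 0x687858702) (nat_lit 0) (p (nat_lit 0x10607050482) (nat_lit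 0) (p (nat_lit 0x586848402) (nat_lit 0) (p (nat_lit 0x16000c) (nat_lit 0) (p (nat_lit 0x50612) (nat_lit 0) (p (nat_lit 0x40592) (nat_lit 0) (p (nat_lit 0x40492) (nat_lit 0) (p (nat_lit 0x30412) (nat_lit 0) (p (nat_lit 0x30212) (nat_lit 0) (p (nat_lit 0x20192) (nat_lit 0) (p (nat_lit 0x20092) (nat_lit 0) (p (nat_lit 0x10012) (nat_lit 0) pn))))))))))))))))))))))))) :=
  Cl.node (nat_lit 0x89) (nat_lit 2) (by decide +kernel) (ClAll.succ (ClAll.succ ClAll.zero s145) n107)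

def n138 : Cl (O (nat_lit 5)) (R (nat_lit 102673))
    (p (nat_lit 0x109) (nat_lit 1) (p (nat_lit 0x101) (nat_lit 0) (p (nat_lit 0x111) (nat_lit 0) (p (nat_lit 0xd1) (nat_lit 1) (p (nat_lit 0x81) (nat_lit 0) (p (nat_lit 0x41) (nat_lit 1) (p (nat_lit 0x1098a0b090a9a) (nat_lit 0) (p (nat_lit 0x9098a888a1a) (nat_lit 0) (p (nat_lit 0x108890a08079a) (nat_lit 0) (p (nat_lit 0x8088987871a) (nat_lit 0) (p (nat_lit 0x8000000000800078907088a) (nat_lit 0) (p (nat_lit 0x8000000000800070886860a) (nat_lit 0) (p (nat_lit 0x10708060782) (nat_lit 0) (p (nat_lit 0x687858702) (nat_lit 0) (p (nat_lit 0x10607050482) (nat_lit 0) (p (nat_lit 0x586848402) (nat_lit 0) (p (nat_lit 0x16000c) (nat_lit 0) (p (nat_lit 0x50612) (nat_lit 0) (p (nat_lit 0x40592) (nat_lit 0) (p (nat_lit 0x40492) (nat_lit 0) (p (nat_lit 0x30412) (nat_lit 0) (p (nat_lit 0x30212) (nat_lit 0) (p (nat_lit 0x20192) (nat_lit 0) (p (nat_lit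 0x20092) (nat_lit 0) (p (nat_lit 0x10012) (nat_lit 0) pn))))))))))))))))))))))))) :=
  Cl.node (nat_lit 0x89) (nat_lit 2) (by decide +kernel) (ClAll.succ (ClAll.succ ClAll.zero s152) n108)

def n139 : Cl (O (nat_lit 5)) (R (nat_lit 102673))
    (p (nat_lit 0x89) (nat_lit 0) (p (nat_lit 0x101) (nat_lit 1) (p (nat_lit 0x111) (nat_lit 0) (p (nat_lit 0xd1) (nat_lit 1) (p (nat_lit 0x81) (nat_lit 0) (p (nat_lit 0x41) (nat_lit 1) (p (nat_lit 0x1098a0b090a9a) (nat_lit 0) (p (nat_lit 0x9098a888a1a) (nat_lit 0) (p (nat_lit 0x108890a08079a) (nat_lit 0) (p (nat_lit 0x8088987871a) (nat_lit 0) (p (nat_lit 0x8000000000800078907088a) (nat_lit 0) (p (nat_lit 0x8000000000800070886860a) (nat_lit 0) (p (nat_lit 0x10708060782) (nat_lit 0) (p (nat_lit 0x687858702) (nat_lit 0) (p (nat_lit 0x10607050482) (nat_lit 0) (p (nat_lit 0x586848402) (nat_lit 0) (p (nat_lit 0x16000c) (nat_lit 0) (p (nat_lit 0x50612)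 (nat_lit 0) (p (nat_lit 0x40592) (nat_lit 0) (p (nat_lit 0x40492) (nat_lit 0) (p (nat_lit 0x30412) (nat_lit 0) (p (nat_lit 0x30212) (nat_lit 0) (p (nat_lit 0x20192) (nat_lit 0) (p (nat_lit 0x20092) (nat_lit 0) (p (nat_lit 0x10012) (nat_lit 0) pn))))))))))))))))))))))))) :=
  Cl.node (nat_lit 0x200004) (nat_lit 2) (by decide +kernel) (ClAll.succ (ClAll.succ ClAll.zero n109) s162)

def n140 : Cl (O (nat_lit 5)) (R (nat_lit 102673))
    (p (nat_lit 0x89) (nat_lit 1) (p (nat_lit 0x101) (nat_lit 1) (p (nat_lit 0x111) (nat_lit 0) (p (nat_lit 0xd1) (nat_lit 1) (p (nat_lit 0x81) (nat_lit 0) (p (nat_lit 0x41) (nat_lit 1) (p (nat_lit 0x1098a0b090a9a) (nat_lit 0) (p (nat_lit 0x9098a888a1a) (nat_lit 0) (p (nat_lit 0x108890a08079a) (nat_lit 0) (p (nat_lit 0x8088987871a) (nat_lit 0) (p (nat_lit 0x8000000000800078907088a) (nat_lit 0) (p (nat_lit 0x8000000000800070886860a) (nat_lit 0) (p (nat_lit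 0x10708060782) (nat_lit 0) (p (nat_lit 0x687858702) (nat_lit 0) (p (nat_lit 0x10607050482) (nat_lit 0) (p (nat_lit 0x586848402) (nat_lit 0) (p (nat_lit 0x16000c) (nat_lit 0) (p (nat_lit 0x50612) (nat_lit 0) (p (nat_lit 0x40592) (nat_lit 0) (p (nat_lit 0x40492) (nat_lit 0) (p (nat_lit 0x30412) (nat_lit 0) (p (nat_lit 0x30212) (nat_lit 0) (p (nat_lit 0x20192) (nat_lit 0) (p (nat_lit 0x20092) (nat_lit 0) (p (nat_lit 0x10012) (nat_lit 0) pn))))))))))))))))))))))))) :=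
  Cl.node (nat_lit 0xc9) (nat_lit 2) (by decide +kernel) (ClAll.succ (ClAll.succ ClAll.zero n110) s170)

def n141 : Cl (O (nat_lit 5)) (R (nat_lit 102673))
    (p (nat_lit 0xc9) (nat_lit 1) (p (nat_lit 0x89) (nat_lit 1) (p (nat_lit 0x111) (nat_lit 1) (p (nat_lit 0xd1) (nat_lit 1) (p (nat_lit 0x81) (nat_lit 0) (p (nat_lit 0x41) (nat_lit 1) (p (nat_lit 0x1098a0b090a9a) (nat_lit 0) (p (nat_lit 0x9098a888a1a) (nat_lit 0) (p (nat_lit 0x108890a08079a) (nat_lit 0) (p (nat_lit 0x8088987871a) (nat_lit 0) (p (nat_lit 0x8000000000800078907088a) (nat_lit 0) (p (nat_lit 0x8000000000800070886860a) (nat_lit 0) (p (nat_lit 0x10708060782) (nat_lit 0) (p (nat_lit 0x687858702) (nat_lit 0) (p (nat_lit 0x10607050482) (nat_lit 0) (p (nat_lit 0x586848402) (nat_lit 0) (p (nat_lit 0x16000c) (nat_lit 0) (p (nat_lit 0x50612) (nat_lit 0) (p (nat_lit 0x40592) (nat_lit 0) (p (nat_lit 0x40492) (nat_lit 0) (p (nat_lit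 0x30412) (nat_lit 0) (p (nat_lit 0x30212) (nat_lit 0) (p (nat_lit 0x20192) (nat_lit 0) (p (nat_lit 0x20092) (nat_lit 0) (p (nat_lit 0x10012) (nat_lit 0) pn))))))))))))))))))))))))) :=
  Cl.node (nat_lit 0x109) (nat_lit 2) (by decide +kernel) (ClAll.succ (ClAll.succ ClAll.zero n111) s177)

def n142 : Cl (O (nat_lit 5)) (R (nat_lit 102673))
    (p (nat_lit 0x109) (nat_lit 0) (p (nat_lit 0x101) (nat_lit 0) (p (nat_lit 0x119) (nat_lit 0) (p (nat_lit 0xc1) (nat_lit 0) (p (nat_lit 0x81) (nat_lit 1) (p (nat_lit 0x41) (nat_lit 1) (p (nat_lit 0x1098a0b090a9a) (nat_lit 0) (p (nat_lit 0x9098a888a1a) (nat_lit 0) (p (nat_lit 0x108890a08079a) (nat_lit 0) (p (nat_lit 0x8088987871a) (nat_lit 0) (p (nat_lit 0x8000000000800078907088a) (nat_lit 0) (p (nat_lit 0x8000000000800070886860a) (nat_lit 0) (p (nat_lit 0x10708060782) (nat_lit 0) (p (nat_lit 0x687858702) (nat_lit 0) (p (nat_lit 0x10607050482) (nat_lit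 0) (p (nat_lit 0x586848402) (nat_lit 0) (p (nat_lit 0x16000c) (nat_lit 0) (p (nat_lit 0x50612) (nat_lit 0) (p (nat_lit 0x40592) (nat_lit 0) (p (nat_lit 0x40492) (nat_lit 0) (p (nat_lit 0x30412) (nat_lit 0) (p (nat_lit 0x30212) (nat_lit 0) (p (nat_lit 0x20192) (nat_lit 0) (p (nat_lit 0x20092) (nat_lit 0) (p (nat_lit 0x10012) (nat_lit 0) pn))))))))))))))))))))))))) :=
  Cl.node (nat_lit 0x111) (nat_lit 2) (by decide +kernel) (ClAll.succ (ClAll.succ ClAll.zero s178) n112)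

def n143 : Cl (O (nat_lit 5)) (R (nat_lit 102673))
    (p (nat_lit 0x109) (nat_lit 1) (p (nat_lit 0x101) (nat_lit 0) (p (nat_lit 0x119) (nat_lit 0) (p (nat_lit 0xc1) (nat_lit 0) (p (nat_lit 0x81) (nat_lit 1) (p (nat_lit 0x41) (nat_lit 1) (p (nat_lit 0x1098a0b090a9a) (nat_lit 0) (p (nat_lit 0x9098a888a1a) (nat_lit 0) (p (nat_lit 0x108890a08079a) (nat_lit 0) (p (nat_lit 0x8088987871a) (nat_lit 0) (p (nat_lit 0x8000000000800078907088a) (nat_lit 0) (p (nat_lit 0x8000000000800070886860a) (nat_lit 0) (p (nat_lit 0x10708060782) (nat_lit 0) (p (nat_lit 0x687858702) (nat_lit 0) (p (nat_lit 0x10607050482) (nat_lit 0) (p (nat_lit 0x586848402) (nat_lit 0) (p (nat_lit 0x16000c) (nat_lit 0) (p (nat_lit 0x50612) (nat_lit 0) (p (nat_lit 0x40592) (nat_lit 0) (p (nat_lit 0x40492) (nat_lit 0) (p (nat_lit 0x30412) (nat_lit 0) (p (nat_lit 0x30212) (nat_lit 0) (p (nat_lit 0x20192) (nat_lit 0) (p (nat_lit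 0x20092) (nat_lit 0) (p (nat_lit 0x10012) (nat_lit 0) pn))))))))))))))))))))))))) :=
  Cl.node (nat_lit 0xc9) (nat_lit 2) (by decide +kernel) (ClAll.succ (ClAll.succ ClAll.zero s182) s183)

def n144 : Cl (O (nat_lit 5)) (R (nat_lit 102673))
    (p (nat_lit 0xc9) (nat_lit 0) (p (nat_lit 0x101) (nat_lit 1) (p (nat_lit 0x119) (nat_lit 0) (p (nat_lit 0xc1) (nat_lit 0) (p (nat_lit 0x81) (nat_lit 1) (p (nat_lit 0x41) (nat_lit 1) (p (nat_lit 0x1098a0b090a9a) (nat_lit 0) (p (nat_lit 0x9098a888a1a) (nat_lit 0) (p (nat_lit 0x108890a08079a) (nat_lit 0) (p (nat_lit 0x8088987871a) (nat_lit 0) (p (nat_lit 0x8000000000800078907088a) (nat_lit 0) (p (nat_lit 0x8000000000800070886860a) (nat_lit 0) (p (nat_lit 0x10708060782) (nat_lit 0) (p (nat_lit 0x687858702) (nat_lit 0) (p (nat_lit 0x10607050482) (nat_lit 0) (p (nat_lit 0x586848402) (nat_lit 0) (p (nat_lit 0x16000c) (nat_lit 0) (p (nat_lit 0x50612)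 (nat_lit 0) (p (nat_lit 0x40592) (nat_lit 0) (p (nat_lit 0x40492) (nat_lit 0) (p (nat_lit 0x30412) (nat_lit 0) (p (nat_lit 0x30212) (nat_lit 0) (p (nat_lit 0x20192) (nat_lit 0) (p (nat_lit 0x20092) (nat_lit 0) (p (nat_lit 0x10012) (nat_lit 0) pn))))))))))))))))))))))))) :=
  Cl.node (nat_lit 0xd1) (nat_lit 2) (by decide +kernel) (ClAll.succ (ClAll.succ ClAll.zero n113) n114)

def n145 : Cl (O (nat_lit 5)) (R (nat_lit 102673))
    (p (nat_lit 0x109) (nat_lit 0) (p (nat_lit 0xc9) (nat_lit 1) (p (nat_lit 0x119) (nat_lit 1) (p (nat_lit 0xc1) (nat_lit 0) (p (nat_lit 0x81) (nat_lit 1) (p (nat_lit 0x41) (nat_lit 1) (p (nat_lit 0x1098a0b090a9a) (nat_lit 0) (p (nat_lit 0x9098a888a1a) (nat_lit 0) (p (nat_lit 0x108890a08079a) (nat_lit 0) (p (nat_lit 0x8088987871a) (nat_lit 0) (p (nat_lit 0x8000000000800078907088a) (nat_lit 0) (p (nat_lit 0x8000000000800070886860a) (nat_lit 0) (p (nat_lit 0x10708060782)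 (nat_lit 0) (p (nat_lit 0x687858702) (nat_lit 0) (p (nat_lit 0x10607050482) (nat_lit 0) (p (nat_lit 0x586848402) (nat_lit 0) (p (nat_lit 0x16000c) (nat_lit 0) (p (nat_lit 0x50612) (nat_lit 0) (p (nat_lit 0x40592) (nat_lit 0) (p (nat_lit 0x40492) (nat_lit 0) (p (nat_lit 0x30412) (nat_lit 0) (p (nat_lit 0x30212) (nat_lit 0) (p (nat_lit 0x20192) (nat_lit 0) (p (nat_lit 0x20092) (nat_lit 0) (p (nat_lit 0x10012) (nat_lit 0) pn))))))))))))))))))))))))) :=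
  Cl.node (nat_lit 0x111) (nat_lit 2) (by decide +kernel) (ClAll.succ (ClAll.succ ClAll.zero n115) s193)

def n146 : Cl (O (nat_lit 5)) (R (nat_lit 102673))
    (p (nat_lit 0x101) (nat_lit 0) (p (nat_lit 0x119) (nat_lit 0) (p (nat_lit 0xd1) (nat_lit 0) (p (nat_lit 0x89) (nat_lit 0) (p (nat_lit 0x41) (nat_lit 0) (p (nat_lit 0x1098a0b090a9a) (nat_lit 0) (p (nat_lit 0x9098a888a1a) (nat_lit 0) (p (nat_lit 0x108890a08079a) (nat_lit 0) (p (nat_lit 0x8088987871a) (nat_lit 0) (p (nat_lit 0x8000000000800078907088a) (nat_lit 0) (p (nat_lit 0x8000000000800070886860a) (nat_lit 0) (p (nat_lit 0x10708060782) (nat_lit 0) (p (nat_lit 0x687858702) (nat_lit 0) (p (nat_lit 0x10607050482) (nat_lit 0) (p (nat_lit 0x586848402) (nat_lit 0) (p (nat_lit 0x16000c) (nat_lit 0) (p (nat_lit 0x50612) (nat_lit 0) (p (nat_lit 0x40592) (nat_lit 0) (p (nat_lit 0x40492) (nat_lit 0) (p (nat_lit 0x30412) (nat_lit 0) (p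 (nat_lit 0x30212) (nat_lit 0) (p (nat_lit 0x20192) (nat_lit 0) (p (nat_lit 0x20092) (nat_lit 0) (p (nat_lit 0x10012) (nat_lit 0) pn)))))))))))))))))))))))) :=
  Cl.node (nat_lit 0x109) (nat_lit 2) (by decide +kernel) (ClAll.succ (ClAll.succ ClAll.zero s0) n116)

def n147 : Cl (O (nat_lit 5)) (R (nat_lit 102673))
    (p (nat_lit 0x101) (nat_lit 1) (p (nat_lit 0x119) (nat_lit 0) (p (nat_lit 0xd1) (nat_lit 0) (p (nat_lit 0x89) (nat_lit 0) (p (nat_lit 0x41) (nat_lit 0) (p (nat_lit 0x1098a0b090a9a) (nat_lit 0) (p (nat_lit 0x9098a888a1a) (nat_lit 0) (p (nat_lit 0x108890a08079a) (nat_lit 0) (p (nat_lit 0x8088987871a) (nat_lit 0) (p (nat_lit 0x8000000000800078907088a) (nat_lit 0) (p (nat_lit 0x8000000000800070886860a) (nat_lit 0) (p (nat_lit 0x10708060782) (nat_lit 0) (p (nat_lit 0x687858702) (nat_lit 0) (p (nat_lit 0x10607050482) (nat_lit 0) (p (nat_lit 0x586848402) (nat_lit 0) (p (nat_lit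 0x16000c) (nat_lit 0) (p (nat_lit 0x50612) (nat_lit 0) (p (nat_lit 0x40592) (nat_lit 0) (p (nat_lit 0x40492) (nat_lit 0) (p (nat_lit 0x30412) (nat_lit 0) (p (nat_lit 0x30212) (nat_lit 0) (p (nat_lit 0x20192) (nat_lit 0) (p (nat_lit 0x20092) (nat_lit 0) (p (nat_lit 0x10012) (nat_lit 0) pn)))))))))))))))))))))))) :=
  Cl.node (nat_lit 0x81) (nat_lit 2) (by decide +kernel) (ClAll.succ (ClAll.succ ClAll.zero n117) n118)

def n148 : Cl (O (nat_lit 5)) (R (nat_lit 102673))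
    (p (nat_lit 0xc1) (nat_lit 0) (p (nat_lit 0x119) (nat_lit 1) (p (nat_lit 0xd1) (nat_lit 0) (p (nat_lit 0x89) (nat_lit 0) (p (nat_lit 0x41) (nat_lit 0) (p (nat_lit 0x1098a0b090a9a) (nat_lit 0) (p (nat_lit 0x9098a888a1a) (nat_lit 0) (p (nat_lit 0x108890a08079a) (nat_lit 0) (p (nat_lit 0x8088987871a) (nat_lit 0) (p (nat_lit 0x8000000000800078907088a) (nat_lit 0) (p (nat_lit 0x8000000000800070886860a) (nat_lit 0) (p (nat_lit 0x10708060782) (nat_lit 0) (p (nat_lit 0x687858702) (nat_lit 0) (p (nat_lit 0x10607050482) (nat_lit 0) (p (nat_lit 0x586848402) (nat_lit 0) (p (nat_lit 0x16000c) (nat_lit 0) (p (nat_lit 0x50612) (nat_lit 0) (p (nat_lit 0x40592) (nat_lit 0) (p (nat_lit 0x40492) (nat_lit 0) (p (nat_lit 0x30412) (nat_lit 0) (p (nat_lit 0x30212) (nat_lit 0) (p (nat_lit 0x20192) (nat_lit 0) (p (nat_lit 0x20092) (nat_lit 0) (p (nat_lit 0x10012) (nat_lit 0) pn))))))))))))))))))))))))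 :=
  Cl.node (nat_lit 0xc9) (nat_lit 2) (by decide +kernel) (ClAll.succ (ClAll.succ ClAll.zero s20) n119)

def n149 : Cl (O (nat_lit 5)) (R (nat_lit 102673))
    (p (nat_lit 0xc1) (nat_lit 1) (p (nat_lit 0x119) (nat_lit 1) (p (nat_lit 0xd1) (nat_lit 0) (p (nat_lit 0x89) (nat_lit 0) (p (nat_lit 0x41) (nat_lit 0) (p (nat_lit 0x1098a0b090a9a) (nat_lit 0) (p (nat_lit 0x9098a888a1a) (nat_lit 0) (p (nat_lit 0x108890a08079a) (nat_lit 0) (p (nat_lit 0x8088987871a) (nat_lit 0) (p (nat_lit 0x8000000000800078907088a) (nat_lit 0) (p (nat_lit 0x8000000000800070886860a) (nat_lit 0) (p (nat_lit 0x10708060782) (nat_lit 0) (p (nat_lit 0x687858702) (nat_lit 0) (p (nat_lit 0x10607050482) (nat_lit 0) (p (nat_lit 0x586848402) (nat_lit 0) (p (nat_lit 0x16000c) (nat_lit 0) (p (nat_lit 0x50612) (nat_lit 0) (p (nat_lit 0x40592) (nat_lit 0) (p (nat_lit 0x40492) (nat_lit 0) (p (nat_lit 0x30412) (nat_lit 0) (p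 (nat_lit 0x30212) (nat_lit 0) (p (nat_lit 0x20192) (nat_lit 0) (p (nat_lit 0x20092) (nat_lit 0) (p (nat_lit 0x10012) (nat_lit 0) pn)))))))))))))))))))))))) :=
  Cl.node (nat_lit 0x81) (nat_lit 2) (by decide +kernel) (ClAll.succ (ClAll.succ ClAll.zero n120) n121)

def n150 : Cl (O (nat_lit 5)) (R (nat_lit 102673))
    (p (nat_lit 0x101) (nat_lit 0) (p (nat_lit 0x111) (nat_lit 0) (p (nat_lit 0xd1) (nat_lit 1) (p (nat_lit 0x89) (nat_lit 0) (p (nat_lit 0x41) (nat_lit 0) (p (nat_lit 0x1098a0b090a9a) (nat_lit 0) (p (nat_lit 0x9098a888a1a) (nat_lit 0) (p (nat_lit 0x108890a08079a) (nat_lit 0) (p (nat_lit 0x8088987871a) (nat_lit 0) (p (nat_lit 0x8000000000800078907088a) (nat_lit 0) (p (nat_lit 0x8000000000800070886860a) (nat_lit 0) (p (nat_lit 0x10708060782) (nat_lit 0) (p (nat_lit 0x687858702) (nat_lit 0) (p (nat_lit 0x10607050482) (nat_lit 0) (p (nat_lit 0x586848402) (nat_lit 0) (p (nat_lit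 0x16000c) (nat_lit 0) (p (nat_lit 0x50612) (nat_lit 0) (p (nat_lit 0x40592) (nat_lit 0) (p (nat_lit 0x40492) (nat_lit 0) (p (nat_lit 0x30412) (nat_lit 0) (p (nat_lit 0x30212) (nat_lit 0) (p (nat_lit 0x20192) (nat_lit 0) (p (nat_lit 0x20092) (nat_lit 0) (p (nat_lit 0x10012) (nat_lit 0) pn)))))))))))))))))))))))) :=
  Cl.node (nat_lit 0x109) (nat_lit 2) (by decide +kernel) (ClAll.succ (ClAll.succ ClAll.zero s35) n122)

def n151 : Cl (O (nat_lit 5)) (R (nat_lit 102673))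
    (p (nat_lit 0x101) (nat_lit 1) (p (nat_lit 0x111) (nat_lit 0) (p (nat_lit 0xd1) (nat_lit 1) (p (nat_lit 0x89) (nat_lit 0) (p (nat_lit 0x41) (nat_lit 0) (p (nat_lit 0x1098a0b090a9a) (nat_lit 0) (p (nat_lit 0x9098a888a1a) (nat_lit 0) (p (nat_lit 0x108890a08079a) (nat_lit 0) (p (nat_lit 0x8088987871a) (nat_lit 0) (p (nat_lit 0x8000000000800078907088a) (nat_lit 0) (p (nat_lit 0x8000000000800070886860a) (nat_lit 0) (p (nat_lit 0x10708060782) (nat_lit 0) (p (nat_lit 0x687858702) (nat_lit 0) (p (nat_lit 0x10607050482) (nat_lit 0) (p (nat_lit 0x586848402) (nat_lit 0) (p (nat_lit 0x16000c) (nat_lit 0) (p (nat_lit 0x50612) (nat_lit 0) (p (nat_lit 0x40592) (nat_lit 0) (p (nat_lit 0x40492) (nat_lit 0) (p (nat_lit 0x30412) (nat_lit 0) (p (nat_lit 0x30212) (nat_lit 0) (p (nat_lit 0x20192) (nat_lit 0) (p (nat_lit 0x20092) (nat_lit 0) (p (nat_lit 0x10012) (nat_lit 0) pn))))))))))))))))))))))))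 :=
  Cl.node (nat_lit 0x81) (nat_lit 2) (by decide +kernel) (ClAll.succ (ClAll.succ ClAll.zero n123) n124)

def n152 : Cl (O (nat_lit 5)) (R (nat_lit 102673))
    (p (nat_lit 0x81) (nat_lit 1) (p (nat_lit 0x111) (nat_lit 1) (p (nat_lit 0xd1) (nat_lit 1) (p (nat_lit 0x89) (nat_lit 0) (p (nat_lit 0x41) (nat_lit 0) (p (nat_lit 0x1098a0b090a9a) (nat_lit 0) (p (nat_lit 0x9098a888a1a) (nat_lit 0) (p (nat_lit 0x108890a08079a) (nat_lit 0) (p (nat_lit 0x8088987871a) (nat_lit 0) (p (nat_lit 0x8000000000800078907088a) (nat_lit 0) (p (nat_lit 0x8000000000800070886860a) (nat_lit 0) (p (nat_lit 0x10708060782) (nat_lit 0) (p (nat_lit 0x687858702) (nat_lit 0) (p (nat_lit 0x10607050482) (nat_lit 0) (p (nat_lit 0x586848402) (nat_lit 0) (p (nat_lit 0x16000c) (nat_lit 0) (p (nat_lit 0x50612) (nat_lit 0) (p (nat_lit 0x40592) (nat_lit 0) (p (nat_lit 0x40492) (nat_lit 0) (p (nat_lit 0x30412) (nat_lit 0)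 (p (nat_lit 0x30212) (nat_lit 0) (p (nat_lit 0x20192) (nat_lit 0) (p (nat_lit 0x20092) (nat_lit 0) (p (nat_lit 0x10012) (nat_lit 0) pn)))))))))))))))))))))))) :=
  Cl.node (nat_lit 0xc1) (nat_lit 2) (by decide +kernel) (ClAll.succ (ClAll.succ ClAll.zero s55) n125)

def n153 : Cl (O (nat_lit 5)) (R (nat_lit 102673))
    (p (nat_lit 0x101) (nat_lit 0) (p (nat_lit 0x119) (nat_lit 0) (p (nat_lit 0xc9) (nat_lit 0) (p (nat_lit 0x89) (nat_lit 1) (p (nat_lit 0x41) (nat_lit 0) (p (nat_lit 0x1098a0b090a9a) (nat_lit 0) (p (nat_lit 0x9098a888a1a) (nat_lit 0) (p (nat_lit 0x108890a08079a) (nat_lit 0) (p (nat_lit 0x8088987871a) (nat_lit 0) (p (nat_lit 0x8000000000800078907088a) (nat_lit 0) (p (nat_lit 0x8000000000800070886860a) (nat_lit 0) (p (nat_lit 0x10708060782) (nat_lit 0) (p (nat_lit 0x687858702) (nat_lit 0) (p (nat_lit 0x10607050482) (nat_lit 0) (p (nat_lit 0x586848402) (nat_lit 0) (p (nat_lit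 0x16000c) (nat_lit 0) (p (nat_lit 0x50612) (nat_lit 0) (p (nat_lit 0x40592) (nat_lit 0) (p (nat_lit 0x40492) (nat_lit 0) (p (nat_lit 0x30412) (nat_lit 0) (p (nat_lit 0x30212) (nat_lit 0) (p (nat_lit 0x20192) (nat_lit 0) (p (nat_lit 0x20092) (nat_lit 0) (p (nat_lit 0x10012) (nat_lit 0) pn)))))))))))))))))))))))) :=
  Cl.node (nat_lit 0x109) (nat_lit 2) (by decide +kernel) (ClAll.succ (ClAll.succ ClAll.zero n126) n127)

def n154 : Cl (O (nat_lit 5)) (R (nat_lit 102673))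
    (p (nat_lit 0x101) (nat_lit 1) (p (nat_lit 0x119) (nat_lit 0) (p (nat_lit 0xc9) (nat_lit 0) (p (nat_lit 0x89) (nat_lit 1) (p (nat_lit 0x41) (nat_lit 0) (p (nat_lit 0x1098a0b090a9a) (nat_lit 0) (p (nat_lit 0x9098a888a1a) (nat_lit 0) (p (nat_lit 0x108890a08079a) (nat_lit 0) (p (nat_lit 0x8088987871a) (nat_lit 0) (p (nat_lit 0x8000000000800078907088a) (nat_lit 0) (p (nat_lit 0x8000000000800070886860a) (nat_lit 0) (p (nat_lit 0x10708060782) (nat_lit 0) (p (nat_lit 0x687858702) (nat_lit 0) (p (nat_lit 0x10607050482) (nat_lit 0) (p (nat_lit 0x586848402) (nat_lit 0) (p (nat_lit 0x16000c) (nat_lit 0) (p (nat_lit 0x50612) (nat_lit 0) (p (nat_lit 0x40592) (nat_lit 0) (p (nat_lit 0x40492) (nat_lit 0) (p (nat_lit 0x30412) (nat_lit 0) (p (nat_lit 0x30212) (nat_lit 0) (p (nat_lit 0x20192) (nat_lit 0) (p (nat_lit 0x20092) (nat_lit 0) (p (nat_lit 0x10012) (nat_lit 0) pn))))))))))))))))))))))))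 :=
  Cl.node (nat_lit 0xc1) (nat_lit 2) (by decide +kernel) (ClAll.succ (ClAll.succ ClAll.zero n128) s95)

def n155 : Cl (O (nat_lit 5)) (R (nat_lit 102673))
    (p (nat_lit 0xc1) (nat_lit 0) (p (nat_lit 0x119) (nat_lit 1) (p (nat_lit 0xc9) (nat_lit 0) (p (nat_lit 0x89) (nat_lit 1) (p (nat_lit 0x41) (nat_lit 0) (p (nat_lit 0x1098a0b090a9a) (nat_lit 0) (p (nat_lit 0x9098a888a1a) (nat_lit 0) (p (nat_lit 0x108890a08079a) (nat_lit 0) (p (nat_lit 0x8088987871a) (nat_lit 0) (p (nat_lit 0x8000000000800078907088a) (nat_lit 0) (p (nat_lit 0x8000000000800070886860a) (nat_lit 0) (p (nat_lit 0x10708060782) (nat_lit 0) (p (nat_lit 0x687858702) (nat_lit 0) (p (nat_lit 0x10607050482) (nat_lit 0) (p (nat_lit 0x586848402) (nat_lit 0) (p (nat_lit 0x16000c) (nat_lit 0) (p (nat_lit 0x50612) (nat_lit 0) (p (nat_lit 0x40592) (nat_lit 0) (p (nat_lit 0x40492) (nat_lit 0) (p (nat_lit 0x30412) (nat_lit 0) (p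 (nat_lit 0x30212) (nat_lit 0) (p (nat_lit 0x20192) (nat_lit 0) (p (nat_lit 0x20092) (nat_lit 0) (p (nat_lit 0x10012) (nat_lit 0) pn)))))))))))))))))))))))) :=
  Cl.node (nat_lit 0xd1) (nat_lit 2) (by decide +kernel) (ClAll.succ (ClAll.succ ClAll.zero s96) n129)

def n156 : Cl (O (nat_lit 5)) (R (nat_lit 102673))
    (p (nat_lit 0xc1) (nat_lit 1) (p (nat_lit 0x119) (nat_lit 1) (p (nat_lit 0xc9) (nat_lit 0) (p (nat_lit 0x89) (nat_lit 1) (p (nat_lit 0x41) (nat_lit 0) (p (nat_lit 0x1098a0b090a9a) (nat_lit 0) (p (nat_lit 0x9098a888a1a) (nat_lit 0) (p (nat_lit 0x108890a08079a) (nat_lit 0) (p (nat_lit 0x8088987871a) (nat_lit 0) (p (nat_lit 0x8000000000800078907088a) (nat_lit 0) (p (nat_lit 0x8000000000800070886860a) (nat_lit 0) (p (nat_lit 0x10708060782) (nat_lit 0) (p (nat_lit 0x687858702) (nat_lit 0) (p (nat_lit 0x10607050482) (nat_lit 0) (p (nat_lit 0x586848402) (nat_lit 0) (p (nat_lit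 0x16000c) (nat_lit 0) (p (nat_lit 0x50612) (nat_lit 0) (p (nat_lit 0x40592) (nat_lit 0) (p (nat_lit 0x40492) (nat_lit 0) (p (nat_lit 0x30412) (nat_lit 0) (p (nat_lit 0x30212) (nat_lit 0) (p (nat_lit 0x20192) (nat_lit 0) (p (nat_lit 0x20092) (nat_lit 0) (p (nat_lit 0x10012) (nat_lit 0) pn)))))))))))))))))))))))) :=
  Cl.node (nat_lit 0x101) (nat_lit 2) (by decide +kernel) (ClAll.succ (ClAll.succ ClAll.zero n130) n131)

def n157 : Cl (O (nat_lit 5)) (R (nat_lit 102673))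
    (p (nat_lit 0x101) (nat_lit 0) (p (nat_lit 0x109) (nat_lit 0) (p (nat_lit 0xc9) (nat_lit 1) (p (nat_lit 0x89) (nat_lit 1) (p (nat_lit 0x41) (nat_lit 0) (p (nat_lit 0x1098a0b090a9a) (nat_lit 0) (p (nat_lit 0x9098a888a1a) (nat_lit 0) (p (nat_lit 0x108890a08079a) (nat_lit 0) (p (nat_lit 0x8088987871a) (nat_lit 0) (p (nat_lit 0x8000000000800078907088a) (nat_lit 0) (p (nat_lit 0x8000000000800070886860a) (nat_lit 0) (p (nat_lit 0x10708060782) (nat_lit 0) (p (nat_lit 0x687858702) (nat_lit 0) (p (nat_lit 0x10607050482) (nat_lit 0) (p (nat_lit 0x586848402) (nat_lit 0) (p (nat_lit 0x16000c) (nat_lit 0) (p (nat_lit 0x50612) (nat_lit 0) (p (nat_lit 0x40592) (nat_lit 0) (p (nat_lit 0x40492) (nat_lit 0) (p (nat_lit 0x30412) (nat_lit 0) (p (nat_lit 0x30212) (nat_lit 0) (p (nat_lit 0x20192) (nat_lit 0) (p (nat_lit 0x20092) (nat_lit 0) (p (nat_lit 0x10012) (nat_lit 0) pn))))))))))))))))))))))))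 :=
  Cl.node (nat_lit 0x111) (nat_lit 2) (by decide +kernel) (ClAll.succ (ClAll.succ ClAll.zero s115) s116)

def n158 : Cl (O (nat_lit 5)) (R (nat_lit 102673))
    (p (nat_lit 0x101) (nat_lit 0) (p (nat_lit 0x119) (nat_lit 0) (p (nat_lit 0xd1) (nat_lit 0) (p (nat_lit 0x81) (nat_lit 0) (p (nat_lit 0x41) (nat_lit 1) (p (nat_lit 0x1098a0b090a9a) (nat_lit 0) (p (nat_lit 0x9098a888a1a) (nat_lit 0) (p (nat_lit 0x108890a08079a) (nat_lit 0) (p (nat_lit 0x8088987871a) (nat_lit 0) (p (nat_lit 0x8000000000800078907088a) (nat_lit 0) (p (nat_lit 0x8000000000800070886860a) (nat_lit 0) (p (nat_lit 0x10708060782) (nat_lit 0) (p (nat_lit 0x687858702) (nat_lit 0) (p (nat_lit 0x10607050482) (nat_lit 0) (p (nat_lit 0x586848402) (nat_lit 0) (p (nat_lit 0x16000c) (nat_lit 0) (p (nat_lit 0x50612) (nat_lit 0) (p (nat_lit 0x40592) (nat_lit 0) (p (nat_lit 0x40492) (nat_lit 0) (p (nat_lit 0x30412) (nat_lit 0)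 (p (nat_lit 0x30212) (nat_lit 0) (p (nat_lit 0x20192) (nat_lit 0) (p (nat_lit 0x20092) (nat_lit 0) (p (nat_lit 0x10012) (nat_lit 0) pn)))))))))))))))))))))))) :=
  Cl.node (nat_lit 0x109) (nat_lit 2) (by decide +kernel) (ClAll.succ (ClAll.succ ClAll.zero s119) n132)

def n159 : Cl (O (nat_lit 5)) (R (nat_lit 102673))
    (p (nat_lit 0x101) (nat_lit 1) (p (nat_lit 0x119) (nat_lit 0) (p (nat_lit 0xd1) (nat_lit 0) (p (nat_lit 0x81) (nat_lit 0) (p (nat_lit 0x41) (nat_lit 1) (p (nat_lit 0x1098a0b090a9a) (nat_lit 0) (p (nat_lit 0x9098a888a1a) (nat_lit 0) (p (nat_lit 0x108890a08079a) (nat_lit 0) (p (nat_lit 0x8088987871a) (nat_lit 0) (p (nat_lit 0x8000000000800078907088a) (nat_lit 0) (p (nat_lit 0x8000000000800070886860a) (nat_lit 0) (p (nat_lit 0x10708060782) (nat_lit 0) (p (nat_lit 0x687858702) (nat_lit 0) (p (nat_lit 0x10607050482) (nat_lit 0) (p (nat_lit 0x586848402) (nat_lit 0) (p (nat_lit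 0x16000c) (nat_lit 0) (p (nat_lit 0x50612) (nat_lit 0) (p (nat_lit 0x40592) (nat_lit 0) (p (nat_lit 0x40492) (nat_lit 0) (p (nat_lit 0x30412) (nat_lit 0) (p (nat_lit 0x30212) (nat_lit 0) (p (nat_lit 0x20192) (nat_lit 0) (p (nat_lit 0x20092) (nat_lit 0) (p (nat_lit 0x10012) (nat_lit 0) pn)))))))))))))))))))))))) :=
  Cl.node (nat_lit 0xc1) (nat_lit 2) (by decide +kernel) (ClAll.succ (ClAll.succ ClAll.zero n133) n134)

def n160 : Cl (O (nat_lit 5)) (R (nat_lit 102673))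
    (p (nat_lit 0xc1) (nat_lit 0) (p (nat_lit 0x119) (nat_lit 1) (p (nat_lit 0xd1) (nat_lit 0) (p (nat_lit 0x81) (nat_lit 0) (p (nat_lit 0x41) (nat_lit 1) (p (nat_lit 0x1098a0b090a9a) (nat_lit 0) (p (nat_lit 0x9098a888a1a) (nat_lit 0) (p (nat_lit 0x108890a08079a) (nat_lit 0) (p (nat_lit 0x8088987871a) (nat_lit 0) (p (nat_lit 0x8000000000800078907088a) (nat_lit 0) (p (nat_lit 0x8000000000800070886860a) (nat_lit 0) (p (nat_lit 0x10708060782) (nat_lit 0) (p (nat_lit 0x687858702) (nat_lit 0) (p (nat_lit 0x10607050482) (nat_lit 0) (p (nat_lit 0x586848402) (nat_lit 0) (p (nat_lit 0x16000c) (nat_lit 0) (p (nat_lit 0x50612) (nat_lit 0) (p (nat_lit 0x40592) (nat_lit 0) (p (nat_lit 0x40492) (nat_lit 0) (p (nat_lit 0x30412) (nat_lit 0) (p (nat_lit 0x30212) (nat_lit 0) (p (nat_lit 0x20192) (nat_lit 0) (p (nat_lit 0x20092) (nat_lit 0) (p (nat_lit 0x10012) (nat_lit 0) pn))))))))))))))))))))))))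 :=
  Cl.node (nat_lit 0xc9) (nat_lit 2) (by decide +kernel) (ClAll.succ (ClAll.succ ClAll.zero s135) n135)

def n161 : Cl (O (nat_lit 5)) (R (nat_lit 102673))
    (p (nat_lit 0xc1) (nat_lit 1) (p (nat_lit 0x119) (nat_lit 1) (p (nat_lit 0xd1) (nat_lit 0) (p (nat_lit 0x81) (nat_lit 0) (p (nat_lit 0x41) (nat_lit 1) (p (nat_lit 0x1098a0b090a9a) (nat_lit 0) (p (nat_lit 0x9098a888a1a) (nat_lit 0) (p (nat_lit 0x108890a08079a) (nat_lit 0) (p (nat_lit 0x8088987871a) (nat_lit 0) (p (nat_lit 0x8000000000800078907088a) (nat_lit 0) (p (nat_lit 0x8000000000800070886860a) (nat_lit 0) (p (nat_lit 0x10708060782) (nat_lit 0) (p (nat_lit 0x687858702) (nat_lit 0) (p (nat_lit 0x10607050482) (nat_lit 0) (p (nat_lit 0x586848402) (nat_lit 0) (p (nat_lit 0x16000c) (nat_lit 0) (p (nat_lit 0x50612) (nat_lit 0) (p (nat_lit 0x40592) (nat_lit 0) (p (nat_lit 0x40492) (nat_lit 0) (p (nat_lit 0x30412) (nat_lit 0)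 (p (nat_lit 0x30212) (nat_lit 0) (p (nat_lit 0x20192) (nat_lit 0) (p (nat_lit 0x20092) (nat_lit 0) (p (nat_lit 0x10012) (nat_lit 0) pn)))))))))))))))))))))))) :=
  Cl.node (nat_lit 0x101) (nat_lit 2) (by decide +kernel) (ClAll.succ (ClAll.succ ClAll.zero n136) n137)

def n162 : Cl (O (nat_lit 5)) (R (nat_lit 102673))
    (p (nat_lit 0x101) (nat_lit 0) (p (nat_lit 0x111) (nat_lit 0) (p (nat_lit 0xd1) (nat_lit 1) (p (nat_lit 0x81) (nat_lit 0) (p (nat_lit 0x41) (nat_lit 1) (p (nat_lit 0x1098a0b090a9a) (nat_lit 0) (p (nat_lit 0x9098a888a1a) (nat_lit 0) (p (nat_lit 0x108890a08079a) (nat_lit 0) (p (nat_lit 0x8088987871a) (nat_lit 0) (p (nat_lit 0x8000000000800078907088a) (nat_lit 0) (p (nat_lit 0x8000000000800070886860a) (nat_lit 0) (p (nat_lit 0x10708060782) (nat_lit 0) (p (nat_lit 0x687858702) (nat_lit 0) (p (nat_lit 0x10607050482) (nat_lit 0) (p (nat_lit 0x586848402) (nat_lit 0) (p (nat_lit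 0x16000c) (nat_lit 0) (p (nat_lit 0x50612) (nat_lit 0) (p (nat_lit 0x40592) (nat_lit 0) (p (nat_lit 0x40492) (nat_lit 0) (p (nat_lit 0x30412) (nat_lit 0) (p (nat_lit 0x30212) (nat_lit 0) (p (nat_lit 0x20192) (nat_lit 0) (p (nat_lit 0x20092) (nat_lit 0) (p (nat_lit 0x10012) (nat_lit 0) pn)))))))))))))))))))))))) :=
  Cl.node (nat_lit 0x109) (nat_lit 2) (by decide +kernel) (ClAll.succ (ClAll.succ ClAll.zero s151) n138)

def n163 : Cl (O (nat_lit 5)) (R (nat_lit 102673))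
    (p (nat_lit 0x101) (nat_lit 1) (p (nat_lit 0x111) (nat_lit 0) (p (nat_lit 0xd1) (nat_lit 1) (p (nat_lit 0x81) (nat_lit 0) (p (nat_lit 0x41) (nat_lit 1) (p (nat_lit 0x1098a0b090a9a) (nat_lit 0) (p (nat_lit 0x9098a888a1a) (nat_lit 0) (p (nat_lit 0x108890a08079a) (nat_lit 0) (p (nat_lit 0x8088987871a) (nat_lit 0) (p (nat_lit 0x8000000000800078907088a) (nat_lit 0) (p (nat_lit 0x8000000000800070886860a) (nat_lit 0) (p (nat_lit 0x10708060782) (nat_lit 0) (p (nat_lit 0x687858702) (nat_lit 0) (p (nat_lit 0x10607050482) (nat_lit 0) (p (nat_lit 0x586848402) (nat_lit 0) (p (nat_lit 0x16000c) (nat_lit 0) (p (nat_lit 0x50612) (nat_lit 0) (p (nat_lit 0x40592) (nat_lit 0) (p (nat_lit 0x40492) (nat_lit 0) (p (nat_lit 0x30412) (nat_lit 0) (p (nat_lit 0x30212) (nat_lit 0) (p (nat_lit 0x20192) (nat_lit 0) (p (nat_lit 0x20092) (nat_lit 0) (p (nat_lit 0x10012) (nat_lit 0) pn))))))))))))))))))))))))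 :=
  Cl.node (nat_lit 0x89) (nat_lit 2) (by decide +kernel) (ClAll.succ (ClAll.succ ClAll.zero n139) n140)

def n164 : Cl (O (nat_lit 5)) (R (nat_lit 102673))
    (p (nat_lit 0x89) (nat_lit 1) (p (nat_lit 0x111) (nat_lit 1) (p (nat_lit 0xd1) (nat_lit 1) (p (nat_lit 0x81) (nat_lit 0) (p (nat_lit 0x41) (nat_lit 1) (p (nat_lit 0x1098a0b090a9a) (nat_lit 0) (p (nat_lit 0x9098a888a1a) (nat_lit 0) (p (nat_lit 0x108890a08079a) (nat_lit 0) (p (nat_lit 0x8088987871a) (nat_lit 0) (p (nat_lit 0x8000000000800078907088a) (nat_lit 0) (p (nat_lit 0x8000000000800070886860a) (nat_lit 0) (p (nat_lit 0x10708060782) (nat_lit 0) (p (nat_lit 0x687858702) (nat_lit 0) (p (nat_lit 0x10607050482) (nat_lit 0) (p (nat_lit 0x586848402) (nat_lit 0) (p (nat_lit 0x16000c) (nat_lit 0) (p (nat_lit 0x50612) (nat_lit 0) (p (nat_lit 0x40592) (nat_lit 0) (p (nat_lit 0x40492) (nat_lit 0) (p (nat_lit 0x30412) (nat_lit 0)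 (p (nat_lit 0x30212) (nat_lit 0) (p (nat_lit 0x20192) (nat_lit 0) (p (nat_lit 0x20092) (nat_lit 0) (p (nat_lit 0x10012) (nat_lit 0) pn)))))))))))))))))))))))) :=
  Cl.node (nat_lit 0xc9) (nat_lit 2) (by decide +kernel) (ClAll.succ (ClAll.succ ClAll.zero s172) n141)

def n165 : Cl (O (nat_lit 5)) (R (nat_lit 102673))
    (p (nat_lit 0x101) (nat_lit 0) (p (nat_lit 0x119) (nat_lit 0) (p (nat_lit 0xc1) (nat_lit 0) (p (nat_lit 0x81) (nat_lit 1) (p (nat_lit 0x41) (nat_lit 1) (p (nat_lit 0x1098a0b090a9a) (nat_lit 0) (p (nat_lit 0x9098a888a1a) (nat_lit 0) (p (nat_lit 0x108890a08079a) (nat_lit 0) (p (nat_lit 0x8088987871a) (nat_lit 0) (p (nat_lit 0x8000000000800078907088a) (nat_lit 0) (p (nat_lit 0x8000000000800070886860a) (nat_lit 0) (p (nat_lit 0x10708060782) (nat_lit 0) (p (nat_lit 0x687858702) (nat_lit 0) (p (nat_lit 0x10607050482) (nat_lit 0) (p (nat_lit 0x586848402) (nat_lit 0) (p (nat_lit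 0x16000c) (nat_lit 0) (p (nat_lit 0x50612) (nat_lit 0) (p (nat_lit 0x40592) (nat_lit 0) (p (nat_lit 0x40492) (nat_lit 0) (p (nat_lit 0x30412) (nat_lit 0) (p (nat_lit 0x30212) (nat_lit 0) (p (nat_lit 0x20192) (nat_lit 0) (p (nat_lit 0x20092) (nat_lit 0) (p (nat_lit 0x10012) (nat_lit 0) pn)))))))))))))))))))))))) :=
  Cl.node (nat_lit 0x109) (nat_lit 2) (by decide +kernel) (ClAll.succ (ClAll.succ ClAll.zero n142) n143)

def n166 : Cl (O (nat_lit 5)) (R (nat_lit 102673))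
    (p (nat_lit 0x101) (nat_lit 1) (p (nat_lit 0x119) (nat_lit 0) (p (nat_lit 0xc1) (nat_lit 0) (p (nat_lit 0x81) (nat_lit 1) (p (nat_lit 0x41) (nat_lit 1) (p (nat_lit 0x1098a0b090a9a) (nat_lit 0) (p (nat_lit 0x9098a888a1a) (nat_lit 0) (p (nat_lit 0x108890a08079a) (nat_lit 0) (p (nat_lit 0x8088987871a) (nat_lit 0) (p (nat_lit 0x8000000000800078907088a) (nat_lit 0) (p (nat_lit 0x8000000000800070886860a) (nat_lit 0) (p (nat_lit 0x10708060782) (nat_lit 0) (p (nat_lit 0x687858702) (nat_lit 0) (p (nat_lit 0x10607050482) (nat_lit 0) (p (nat_lit 0x586848402) (nat_lit 0) (p (nat_lit 0x16000c) (nat_lit 0) (p (nat_lit 0x50612) (nat_lit 0) (p (nat_lit 0x40592) (nat_lit 0) (p (nat_lit 0x40492) (nat_lit 0) (p (nat_lit 0x30412) (nat_lit 0) (p (nat_lit 0x30212) (nat_lit 0) (p (nat_lit 0x20192) (nat_lit 0) (p (nat_lit 0x20092) (nat_lit 0) (p (nat_lit 0x10012) (nat_lit 0) pn))))))))))))))))))))))))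 :=
  Cl.node (nat_lit 0xc9) (nat_lit 2) (by decide +kernel) (ClAll.succ (ClAll.succ ClAll.zero n144) s189)

def n167 : Cl (O (nat_lit 5)) (R (nat_lit 102673))
    (p (nat_lit 0xc9) (nat_lit 1) (p (nat_lit 0x119) (nat_lit 1) (p (nat_lit 0xc1) (nat_lit 0) (p (nat_lit 0x81) (nat_lit 1) (p (nat_lit 0x41) (nat_lit 1) (p (nat_lit 0x1098a0b090a9a) (nat_lit 0) (p (nat_lit 0x9098a888a1a) (nat_lit 0) (p (nat_lit 0x108890a08079a) (nat_lit 0) (p (nat_lit 0x8088987871a) (nat_lit 0) (p (nat_lit 0x8000000000800078907088a) (nat_lit 0) (p (nat_lit 0x8000000000800070886860a) (nat_lit 0) (p (nat_lit 0x10708060782) (nat_lit 0) (p (nat_lit 0x687858702) (nat_lit 0) (p (nat_lit 0x10607050482) (nat_lit 0) (p (nat_lit 0x586848402) (nat_lit 0) (p (nat_lit 0x16000c) (nat_lit 0) (p (nat_lit 0x50612) (nat_lit 0) (p (nat_lit 0x40592) (nat_lit 0) (p (nat_lit 0x40492) (nat_lit 0) (p (nat_lit 0x30412) (nat_lit 0)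 (p (nat_lit 0x30212) (nat_lit 0) (p (nat_lit 0x20192) (nat_lit 0) (p (nat_lit 0x20092) (nat_lit 0) (p (nat_lit 0x10012) (nat_lit 0) pn)))))))))))))))))))))))) :=
  Cl.node (nat_lit 0x109) (nat_lit 2) (by decide +kernel) (ClAll.succ (ClAll.succ ClAll.zero n145) s194)

def n168 : Cl (O (nat_lit 5)) (R (nat_lit 102673))
    (p (nat_lit 0x119) (nat_lit 0) (p (nat_lit 0xd1) (nat_lit 0) (p (nat_lit 0x89) (nat_lit 0) (p (nat_lit 0x41) (nat_lit 0) (p (nat_lit 0x1098a0b090a9a) (nat_lit 0) (p (nat_lit 0x9098a888a1a) (nat_lit 0) (p (nat_lit 0x108890a08079a) (nat_lit 0) (p (nat_lit 0x8088987871a) (nat_lit 0) (p (nat_lit 0x8000000000800078907088a) (nat_lit 0) (p (nat_lit 0x8000000000800070886860a) (nat_lit 0) (p (nat_lit 0x10708060782) (nat_lit 0) (p (nat_lit 0x687858702) (nat_lit 0) (p (nat_lit 0x10607050482) (nat_lit 0) (p (nat_lit 0x586848402) (nat_lit 0) (p (nat_lit 0x16000c) (nat_lit 0) (p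 (nat_lit 0x50612) (nat_lit 0) (p (nat_lit 0x40592) (nat_lit 0) (p (nat_lit 0x40492) (nat_lit 0) (p (nat_lit 0x30412) (nat_lit 0) (p (nat_lit 0x30212) (nat_lit 0) (p (nat_lit 0x20192) (nat_lit 0) (p (nat_lit 0x20092) (nat_lit 0) (p (nat_lit 0x10012) (nat_lit 0) pn))))))))))))))))))))))) :=
  Cl.node (nat_lit 0x101) (nat_lit 2) (by decide +kernel) (ClAll.succ (ClAll.succ ClAll.zero n146) n147)

def n169 : Cl (O (nat_lit 5)) (R (nat_lit 102673))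
    (p (nat_lit 0x119) (nat_lit 1) (p (nat_lit 0xd1) (nat_lit 0) (p (nat_lit 0x89) (nat_lit 0) (p (nat_lit 0x41) (nat_lit 0) (p (nat_lit 0x1098a0b090a9a) (nat_lit 0) (p (nat_lit 0x9098a888a1a) (nat_lit 0) (p (nat_lit 0x108890a08079a) (nat_lit 0) (p (nat_lit 0x8088987871a) (nat_lit 0) (p (nat_lit 0x8000000000800078907088a) (nat_lit 0) (p (nat_lit 0x8000000000800070886860a) (nat_lit 0) (p (nat_lit 0x10708060782) (nat_lit 0) (p (nat_lit 0x687858702) (nat_lit 0) (p (nat_lit 0x10607050482) (nat_lit 0) (p (nat_lit 0x586848402) (nat_lit 0) (p (nat_lit 0x16000c) (nat_lit 0) (p (nat_lit 0x50612) (nat_lit 0) (p (nat_lit 0x40592) (nat_lit 0) (p (nat_lit 0x40492) (nat_lit 0) (p (nat_lit 0x30412) (nat_lit 0) (p (nat_lit 0x30212) (nat_lit 0) (p (nat_lit 0x20192) (nat_lit 0) (p (nat_lit 0x20092) (nat_lit 0) (p (nat_lit 0x10012) (nat_lit 0) pn))))))))))))))))))))))) :=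
  Cl.node (nat_lit 0xc1) (nat_lit 2) (by decide +kernel) (ClAll.succ (ClAll.succ ClAll.zero n148) n149)

def n170 : Cl (O (nat_lit 5)) (R (nat_lit 102673))
    (p (nat_lit 0x111) (nat_lit 0) (p (nat_lit 0xd1) (nat_lit 1) (p (nat_lit 0x89) (nat_lit 0) (p (nat_lit 0x41) (nat_lit 0) (p (nat_lit 0x1098a0b090a9a) (nat_lit 0) (p (nat_lit 0x9098a888a1a) (nat_lit 0) (p (nat_lit 0x108890a08079a) (nat_lit 0) (p (nat_lit 0x8088987871a) (nat_lit 0) (p (nat_lit 0x8000000000800078907088a) (nat_lit 0) (p (nat_lit 0x8000000000800070886860a) (nat_lit 0) (p (nat_lit 0x10708060782) (nat_lit 0) (p (nat_lit 0x687858702) (nat_lit 0) (p (nat_lit 0x10607050482) (nat_lit 0) (p (nat_lit 0x586848402) (nat_lit 0) (p (nat_lit 0x16000c) (nat_lit 0) (p (nat_lit 0x50612) (nat_lit 0) (p (nat_lit 0x40592) (nat_lit 0) (p (nat_lit 0x40492) (nat_lit 0) (p (nat_lit 0x30412) (nat_lit 0) (p (nat_lit 0x30212) (nat_lit 0)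 (p (nat_lit 0x20192) (nat_lit 0) (p (nat_lit 0x20092) (nat_lit 0) (p (nat_lit 0x10012) (nat_lit 0) pn))))))))))))))))))))))) :=
  Cl.node (nat_lit 0x101) (nat_lit 2) (by decide +kernel) (ClAll.succ (ClAll.succ ClAll.zero n150) n151)

def n171 : Cl (O (nat_lit 5)) (R (nat_lit 102673))
    (p (nat_lit 0x111) (nat_lit 1) (p (nat_lit 0xd1) (nat_lit 1) (p (nat_lit 0x89) (nat_lit 0) (p (nat_lit 0x41) (nat_lit 0) (p (nat_lit 0x1098a0b090a9a) (nat_lit 0) (p (nat_lit 0x9098a888a1a) (nat_lit 0) (p (nat_lit 0x108890a08079a) (nat_lit 0) (p (nat_lit 0x8088987871a) (nat_lit 0) (p (nat_lit 0x8000000000800078907088a) (nat_lit 0) (p (nat_lit 0x8000000000800070886860a) (nat_lit 0) (p (nat_lit 0x10708060782) (nat_lit 0) (p (nat_lit 0x687858702) (nat_lit 0) (p (nat_lit 0x10607050482) (nat_lit 0) (p (nat_lit 0x586848402) (nat_lit 0) (p (nat_lit 0x16000c) (nat_lit 0) (p (nat_lit 0x50612) (nat_lit 0) (p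 (nat_lit 0x40592) (nat_lit 0) (p (nat_lit 0x40492) (nat_lit 0) (p (nat_lit 0x30412) (nat_lit 0) (p (nat_lit 0x30212) (nat_lit 0) (p (nat_lit 0x20192) (nat_lit 0) (p (nat_lit 0x20092) (nat_lit 0) (p (nat_lit 0x10012) (nat_lit 0) pn))))))))))))))))))))))) :=
  Cl.node (nat_lit 0x81) (nat_lit 2) (by decide +kernel) (ClAll.succ (ClAll.succ ClAll.zero s54) n152)

def n172 : Cl (O (nat_lit 5)) (R (nat_lit 102673))
    (p (nat_lit 0x119) (nat_lit 0) (p (nat_lit 0xc9) (nat_lit 0) (p (nat_lit 0x89) (nat_lit 1) (p (nat_lit 0x41) (nat_lit 0) (p (nat_lit 0x1098a0b090a9a) (nat_lit 0) (p (nat_lit 0x9098a888a1a) (nat_lit 0) (p (nat_lit 0x108890a08079a) (nat_lit 0) (p (nat_lit 0x8088987871a) (nat_lit 0) (p (nat_lit 0x8000000000800078907088a) (nat_lit 0) (p (nat_lit 0x8000000000800070886860a) (nat_lit 0) (p (nat_lit 0x10708060782) (nat_lit 0) (p (nat_lit 0x687858702) (nat_lit 0) (p (nat_lit 0x10607050482)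 (nat_lit 0) (p (nat_lit 0x586848402) (nat_lit 0) (p (nat_lit 0x16000c) (nat_lit 0) (p (nat_lit 0x50612) (nat_lit 0) (p (nat_lit 0x40592) (nat_lit 0) (p (nat_lit 0x40492) (nat_lit 0) (p (nat_lit 0x30412) (nat_lit 0) (p (nat_lit 0x30212) (nat_lit 0) (p (nat_lit 0x20192) (nat_lit 0) (p (nat_lit 0x20092) (nat_lit 0) (p (nat_lit 0x10012) (nat_lit 0) pn))))))))))))))))))))))) :=
  Cl.node (nat_lit 0x101) (nat_lit 2) (by decide +kernel) (ClAll.succ (ClAll.succ ClAll.zero n153) n154)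

def n173 : Cl (O (nat_lit 5)) (R (nat_lit 102673))
    (p (nat_lit 0x119) (nat_lit 1) (p (nat_lit 0xc9) (nat_lit 0) (p (nat_lit 0x89) (nat_lit 1) (p (nat_lit 0x41) (nat_lit 0) (p (nat_lit 0x1098a0b090a9a) (nat_lit 0) (p (nat_lit 0x9098a888a1a) (nat_lit 0) (p (nat_lit 0x108890a08079a) (nat_lit 0) (p (nat_lit 0x8088987871a) (nat_lit 0) (p (nat_lit 0x8000000000800078907088a) (nat_lit 0) (p (nat_lit 0x8000000000800070886860a) (nat_lit 0) (p (nat_lit 0x10708060782) (nat_lit 0) (p (nat_lit 0x687858702) (nat_lit 0) (p (nat_lit 0x10607050482) (nat_lit 0) (p (nat_lit 0x586848402) (nat_lit 0) (p (nat_lit 0x16000c) (nat_lit 0) (p (nat_lit 0x50612) (nat_lit 0) (p (nat_lit 0x40592) (nat_lit 0) (p (nat_lit 0x40492) (nat_lit 0) (p (nat_lit 0x30412) (nat_lit 0) (p (nat_lit 0x30212) (nat_lit 0) (p (nat_lit 0x20192) (nat_lit 0) (p (nat_lit 0x20092) (nat_lit 0) (p (nat_lit 0x10012) (nat_lit 0) pn)))))))))))))))))))))))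 :=
  Cl.node (nat_lit 0xc1) (nat_lit 2) (by decide +kernel) (ClAll.succ (ClAll.succ ClAll.zero n155) n156)

def n174 : Cl (O (nat_lit 5)) (R (nat_lit 102673))
    (p (nat_lit 0x109) (nat_lit 0) (p (nat_lit 0xc9) (nat_lit 1) (p (nat_lit 0x89) (nat_lit 1) (p (nat_lit 0x41) (nat_lit 0) (p (nat_lit 0x1098a0b090a9a) (nat_lit 0) (p (nat_lit 0x9098a888a1a) (nat_lit 0) (p (nat_lit 0x108890a08079a) (nat_lit 0) (p (nat_lit 0x8088987871a) (nat_lit 0) (p (nat_lit 0x8000000000800078907088a) (nat_lit 0) (p (nat_lit 0x8000000000800070886860a) (nat_lit 0) (p (nat_lit 0x10708060782) (nat_lit 0) (p (nat_lit 0x687858702) (nat_lit 0) (p (nat_lit 0x10607050482) (nat_lit 0) (p (nat_lit 0x586848402) (nat_lit 0) (p (nat_lit 0x16000c) (nat_lit 0) (p (nat_lit 0x50612) (nat_lit 0) (p (nat_lit 0x40592) (nat_lit 0) (p (nat_lit 0x40492) (nat_lit 0) (p (nat_lit 0x30412) (nat_lit 0) (p (nat_lit 0x30212) (nat_lit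 0) (p (nat_lit 0x20192) (nat_lit 0) (p (nat_lit 0x20092) (nat_lit 0) (p (nat_lit 0x10012) (nat_lit 0) pn))))))))))))))))))))))) :=
  Cl.node (nat_lit 0x101) (nat_lit 2) (by decide +kernel) (ClAll.succ (ClAll.succ ClAll.zero n157) s117)

def n175 : Cl (O (nat_lit 5)) (R (nat_lit 102673))
    (p (nat_lit 0x119) (nat_lit 0) (p (nat_lit 0xd1) (nat_lit 0) (p (nat_lit 0x81) (nat_lit 0) (p (nat_lit 0x41) (nat_lit 1) (p (nat_lit 0x1098a0b090a9a) (nat_lit 0) (p (nat_lit 0x9098a888a1a) (nat_lit 0) (p (nat_lit 0x108890a08079a) (nat_lit 0) (p (nat_lit 0x8088987871a) (nat_lit 0) (p (nat_lit 0x8000000000800078907088a) (nat_lit 0) (p (nat_lit 0x8000000000800070886860a) (nat_lit 0) (p (nat_lit 0x10708060782) (nat_lit 0) (p (nat_lit 0x687858702) (nat_lit 0) (p (nat_lit 0x10607050482) (nat_lit 0) (p (nat_lit 0x586848402) (nat_lit 0) (p (nat_lit 0x16000c) (nat_lit 0) (p (nat_lit 0x50612) (nat_lit 0)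 (p (nat_lit 0x40592) (nat_lit 0) (p (nat_lit 0x40492) (nat_lit 0) (p (nat_lit 0x30412) (nat_lit 0) (p (nat_lit 0x30212) (nat_lit 0) (p (nat_lit 0x20192) (nat_lit 0) (p (nat_lit 0x20092) (nat_lit 0) (p (nat_lit 0x10012) (nat_lit 0) pn))))))))))))))))))))))) :=
  Cl.node (nat_lit 0x101) (nat_lit 2) (by decide +kernel) (ClAll.succ (ClAll.succ ClAll.zero n158) n159)

def n176 : Cl (O (nat_lit 5)) (R (nat_lit 102673))
    (p (nat_lit 0x119) (nat_lit 1) (p (nat_lit 0xd1) (nat_lit 0) (p (nat_lit 0x81) (nat_lit 0) (p (nat_lit 0x41) (nat_lit 1) (p (nat_lit 0x1098a0b090a9a) (nat_lit 0) (p (nat_lit 0x9098a888a1a) (nat_lit 0) (p (nat_lit 0x108890a08079a) (nat_lit 0) (p (nat_lit 0x8088987871a) (nat_lit 0) (p (nat_lit 0x8000000000800078907088a) (nat_lit 0) (p (nat_lit 0x8000000000800070886860a) (nat_lit 0) (p (nat_lit 0x10708060782) (nat_lit 0) (p (nat_lit 0x687858702) (nat_lit 0) (p (nat_lit 0x10607050482)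 (nat_lit 0) (p (nat_lit 0x586848402) (nat_lit 0) (p (nat_lit 0x16000c) (nat_lit 0) (p (nat_lit 0x50612) (nat_lit 0) (p (nat_lit 0x40592) (nat_lit 0) (p (nat_lit 0x40492) (nat_lit 0) (p (nat_lit 0x30412) (nat_lit 0) (p (nat_lit 0x30212) (nat_lit 0) (p (nat_lit 0x20192) (nat_lit 0) (p (nat_lit 0x20092) (nat_lit 0) (p (nat_lit 0x10012) (nat_lit 0) pn))))))))))))))))))))))) :=
  Cl.node (nat_lit 0xc1) (nat_lit 2) (by decide +kernel) (ClAll.succ (ClAll.succ ClAll.zero n160) n161)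

def n177 : Cl (O (nat_lit 5)) (R (nat_lit 102673))
    (p (nat_lit 0x111) (nat_lit 0) (p (nat_lit 0xd1) (nat_lit 1) (p (nat_lit 0x81) (nat_lit 0) (p (nat_lit 0x41) (nat_lit 1) (p (nat_lit 0x1098a0b090a9a) (nat_lit 0) (p (nat_lit 0x9098a888a1a) (nat_lit 0) (p (nat_lit 0x108890a08079a) (nat_lit 0) (p (nat_lit 0x8088987871a) (nat_lit 0) (p (nat_lit 0x8000000000800078907088a) (nat_lit 0) (p (nat_lit 0x8000000000800070886860a) (nat_lit 0) (p (nat_lit 0x10708060782) (nat_lit 0) (p (nat_lit 0x687858702) (nat_lit 0) (p (nat_lit 0x10607050482) (nat_lit 0) (p (nat_lit 0x586848402) (nat_lit 0) (p (nat_lit 0x16000c) (nat_lit 0) (p (nat_lit 0x50612) (nat_lit 0) (p (nat_lit 0x40592) (nat_lit 0) (p (nat_lit 0x40492) (nat_lit 0) (p (nat_lit 0x30412) (nat_lit 0) (p (nat_lit 0x30212) (nat_lit 0) (p (nat_lit 0x20192) (nat_lit 0) (p (nat_lit 0x20092) (nat_lit 0) (p (nat_lit 0x10012) (nat_lit 0) pn)))))))))))))))))))))))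 :=
  Cl.node (nat_lit 0x101) (nat_lit 2) (by decide +kernel) (ClAll.succ (ClAll.succ ClAll.zero n162) n163)

def n178 : Cl (O (nat_lit 5)) (R (nat_lit 102673))
    (p (nat_lit 0x111) (nat_lit 1) (p (nat_lit 0xd1) (nat_lit 1) (p (nat_lit 0x81) (nat_lit 0) (p (nat_lit 0x41) (nat_lit 1) (p (nat_lit 0x1098a0b090a9a) (nat_lit 0) (p (nat_lit 0x9098a888a1a) (nat_lit 0) (p (nat_lit 0x108890a08079a) (nat_lit 0) (p (nat_lit 0x8088987871a) (nat_lit 0) (p (nat_lit 0x8000000000800078907088a) (nat_lit 0) (p (nat_lit 0x8000000000800070886860a) (nat_lit 0) (p (nat_lit 0x10708060782) (nat_lit 0) (p (nat_lit 0x687858702) (nat_lit 0) (p (nat_lit 0x10607050482) (nat_lit 0) (p (nat_lit 0x586848402) (nat_lit 0) (p (nat_lit 0x16000c) (nat_lit 0) (p (nat_lit 0x50612) (nat_lit 0) (p (nat_lit 0x40592) (nat_lit 0) (p (nat_lit 0x40492) (nat_lit 0) (p (nat_lit 0x30412) (nat_lit 0) (p (nat_lit 0x30212) (nat_lit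 0) (p (nat_lit 0x20192) (nat_lit 0) (p (nat_lit 0x20092) (nat_lit 0) (p (nat_lit 0x10012) (nat_lit 0) pn))))))))))))))))))))))) :=
  Cl.node (nat_lit 0x89) (nat_lit 2) (by decide +kernel) (ClAll.succ (ClAll.succ ClAll.zero s171) n164)

def n179 : Cl (O (nat_lit 5)) (R (nat_lit 102673))
    (p (nat_lit 0x119) (nat_lit 0) (p (nat_lit 0xc1) (nat_lit 0) (p (nat_lit 0x81) (nat_lit 1) (p (nat_lit 0x41) (nat_lit 1) (p (nat_lit 0x1098a0b090a9a) (nat_lit 0) (p (nat_lit 0x9098a888a1a) (nat_lit 0) (p (nat_lit 0x108890a08079a) (nat_lit 0) (p (nat_lit 0x8088987871a) (nat_lit 0) (p (nat_lit 0x8000000000800078907088a) (nat_lit 0) (p (nat_lit 0x8000000000800070886860a) (nat_lit 0) (p (nat_lit 0x10708060782) (nat_lit 0) (p (nat_lit 0x687858702) (nat_lit 0) (p (nat_lit 0x10607050482) (nat_lit 0) (p (nat_lit 0x586848402) (nat_lit 0) (p (nat_lit 0x16000c) (nat_lit 0) (p (nat_lit 0x50612) (nat_lit 0) (p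 (nat_lit 0x40592) (nat_lit 0) (p (nat_lit 0x40492) (nat_lit 0) (p (nat_lit 0x30412) (nat_lit 0) (p (nat_lit 0x30212) (nat_lit 0) (p (nat_lit 0x20192) (nat_lit 0) (p (nat_lit 0x20092) (nat_lit 0) (p (nat_lit 0x10012) (nat_lit 0) pn))))))))))))))))))))))) :=
  Cl.node (nat_lit 0x101) (nat_lit 2) (by decide +kernel) (ClAll.succ (ClAll.succ ClAll.zero n165) n166)

def n180 : Cl (O (nat_lit 5)) (R (nat_lit 102673))
    (p (nat_lit 0x119) (nat_lit 1) (p (nat_lit 0xc1) (nat_lit 0) (p (nat_lit 0x81) (nat_lit 1) (p (nat_lit 0x41) (nat_lit 1) (p (nat_lit 0x1098a0b090a9a) (nat_lit 0) (p (nat_lit 0x9098a888a1a) (nat_lit 0) (p (nat_lit 0x108890a08079a) (nat_lit 0) (p (nat_lit 0x8088987871a) (nat_lit 0) (p (nat_lit 0x8000000000800078907088a) (nat_lit 0) (p (nat_lit 0x8000000000800070886860a) (nat_lit 0) (p (nat_lit 0x10708060782) (nat_lit 0) (p (nat_lit 0x687858702) (nat_lit 0) (p (nat_lit 0x10607050482)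 (nat_lit 0) (p (nat_lit 0x586848402) (nat_lit 0) (p (nat_lit 0x16000c) (nat_lit 0) (p (nat_lit 0x50612) (nat_lit 0) (p (nat_lit 0x40592) (nat_lit 0) (p (nat_lit 0x40492) (nat_lit 0) (p (nat_lit 0x30412) (nat_lit 0) (p (nat_lit 0x30212) (nat_lit 0) (p (nat_lit 0x20192) (nat_lit 0) (p (nat_lit 0x20092) (nat_lit 0) (p (nat_lit 0x10012) (nat_lit 0) pn))))))))))))))))))))))) :=
  Cl.node (nat_lit 0xc9) (nat_lit 2) (by decide +kernel) (ClAll.succ (ClAll.succ ClAll.zero s190) n167)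

def n181 : Cl (O (nat_lit 5)) (R (nat_lit 102673))
    (p (nat_lit 0xd1) (nat_lit 0) (p (nat_lit 0x89) (nat_lit 0) (p (nat_lit 0x41) (nat_lit 0) (p (nat_lit 0x1098a0b090a9a) (nat_lit 0) (p (nat_lit 0x9098a888a1a) (nat_lit 0) (p (nat_lit 0x108890a08079a) (nat_lit 0) (p (nat_lit 0x8088987871a) (nat_lit 0) (p (nat_lit 0x8000000000800078907088a) (nat_lit 0) (p (nat_lit 0x8000000000800070886860a) (nat_lit 0) (p (nat_lit 0x10708060782) (nat_lit 0) (p (nat_lit 0x687858702) (nat_lit 0) (p (nat_lit 0x10607050482) (nat_lit 0) (p (nat_lit 0x586848402) (nat_lit 0) (p (nat_lit 0x16000c) (nat_lit 0) (p (nat_lit 0x50612) (nat_lit 0) (p (nat_lit 0x40592) (nat_lit 0) (p (nat_lit 0x40492) (nat_lit 0) (p (nat_lit 0x30412) (nat_lit 0) (p (nat_lit 0x30212) (nat_lit 0) (p (nat_lit 0x20192) (nat_lit 0) (p (nat_lit 0x20092) (nat_lit 0) (p (nat_lit 0x10012) (nat_lit 0) pn)))))))))))))))))))))) :=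
  Cl.node (nat_lit 0x119) (nat_lit 2) (by decide +kernel) (ClAll.succ (ClAll.succ ClAll.zero n168) n169)

def n182 : Cl (O (nat_lit 5)) (R (nat_lit 102673))
    (p (nat_lit 0xd1) (nat_lit 1) (p (nat_lit 0x89) (nat_lit 0) (p (nat_lit 0x41) (nat_lit 0) (p (nat_lit 0x1098a0b090a9a) (nat_lit 0) (p (nat_lit 0x9098a888a1a) (nat_lit 0) (p (nat_lit 0x108890a08079a) (nat_lit 0) (p (nat_lit 0x8088987871a) (nat_lit 0) (p (nat_lit 0x8000000000800078907088a) (nat_lit 0) (p (nat_lit 0x8000000000800070886860a) (nat_lit 0) (p (nat_lit 0x10708060782) (nat_lit 0) (p (nat_lit 0x687858702) (nat_lit 0) (p (nat_lit 0x10607050482) (nat_lit 0) (p (nat_lit 0x586848402) (nat_lit 0) (p (nat_lit 0x16000c) (nat_lit 0) (p (nat_lit 0x50612) (nat_lit 0) (p (nat_lit 0x40592) (nat_lit 0) (p (nat_lit 0x40492) (nat_lit 0) (p (nat_lit 0x30412) (nat_lit 0) (p (nat_lit 0x30212) (nat_lit 0) (p (nat_lit 0x20192) (nat_lit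 0) (p (nat_lit 0x20092) (nat_lit 0) (p (nat_lit 0x10012) (nat_lit 0) pn)))))))))))))))))))))) :=
  Cl.node (nat_lit 0x111) (nat_lit 2) (by decide +kernel) (ClAll.succ (ClAll.succ ClAll.zero n170) n171)

def n183 : Cl (O (nat_lit 5)) (R (nat_lit 102673))
    (p (nat_lit 0xc9) (nat_lit 0) (p (nat_lit 0x89) (nat_lit 1) (p (nat_lit 0x41) (nat_lit 0) (p (nat_lit 0x1098a0b090a9a) (nat_lit 0) (p (nat_lit 0x9098a888a1a) (nat_lit 0) (p (nat_lit 0x108890a08079a) (nat_lit 0) (p (nat_lit 0x8088987871a) (nat_lit 0) (p (nat_lit 0x8000000000800078907088a) (nat_lit 0) (p (nat_lit 0x8000000000800070886860a) (nat_lit 0) (p (nat_lit 0x10708060782) (nat_lit 0) (p (nat_lit 0x687858702) (nat_lit 0) (p (nat_lit 0x10607050482) (nat_lit 0) (p (nat_lit 0x586848402) (nat_lit 0) (p (nat_lit 0x16000c) (nat_lit 0) (p (nat_lit 0x50612) (nat_lit 0) (p (nat_lit 0x40592) (nat_lit 0) (p (nat_lit 0x40492) (nat_lit 0)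 (p (nat_lit 0x30412) (nat_lit 0) (p (nat_lit 0x30212) (nat_lit 0) (p (nat_lit 0x20192) (nat_lit 0) (p (nat_lit 0x20092) (nat_lit 0) (p (nat_lit 0x10012) (nat_lit 0) pn)))))))))))))))))))))) :=
  Cl.node (nat_lit 0x119) (nat_lit 2) (by decide +kernel) (ClAll.succ (ClAll.succ ClAll.zero n172) n173)

def n184 : Cl (O (nat_lit 5)) (R (nat_lit 102673))
    (p (nat_lit 0xc9) (nat_lit 1) (p (nat_lit 0x89) (nat_lit 1) (p (nat_lit 0x41) (nat_lit 0) (p (nat_lit 0x1098a0b090a9a) (nat_lit 0) (p (nat_lit 0x9098a888a1a) (nat_lit 0) (p (nat_lit 0x108890a08079a) (nat_lit 0) (p (nat_lit 0x8088987871a) (nat_lit 0) (p (nat_lit 0x8000000000800078907088a) (nat_lit 0) (p (nat_lit 0x8000000000800070886860a) (nat_lit 0) (p (nat_lit 0x10708060782) (nat_lit 0) (p (nat_lit 0x687858702) (nat_lit 0) (p (nat_lit 0x10607050482) (nat_lit 0) (p (nat_lit 0x586848402) (nat_lit 0) (p (nat_lit 0x16000c) (nat_lit 0) (p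 (nat_lit 0x50612) (nat_lit 0) (p (nat_lit 0x40592) (nat_lit 0) (p (nat_lit 0x40492) (nat_lit 0) (p (nat_lit 0x30412) (nat_lit 0) (p (nat_lit 0x30212) (nat_lit 0) (p (nat_lit 0x20192) (nat_lit 0) (p (nat_lit 0x20092) (nat_lit 0) (p (nat_lit 0x10012) (nat_lit 0) pn)))))))))))))))))))))) :=
  Cl.node (nat_lit 0x109) (nat_lit 2) (by decide +kernel) (ClAll.succ (ClAll.succ ClAll.zero n174) s118)

def n185 : Cl (O (nat_lit 5)) (R (nat_lit 102673))
    (p (nat_lit 0xd1) (nat_lit 0) (p (nat_lit 0x81) (nat_lit 0) (p (nat_lit 0x41) (nat_lit 1) (p (nat_lit 0x1098a0b090a9a) (nat_lit 0) (p (nat_lit 0x9098a888a1a) (nat_lit 0) (p (nat_lit 0x108890a08079a) (nat_lit 0) (p (nat_lit 0x8088987871a) (nat_lit 0) (p (nat_lit 0x8000000000800078907088a) (nat_lit 0) (p (nat_lit 0x8000000000800070886860a) (nat_lit 0) (p (nat_lit 0x10708060782) (nat_lit 0) (p (nat_lit 0x687858702) (nat_lit 0) (p (nat_lit 0x10607050482)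 (nat_lit 0) (p (nat_lit 0x586848402) (nat_lit 0) (p (nat_lit 0x16000c) (nat_lit 0) (p (nat_lit 0x50612) (nat_lit 0) (p (nat_lit 0x40592) (nat_lit 0) (p (nat_lit 0x40492) (nat_lit 0) (p (nat_lit 0x30412) (nat_lit 0) (p (nat_lit 0x30212) (nat_lit 0) (p (nat_lit 0x20192) (nat_lit 0) (p (nat_lit 0x20092) (nat_lit 0) (p (nat_lit 0x10012) (nat_lit 0) pn)))))))))))))))))))))) :=
  Cl.node (nat_lit 0x119) (nat_lit 2) (by decide +kernel) (ClAll.succ (ClAll.succ ClAll.zero n175) n176)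

def n186 : Cl (O (nat_lit 5)) (R (nat_lit 102673))
    (p (nat_lit 0xd1) (nat_lit 1) (p (nat_lit 0x81) (nat_lit 0) (p (nat_lit 0x41) (nat_lit 1) (p (nat_lit 0x1098a0b090a9a) (nat_lit 0) (p (nat_lit 0x9098a888a1a) (nat_lit 0) (p (nat_lit 0x108890a08079a) (nat_lit 0) (p (nat_lit 0x8088987871a) (nat_lit 0) (p (nat_lit 0x8000000000800078907088a) (nat_lit 0) (p (nat_lit 0x8000000000800070886860a) (nat_lit 0) (p (nat_lit 0x10708060782) (nat_lit 0) (p (nat_lit 0x687858702) (nat_lit 0) (p (nat_lit 0x10607050482) (nat_lit 0) (p (nat_lit 0x586848402) (nat_lit 0) (p (nat_lit 0x16000c) (nat_lit 0) (p (nat_lit 0x50612) (nat_lit 0) (p (nat_lit 0x40592) (nat_lit 0) (p (nat_lit 0x40492) (nat_lit 0) (p (nat_lit 0x30412) (nat_lit 0) (p (nat_lit 0x30212) (nat_lit 0) (p (nat_lit 0x20192) (nat_lit 0) (p (nat_lit 0x20092) (nat_lit 0) (p (nat_lit 0x10012) (nat_lit 0) pn)))))))))))))))))))))) :=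
  Cl.node (nat_lit 0x111) (nat_lit 2) (by decide +kernel) (ClAll.succ (ClAll.succ ClAll.zero n177) n178)

def n187 : Cl (O (nat_lit 5)) (R (nat_lit 102673))
    (p (nat_lit 0xc1) (nat_lit 0) (p (nat_lit 0x81) (nat_lit 1) (p (nat_lit 0x41) (nat_lit 1) (p (nat_lit 0x1098a0b090a9a) (nat_lit 0) (p (nat_lit 0x9098a888a1a) (nat_lit 0) (p (nat_lit 0x108890a08079a) (nat_lit 0) (p (nat_lit 0x8088987871a) (nat_lit 0) (p (nat_lit 0x8000000000800078907088a) (nat_lit 0) (p (nat_lit 0x8000000000800070886860a) (nat_lit 0) (p (nat_lit 0x10708060782) (nat_lit 0) (p (nat_lit 0x687858702) (nat_lit 0) (p (nat_lit 0x10607050482) (nat_lit 0) (p (nat_lit 0x586848402) (nat_lit 0) (p (nat_lit 0x16000c) (nat_lit 0) (p (nat_lit 0x50612) (nat_lit 0) (p (nat_lit 0x40592) (nat_lit 0) (p (nat_lit 0x40492) (nat_lit 0) (p (nat_lit 0x30412) (nat_lit 0) (p (nat_lit 0x30212) (nat_lit 0) (p (nat_lit 0x20192) (nat_lit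 0) (p (nat_lit 0x20092) (nat_lit 0) (p (nat_lit 0x10012) (nat_lit 0) pn)))))))))))))))))))))) :=
  Cl.node (nat_lit 0x119) (nat_lit 2) (by decide +kernel) (ClAll.succ (ClAll.succ ClAll.zero n179) n180)

def n188 : Cl (O (nat_lit 5)) (R (nat_lit 102673))
    (p (nat_lit 0x89) (nat_lit 0) (p (nat_lit 0x41) (nat_lit 0) (p (nat_lit 0x1098a0b090a9a) (nat_lit 0) (p (nat_lit 0x9098a888a1a) (nat_lit 0) (p (nat_lit 0x108890a08079a) (nat_lit 0) (p (nat_lit 0x8088987871a) (nat_lit 0) (p (nat_lit 0x8000000000800078907088a) (nat_lit 0) (p (nat_lit 0x8000000000800070886860a) (nat_lit 0) (p (nat_lit 0x10708060782) (nat_lit 0) (p (nat_lit 0x687858702) (nat_lit 0) (p (nat_lit 0x10607050482) (nat_lit 0) (p (nat_lit 0x586848402) (nat_lit 0) (p (nat_lit 0x16000c) (nat_lit 0) (p (nat_lit 0x50612) (nat_lit 0) (p (nat_lit 0x40592) (nat_lit 0) (p (nat_lit 0x40492) (nat_lit 0) (p (nat_lit 0x30412) (nat_lit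 0) (p (nat_lit 0x30212) (nat_lit 0) (p (nat_lit 0x20192) (nat_lit 0) (p (nat_lit 0x20092) (nat_lit 0) (p (nat_lit 0x10012) (nat_lit 0) pn))))))))))))))))))))) :=
  Cl.node (nat_lit 0xd1) (nat_lit 2) (by decide +kernel) (ClAll.succ (ClAll.succ ClAll.zero n181) n182)

def n189 : Cl (O (nat_lit 5)) (R (nat_lit 102673))
    (p (nat_lit 0x89) (nat_lit 1) (p (nat_lit 0x41) (nat_lit 0) (p (nat_lit 0x1098a0b090a9a) (nat_lit 0) (p (nat_lit 0x9098a888a1a) (nat_lit 0) (p (nat_lit 0x108890a08079a) (nat_lit 0) (p (nat_lit 0x8088987871a) (nat_lit 0) (p (nat_lit 0x8000000000800078907088a) (nat_lit 0) (p (nat_lit 0x8000000000800070886860a) (nat_lit 0) (p (nat_lit 0x10708060782) (nat_lit 0) (p (nat_lit 0x687858702) (nat_lit 0) (p (nat_lit 0x10607050482) (nat_lit 0) (p (nat_lit 0x586848402) (nat_lit 0) (p (nat_lit 0x16000c) (nat_lit 0) (p (nat_lit 0x50612) (nat_lit 0) (p (nat_lit 0x40592) (nat_lit 0)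 (p (nat_lit 0x40492) (nat_lit 0) (p (nat_lit 0x30412) (nat_lit 0) (p (nat_lit 0x30212) (nat_lit 0) (p (nat_lit 0x20192) (nat_lit 0) (p (nat_lit 0x20092) (nat_lit 0) (p (nat_lit 0x10012) (nat_lit 0) pn))))))))))))))))))))) :=
  Cl.node (nat_lit 0xc9) (nat_lit 2) (by decide +kernel) (ClAll.succ (ClAll.succ ClAll.zero n183) n184)

def n190 : Cl (O (nat_lit 5)) (R (nat_lit 102673))
    (p (nat_lit 0x81) (nat_lit 0) (p (nat_lit 0x41) (nat_lit 1) (p (nat_lit 0x1098a0b090a9a) (nat_lit 0) (p (nat_lit 0x9098a888a1a) (nat_lit 0) (p (nat_lit 0x108890a08079a) (nat_lit 0) (p (nat_lit 0x8088987871a) (nat_lit 0) (p (nat_lit 0x8000000000800078907088a) (nat_lit 0) (p (nat_lit 0x8000000000800070886860a) (nat_lit 0) (p (nat_lit 0x10708060782) (nat_lit 0) (p (nat_lit 0x687858702) (nat_lit 0) (p (nat_lit 0x10607050482) (nat_lit 0) (p (nat_lit 0x586848402) (nat_lit 0) (p (nat_lit 0x16000c) (nat_lit 0) (p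 (nat_lit 0x50612) (nat_lit 0) (p (nat_lit 0x40592) (nat_lit 0) (p (nat_lit 0x40492) (nat_lit 0) (p (nat_lit 0x30412) (nat_lit 0) (p (nat_lit 0x30212) (nat_lit 0) (p (nat_lit 0x20192) (nat_lit 0) (p (nat_lit 0x20092) (nat_lit 0) (p (nat_lit 0x10012) (nat_lit 0) pn))))))))))))))))))))) :=
  Cl.node (nat_lit 0xd1) (nat_lit 2) (by decide +kernel) (ClAll.succ (ClAll.succ ClAll.zero n185) n186)

def n191 : Cl (O (nat_lit 5)) (R (nat_lit 102673))
    (p (nat_lit 0x81) (nat_lit 1) (p (nat_lit 0x41) (nat_lit 1) (p (nat_lit 0x1098a0b090a9a) (nat_lit 0) (p (nat_lit 0x9098a888a1a) (nat_lit 0) (p (nat_lit 0x108890a08079a) (nat_lit 0) (p (nat_lit 0x8088987871a) (nat_lit 0) (p (nat_lit 0x8000000000800078907088a) (nat_lit 0) (p (nat_lit 0x8000000000800070886860a) (nat_lit 0) (p (nat_lit 0x10708060782) (nat_lit 0) (p (nat_lit 0x687858702) (nat_lit 0) (p (nat_lit 0x10607050482) (nat_lit 0) (p (nat_lit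 0x586848402) (nat_lit 0) (p (nat_lit 0x16000c) (nat_lit 0) (p (nat_lit 0x50612) (nat_lit 0) (p (nat_lit 0x40592) (nat_lit 0) (p (nat_lit 0x40492) (nat_lit 0) (p (nat_lit 0x30412) (nat_lit 0) (p (nat_lit 0x30212) (nat_lit 0) (p (nat_lit 0x20192) (nat_lit 0) (p (nat_lit 0x20092) (nat_lit 0) (p (nat_lit 0x10012) (nat_lit 0) pn))))))))))))))))))))) :=
  Cl.node (nat_lit 0xc1) (nat_lit 2) (by decide +kernel) (ClAll.succ (ClAll.succ ClAll.zero n187) s195)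

def n192 : Cl (O (nat_lit 5)) (R (nat_lit 102673))
    (p (nat_lit 0x41) (nat_lit 0) (p (nat_lit 0x1098a0b090a9a) (nat_lit 0) (p (nat_lit 0x9098a888a1a) (nat_lit 0) (p (nat_lit 0x108890a08079a) (nat_lit 0) (p (nat_lit 0x8088987871a) (nat_lit 0) (p (nat_lit 0x8000000000800078907088a) (nat_lit 0) (p (nat_lit 0x8000000000800070886860a) (nat_lit 0) (p (nat_lit 0x10708060782) (nat_lit 0) (p (nat_lit 0x687858702) (nat_lit 0) (p (nat_lit 0x10607050482) (nat_lit 0) (p (nat_lit 0x586848402) (nat_lit 0) (p (nat_lit 0x16000c) (nat_lit 0) (p (nat_lit 0x50612) (nat_lit 0) (p (nat_lit 0x40592) (nat_lit 0) (p (nat_lit 0x40492) (nat_lit 0) (p (nat_lit 0x30412) (nat_lit 0) (p (nat_lit 0x30212) (nat_lit 0) (p (nat_lit 0x20192) (nat_lit 0) (p (nat_lit 0x20092) (nat_lit 0) (p (nat_lit 0x10012) (nat_lit 0) pn)))))))))))))))))))) :=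
  Cl.node (nat_lit 0x89) (nat_lit 2) (by decide +kernel) (ClAll.succ (ClAll.succ ClAll.zero n188) n189)

def n193 : Cl (O (nat_lit 5)) (R (nat_lit 102673))
    (p (nat_lit 0x41) (nat_lit 1) (p (nat_lit 0x1098a0b090a9a) (nat_lit 0) (p (nat_lit 0x9098a888a1a) (nat_lit 0) (p (nat_lit 0x108890a08079a) (nat_lit 0) (p (nat_lit 0x8088987871a) (nat_lit 0) (p (nat_lit 0x8000000000800078907088a) (nat_lit 0) (p (nat_lit 0x8000000000800070886860a) (nat_lit 0) (p (nat_lit 0x10708060782) (nat_lit 0) (p (nat_lit 0x687858702) (nat_lit 0) (p (nat_lit 0x10607050482) (nat_lit 0) (p (nat_lit 0x586848402) (nat_lit 0) (p (nat_lit 0x16000c) (nat_lit 0) (p (nat_lit 0x50612) (nat_lit 0) (p (nat_lit 0x40592) (nat_lit 0) (p (nat_lit 0x40492) (nat_lit 0) (p (nat_lit 0x30412) (nat_lit 0) (p (nat_lit 0x30212) (nat_lit 0) (p (nat_lit 0x20192) (nat_lit 0) (p (nat_lit 0x20092) (nat_lit 0) (p (nat_lit 0x10012) (nat_lit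 0) pn)))))))))))))))))))) :=
  Cl.node (nat_lit 0x81) (nat_lit 2) (by decide +kernel) (ClAll.succ (ClAll.succ ClAll.zero n190) n191)

def n194 : Cl (O (nat_lit 5)) (R (nat_lit 102673))
    (p (nat_lit 0x1098a0b090a9a) (nat_lit 0) (p (nat_lit 0x9098a888a1a) (nat_lit 0) (p (nat_lit 0x108890a08079a) (nat_lit 0) (p (nat_lit 0x8088987871a) (nat_lit 0) (p (nat_lit 0x8000000000800078907088a) (nat_lit 0) (p (nat_lit 0x8000000000800070886860a) (nat_lit 0) (p (nat_lit 0x10708060782) (nat_lit 0) (p (nat_lit 0x687858702) (nat_lit 0) (p (nat_lit 0x10607050482) (nat_lit 0) (p (nat_lit 0x586848402) (nat_lit 0) (p (nat_lit 0x16000c) (nat_lit 0) (p (nat_lit 0x50612) (nat_lit 0) (p (nat_lit 0x40592) (nat_lit 0) (p (nat_lit 0x40492) (nat_lit 0) (p (nat_lit 0x30412) (nat_lit 0) (p (nat_lit 0x30212) (nat_lit 0) (p (nat_lit 0x20192) (nat_lit 0) (p (nat_lit 0x20092) (nat_lit 0) (p (nat_lit 0x10012) (nat_lit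 0) pn))))))))))))))))))) :=
  Cl.node (nat_lit 0x41) (nat_lit 2) (by decide +kernel) (ClAll.succ (ClAll.succ ClAll.zero n192) n193)

def n195 : Cl (O (nat_lit 5)) (R (nat_lit 102673))
    (p (nat_lit 0x9098a888a1a) (nat_lit 0) (p (nat_lit 0x108890a08079a) (nat_lit 0) (p (nat_lit 0x8088987871a) (nat_lit 0) (p (nat_lit 0x8000000000800078907088a) (nat_lit 0) (p (nat_lit 0x8000000000800070886860a) (nat_lit 0) (p (nat_lit 0x10708060782) (nat_lit 0) (p (nat_lit 0x687858702) (nat_lit 0) (p (nat_lit 0x10607050482) (nat_lit 0) (p (nat_lit 0x586848402) (nat_lit 0) (p (nat_lit 0x16000c) (nat_lit 0) (p (nat_lit 0x50612) (nat_lit 0) (p (nat_lit 0x40592) (nat_lit 0) (p (nat_lit 0x40492) (nat_lit 0) (p (nat_lit 0x30412) (nat_lit 0) (p (nat_lit 0x30212) (nat_lit 0) (p (nat_lit 0x20192) (nat_lit 0) (p (nat_lit 0x20092) (nat_lit 0) (p (nat_lit 0x10012) (nat_lit 0) pn)))))))))))))))))) :=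
  Cl.node (nat_lit 0x1098a0b090a9a) (nat_lit 1) (by decide +kernel) (ClAll.succ ClAll.zero n194)

def n196 : Cl (O (nat_lit 5)) (R (nat_lit 102673))
    (p (nat_lit 0x108890a08079a) (nat_lit 0) (p (nat_lit 0x8088987871a) (nat_lit 0) (p (nat_lit 0x8000000000800078907088a) (nat_lit 0) (p (nat_lit 0x8000000000800070886860a) (nat_lit 0) (p (nat_lit 0x10708060782) (nat_lit 0) (p (nat_lit 0x687858702) (nat_lit 0) (p (nat_lit 0x10607050482) (nat_lit 0) (p (nat_lit 0x586848402) (nat_lit 0) (p (nat_lit 0x16000c) (nat_lit 0) (p (nat_lit 0x50612) (nat_lit 0) (p (nat_lit 0x40592) (nat_lit 0) (p (nat_lit 0x40492) (nat_lit 0) (p (nat_lit 0x30412) (nat_lit 0) (p (nat_lit 0x30212) (nat_lit 0) (p (nat_lit 0x20192) (nat_lit 0) (p (nat_lit 0x20092) (nat_lit 0) (p (nat_lit 0x10012) (nat_lit 0) pn))))))))))))))))) :=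
  Cl.node (nat_lit 0x9098a888a1a) (nat_lit 1) (by decide +kernel) (ClAll.succ ClAll.zero n195)

def n197 : Cl (O (nat_lit 5)) (R (nat_lit 102673))
    (p (nat_lit 0x8088987871a) (nat_lit 0) (p (nat_lit 0x8000000000800078907088a) (nat_lit 0) (p (nat_lit 0x8000000000800070886860a) (nat_lit 0) (p (nat_lit 0x10708060782) (nat_lit 0) (p (nat_lit 0x687858702) (nat_lit 0) (p (nat_lit 0x10607050482) (nat_lit 0) (p (nat_lit 0x586848402) (nat_lit 0) (p (nat_lit 0x16000c) (nat_lit 0) (p (nat_lit 0x50612) (nat_lit 0) (p (nat_lit 0x40592) (nat_lit 0) (p (nat_lit 0x40492) (nat_lit 0) (p (nat_lit 0x30412) (nat_lit 0) (p (nat_lit 0x30212) (nat_lit 0) (p (nat_lit 0x20192) (nat_lit 0) (p (nat_lit 0x20092) (nat_lit 0) (p (nat_lit 0x10012) (nat_lit 0) pn)))))))))))))))) :=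
  Cl.node (nat_lit 0x108890a08079a) (nat_lit 1) (by decide +kernel) (ClAll.succ ClAll.zero n196)

def n198 : Cl (O (nat_lit 5)) (R (nat_lit 102673))
    (p (nat_lit 0x8000000000800078907088a) (nat_lit 0) (p (nat_lit 0x8000000000800070886860a) (nat_lit 0) (p (nat_lit 0x10708060782) (nat_lit 0) (p (nat_lit 0x687858702) (nat_lit 0) (p (nat_lit 0x10607050482) (nat_lit 0) (p (nat_lit 0x586848402) (nat_lit 0) (p (nat_lit 0x16000c) (nat_lit 0) (p (nat_lit 0x50612) (nat_lit 0) (p (nat_lit 0x40592) (nat_lit 0) (p (nat_lit 0x40492) (nat_lit 0) (p (nat_lit 0x30412) (nat_lit 0) (p (nat_lit 0x30212) (nat_lit 0) (p (nat_lit 0x20192) (nat_lit 0) (p (nat_lit 0x20092) (nat_lit 0) (p (nat_lit 0x10012) (nat_lit 0) pn))))))))))))))) :=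
  Cl.node (nat_lit 0x8088987871a) (nat_lit 1) (by decide +kernel) (ClAll.succ ClAll.zero n197)

def n199 : Cl (O (nat_lit 5)) (R (nat_lit 102673))
    (p (nat_lit 0x8000000000800070886860a) (nat_lit 0) (p (nat_lit 0x10708060782) (nat_lit 0) (p (nat_lit 0x687858702) (nat_lit 0) (p (nat_lit 0x10607050482) (nat_lit 0) (p (nat_lit 0x586848402) (nat_lit 0) (p (nat_lit 0x16000c) (nat_lit 0) (p (nat_lit 0x50612) (nat_lit 0) (p (nat_lit 0x40592) (nat_lit 0) (p (nat_lit 0x40492) (nat_lit 0) (p (nat_lit 0x30412) (nat_lit 0) (p (nat_lit 0x30212) (nat_lit 0) (p (nat_lit 0x20192) (nat_lit 0) (p (nat_lit 0x20092) (nat_lit 0) (p (nat_lit 0x10012) (nat_lit 0) pn)))))))))))))) :=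
  Cl.node (nat_lit 0x8000000000800078907088a) (nat_lit 1) (by decide +kernel) (ClAll.succ ClAll.zero n198)

def n200 : Cl (O (nat_lit 5)) (R (nat_lit 102673))
    (p (nat_lit 0x10708060782) (nat_lit 0) (p (nat_lit 0x687858702) (nat_lit 0) (p (nat_lit 0x10607050482) (nat_lit 0) (p (nat_lit 0x586848402) (nat_lit 0) (p (nat_lit 0x16000c) (nat_lit 0) (p (nat_lit 0x50612) (nat_lit 0) (p (nat_lit 0x40592) (nat_lit 0) (p (nat_lit 0x40492) (nat_lit 0) (p (nat_lit 0x30412) (nat_lit 0) (p (nat_lit 0x30212) (nat_lit 0) (p (nat_lit 0x20192) (nat_lit 0) (p (nat_lit 0x20092) (nat_lit 0) (p (nat_lit 0x10012) (nat_lit 0) pn))))))))))))) :=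
  Cl.node (nat_lit 0x8000000000800070886860a) (nat_lit 1) (by decide +kernel) (ClAll.succ ClAll.zero n199)

def n201 : Cl (O (nat_lit 5)) (R (nat_lit 102673))
    (p (nat_lit 0x687858702) (nat_lit 0) (p (nat_lit 0x10607050482) (nat_lit 0) (p (nat_lit 0x586848402) (nat_lit 0) (p (nat_lit 0x16000c) (nat_lit 0) (p (nat_lit 0x50612) (nat_lit 0) (p (nat_lit 0x40592) (nat_lit 0) (p (nat_lit 0x40492) (nat_lit 0) (p (nat_lit 0x30412) (nat_lit 0) (p (nat_lit 0x30212) (nat_lit 0) (p (nat_lit 0x20192) (nat_lit 0) (p (nat_lit 0x20092) (nat_lit 0) (p (nat_lit 0x10012) (nat_lit 0) pn)))))))))))) :=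
  Cl.node (nat_lit 0x10708060782) (nat_lit 1) (by decide +kernel) (ClAll.succ ClAll.zero n200)

def n202 : Cl (O (nat_lit 5)) (R (nat_lit 102673))
    (p (nat_lit 0x10607050482) (nat_lit 0) (p (nat_lit 0x586848402) (nat_lit 0) (p (nat_lit 0x16000c) (nat_lit 0) (p (nat_lit 0x50612) (nat_lit 0) (p (nat_lit 0x40592) (nat_lit 0) (p (nat_lit 0x40492) (nat_lit 0) (p (nat_lit 0x30412) (nat_lit 0) (p (nat_lit 0x30212) (nat_lit 0) (p (nat_lit 0x20192) (nat_lit 0) (p (nat_lit 0x20092) (nat_lit 0) (p (nat_lit 0x10012) (nat_lit 0) pn))))))))))) :=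
  Cl.node (nat_lit 0x687858702) (nat_lit 1) (by decide +kernel) (ClAll.succ ClAll.zero n201)

def n203 : Cl (O (nat_lit 5)) (R (nat_lit 102673))
    (p (nat_lit 0x586848402) (nat_lit 0) (p (nat_lit 0x16000c) (nat_lit 0) (p (nat_lit 0x50612) (nat_lit 0) (p (nat_lit 0x40592) (nat_lit 0) (p (nat_lit 0x40492) (nat_lit 0) (p (nat_lit 0x30412) (nat_lit 0) (p (nat_lit 0x30212) (nat_lit 0) (p (nat_lit 0x20192) (nat_lit 0) (p (nat_lit 0x20092) (nat_lit 0) (p (nat_lit 0x10012) (nat_lit 0) pn)))))))))) :=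
  Cl.node (nat_lit 0x10607050482) (nat_lit 1) (by decide +kernel) (ClAll.succ ClAll.zero n202)

def n204 : Cl (O (nat_lit 5)) (R (nat_lit 102673))
    (p (nat_lit 0x16000c) (nat_lit 0) (p (nat_lit 0x50612) (nat_lit 0) (p (nat_lit 0x40592) (nat_lit 0) (p (nat_lit 0x40492) (nat_lit 0) (p (nat_lit 0x30412) (nat_lit 0) (p (nat_lit 0x30212) (nat_lit 0) (p (nat_lit 0x20192) (nat_lit 0) (p (nat_lit 0x20092) (nat_lit 0) (p (nat_lit 0x10012) (nat_lit 0) pn))))))))) :=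
  Cl.node (nat_lit 0x586848402) (nat_lit 1) (by decide +kernel) (ClAll.succ ClAll.zero n203)

def n205 : Cl (O (nat_lit 5)) (R (nat_lit 102673))
    (p (nat_lit 0x50612) (nat_lit 0) (p (nat_lit 0x40592) (nat_lit 0) (p (nat_lit 0x40492) (nat_lit 0) (p (nat_lit 0x30412) (nat_lit 0) (p (nat_lit 0x30212) (nat_lit 0) (p (nat_lit 0x20192) (nat_lit 0) (p (nat_lit 0x20092) (nat_lit 0) (p (nat_lit 0x10012) (nat_lit 0) pn)))))))) :=
  Cl.node (nat_lit 0x16000c) (nat_lit 2) (by decide +kernel) (ClAll.succ (ClAll.succ ClAll.zero n204) s196)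

def n206 : Cl (O (nat_lit 5)) (R (nat_lit 102673))
    (p (nat_lit 0x40592) (nat_lit 0) (p (nat_lit 0x40492) (nat_lit 0) (p (nat_lit 0x30412) (nat_lit 0) (p (nat_lit 0x30212) (nat_lit 0) (p (nat_lit 0x20192) (nat_lit 0) (p (nat_lit 0x20092) (nat_lit 0) (p (nat_lit 0x10012) (nat_lit 0) pn))))))) :=
  Cl.node (nat_lit 0x50612) (nat_lit 1) (by decide +kernel) (ClAll.succ ClAll.zero n205)

def n207 : Cl (O (nat_lit 5)) (R (nat_lit 102673))
    (p (nat_lit 0x40492) (nat_lit 0) (p (nat_lit 0x30412) (nat_lit 0) (p (nat_lit 0x30212) (nat_lit 0) (p (nat_lit 0x20192) (nat_lit 0) (p (nat_lit 0x20092) (nat_lit 0) (p (nat_lit 0x10012) (nat_lit 0) pn)))))) :=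
  Cl.node (nat_lit 0x40592) (nat_lit 1) (by decide +kernel) (ClAll.succ ClAll.zero n206)

def n208 : Cl (O (nat_lit 5)) (R (nat_lit 102673))
    (p (nat_lit 0x30412) (nat_lit 0) (p (nat_lit 0x30212) (nat_lit 0) (p (nat_lit 0x20192) (nat_lit 0) (p (nat_lit 0x20092) (nat_lit 0) (p (nat_lit 0x10012) (nat_lit 0) pn))))) :=
  Cl.node (nat_lit 0x40492) (nat_lit 1) (by decide +kernel) (ClAll.succ ClAll.zero n207)

def n209 : Cl (O (nat_lit 5)) (R (nat_lit 102673))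
    (p (nat_lit 0x30212) (nat_lit 0) (p (nat_lit 0x20192) (nat_lit 0) (p (nat_lit 0x20092) (nat_lit 0) (p (nat_lit 0x10012) (nat_lit 0) pn)))) :=
  Cl.node (nat_lit 0x30412) (nat_lit 1) (by decide +kernel) (ClAll.succ ClAll.zero n208)

def n210 : Cl (O (nat_lit 5)) (R (nat_lit 102673))
    (p (nat_lit 0x20192) (nat_lit 0) (p (nat_lit 0x20092) (nat_lit 0) (p (nat_lit 0x10012) (nat_lit 0) pn))) :=
  Cl.node (nat_lit 0x30212) (nat_lit 1) (by decide +kernel) (ClAll.succ ClAll.zero n209)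

def n211 : Cl (O (nat_lit 5)) (R (nat_lit 102673))
    (p (nat_lit 0x20092) (nat_lit 0) (p (nat_lit 0x10012) (nat_lit 0) pn)) :=
  Cl.node (nat_lit 0x20192) (nat_lit 1) (by decide +kernel) (ClAll.succ ClAll.zero n210)

def n212 : Cl (O (nat_lit 5)) (R (nat_lit 102673))
    (p (nat_lit 0x10012) (nat_lit 0) pn) :=
  Cl.node (nat_lit 0x20092) (nat_lit 1) (by decide +kernel) (ClAll.succ ClAll.zero n211)

def n213 : Cl (O (nat_lit 5)) (R (nat_lit 102673))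
    pn :=
  Cl.node (nat_lit 0x10012) (nat_lit 1) (by decide +kernel) (ClAll.succ ClAll.zero n212)

theorem top : Cl (O (nat_lit 5)) (R (nat_lit 102673)) pn := n213

end Pool.Agent.Gen.F5.X12DC13m5
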